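import Mathlib

/-!
# MP_67e184_co : abelian relative difference sets with parameters `(s, s, s, 1)`

`s` is a prime power (Blokhuis, Jungnickel, Schmidt 2002); short proof in the group ring mod `p`.
-/

set_option linter.unusedSectionVars false

namespace Pool.Agent.Lib.MP67e184

open Finset

section
variable {Q : Type*} [CommGroup Q] [Fintype Q] [DecidableEq Q]

/-- number of ways to write `q` as a quotient of two elements of `D` -/
def cq (D : Finset Q) (q : Q) : ℕ := ((D ×ˢ D).filter fun z => z.1 * z.2⁻¹ = q).card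

/-- number of pairs in `D` with `x ^ p * y⁻¹ = g` -/
def ep (D : Finset Q) (p : ℕ) (g : Q) : ℕ := ((D ×ˢ D).filter fun z => z.1 ^ p * z.2⁻¹ = g).card

/-- `(s, s, s, 1)` relative difference sets in an abelian group -/
structure SRDS (N : Subgroup Q) (D : Finset Q) (s : ℕ) : Prop where
  cardQ : Fintype.card Q = s ^ 2
  cardN : Nat.card N = s
  cardD : D.card = s
  inN : ∀ q ∈ N, q ≠ 1 → cq D q = 0
  offN : ∀ q, q ∉ N → cq D q = 1

variable {N : Subgroup Q} {D : Finset Q} {s : ℕ}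

theorem cq_one (D : Finset Q) : cq D 1 = D.card := by
  unfold cq
  refine Finset.card_bij' (fun z _ => z.1) (fun x _ => (x, x)) ?_ ?_ ?_ ?_
  · intro z hz
    simp only [mem_filter, mem_product] at hz
    exact hz.1.1
  · intro x hx
    simp [hx]
  · intro z hz
    simp only [mem_filter, mem_product] at hz
    have : z.1 = z.2 := by
      rw [← mul_inv_eq_one]
      exact hz.2
    exact Prod.ext rfl this
  · intro x _
    rfl

theorem SRDS.inj (h : SRDS N D s) {x y : Q} (hx : x ∈ D) (hy : y ∈ D) (hN : x * y⁻¹ ∈ N) :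
    x = y := by
  by_contra hne
  have h1 : x * y⁻¹ ≠ 1 := fun h' => hne (mul_inv_eq_one.1 h')
  have h2 := h.inN _ hN h1
  unfold cq at h2
  rw [card_eq_zero] at h2
  have : (x, y) ∈ (D ×ˢ D).filter fun z => z.1 * z.2⁻¹ = x * y⁻¹ := by
    simp [hx, hy]
  rw [h2] at this
  simp at this

theorem SRDS.exists_mem (h : SRDS N D s) (hs : 0 < s) (q : Q) : ∃ x ∈ D, x⁻¹ * q ∈ N := by
  classical
  let f : D → Q ⧸ N := fun x => QuotientGroup.mk (x : Q)
  have hf : Function.Injective f := by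
    intro x y hxy
    have h1 : (x : Q)⁻¹ * y ∈ N := QuotientGroup.eq.1 hxy
    have h2 : (y : Q) * (x : Q)⁻¹ ∈ N := by
      rw [mul_comm]
      exact h1
    exact Subtype.ext (h.inj y.2 x.2 h2).symm
  have hcard : Nat.card D = Nat.card (Q ⧸ N) := by
    have h1 := N.card_eq_card_quotient_mul_card_subgroup
    rw [h.cardN, Nat.card_eq_fintype_card, h.cardQ, sq] at h1
    have h2 : Nat.card (Q ⧸ N) = s := (Nat.eq_of_mul_eq_mul_right hs h1).symm
    rw [h2, Nat.card_eq_fintype_card, Fintype.card_coe, h.cardD]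
  have hb : Function.Bijective f := (Nat.bijective_iff_injective_and_card f).2 ⟨hf, hcard⟩
  obtain ⟨x, hx⟩ := hb.2 (QuotientGroup.mk q)
  exact ⟨x, x.2, QuotientGroup.eq.1 hx⟩

end

section ring

variable {Q : Type*} [CommGroup Q] [Fintype Q] [DecidableEq Q] (p : ℕ) [hp : Fact p.Prime]

/-- group elements in the group ring mod `p` -/
noncomputable def dl (q : Q) : MonoidAlgebra (ZMod p) Q := MonoidAlgebra.single q 1

/-- the sum of all elements -/
noncomputable def jj (Q : Type*) [CommGroup Q] [Fintype Q] : MonoidAlgebra (ZMod p) Q :=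
  ∑ q : Q, dl p q

theorem dl_mul (a b : Q) : dl p a * dl p b = dl p (a * b) := by
  unfold dl
  rw [MonoidAlgebra.single_mul_single, one_mul]

theorem dl_pow (a : Q) (n : ℕ) : dl p a ^ n = dl p (a ^ n) := by
  unfold dl
  rw [MonoidAlgebra.single_pow, one_pow]

theorem dl_jj (a : Q) : dl p a * jj p Q = jj p Q := by
  unfold jj
  rw [Finset.mul_sum]
  simp only [dl_mul]
  exact Fintype.sum_equiv (Equiv.mulLeft a) _ _ fun _ => rfl

theorem sum_dl {ι : Type*} (T : Finset ι) (φ : ι → Q) :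
    ∑ z ∈ T, dl p (φ z) =
      ∑ q : Q, MonoidAlgebra.single q (((T.filter fun z => φ z = q).card : ℕ) : ZMod p) := by
  rw [← Finset.sum_fiberwise T φ]
  refine Finset.sum_congr rfl fun q _ => ?_
  rw [Finset.sum_congr rfl (g := fun _ => dl p q)]
  · rw [Finset.sum_const]
    unfold dl
    rw [MonoidAlgebra.smul_single, nsmul_eq_mul, mul_one]
  · intro z hz
    rw [(mem_filter.1 hz).2]

theorem coeff_sum (a : Q → ZMod p) (g : Q) :
    (∑ q, MonoidAlgebra.single q (a q) : MonoidAlgebra (ZMod p) Q).coeff g = a g := by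
  simp [Finsupp.single_apply]

theorem charP_ring : CharP (MonoidAlgebra (ZMod p) Q) p :=
  charP_of_injective_algebraMap (RingHom.injective (algebraMap (ZMod p) _)) p

variable {N : Subgroup Q} {D : Finset Q} {s : ℕ}

theorem prod_eq (h : SRDS N D s) (hs : 0 < s) (hps : p ∣ s) :
    (∑ x ∈ D, dl p x) ^ 2 * (∑ y ∈ D, dl p y⁻¹) = - jj p Q := by
  classical
  set d : MonoidAlgebra (ZMod p) Q := ∑ x ∈ D, dl p x with hd
  set n : MonoidAlgebra (ZMod p) Q := ∑ q ∈ univ.filter (fun q => q ∈ N), dl p q with hn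
  have hs0 : (s : ZMod p) = 0 := (ZMod.natCast_eq_zero_iff s p).2 hps
  have h1 : d * (∑ y ∈ D, dl p y⁻¹) = jj p Q - n := by
    rw [hd, Finset.sum_mul_sum, ← Finset.sum_product']
    simp only [dl_mul]
    rw [sum_dl p (D ×ˢ D) fun z => z.1 * z.2⁻¹, hn, jj, Finset.sum_filter,
      ← Finset.sum_sub_distrib]
    refine Finset.sum_congr rfl fun q _ => ?_
    change MonoidAlgebra.single q ((cq D q : ℕ) : ZMod p) = _
    by_cases hq : q ∈ N
    · rw [if_pos hq, sub_self]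
      by_cases hq1 : q = 1
      · rw [hq1, cq_one, h.cardD, hs0, MonoidAlgebra.single_zero]
      · rw [h.inN q hq hq1, Nat.cast_zero, MonoidAlgebra.single_zero]
    · rw [if_neg hq, sub_zero, h.offN q hq, Nat.cast_one, dl]
  have h2 : d * jj p Q = 0 := by
    rw [hd, Finset.sum_mul]
    simp only [dl_jj]
    rw [Finset.sum_const, h.cardD, ← Nat.cast_smul_eq_nsmul (ZMod p), hs0, zero_smul]
  have h3 : d * n = jj p Q := by
    rw [hd, hn, Finset.sum_mul_sum, ← Finset.sum_product']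
    simp only [dl_mul]
    unfold jj
    refine Finset.sum_bij (fun z _ => z.1 * z.2) (fun _ _ => mem_univ _) ?_ ?_ (fun _ _ => rfl)
    · intro z hz w hw hzw
      simp only [mem_product, mem_filter, mem_univ, true_and] at hz hw
      have h4 : z.1 * w.1⁻¹ ∈ N := by
        have : z.1 * w.1⁻¹ = w.2 * z.2⁻¹ := by
          rw [mul_inv_eq_iff_eq_mul, mul_assoc, mul_comm z.2⁻¹, ← mul_assoc, ← hzw.trans (mul_comm _ _)]
          simp
        rw [this]
        exact N.mul_mem hw.2 (N.inv_mem hz.2)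
      have h5 := h.inj hz.1 hw.1 h4
      have h6 : z.2 = w.2 := by
        rw [h5] at hzw
        exact mul_left_cancel hzw
      exact Prod.ext h5 h6
    · intro q _
      obtain ⟨x, hx, hxq⟩ := h.exists_mem hs q
      exact ⟨(x, x⁻¹ * q), by simp [hx, hxq], by simp⟩
  rw [sq, mul_assoc, h1, mul_sub, h2, h3, zero_sub]

theorem prod_pow_eq (D : Finset Q) (p' : ℕ) :
    (∑ x ∈ D, dl p (x ^ p')) * (∑ y ∈ D, dl p y⁻¹) =
      ∑ q : Q, MonoidAlgebra.single q ((ep D p' q : ℕ) : ZMod p) := by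
  rw [Finset.sum_mul_sum, ← Finset.sum_product']
  simp only [dl_mul]
  rw [sum_dl p (D ×ˢ D) fun z => z.1 ^ p' * z.2⁻¹]
  rfl

/-- the key congruence for odd `p` -/
theorem ep_odd (h : SRDS N D s) (hs : 0 < s) (hps : p ∣ s) (hp2 : p ≠ 2) (g : Q) :
    p ∣ ep D p g := by
  have hc := charP_ring (Q := Q) p
  have h1 : (∑ x ∈ D, dl p (x ^ p)) = (∑ x ∈ D, dl p x) ^ p := by
    rw [sum_pow_char p D]
    simp only [dl_pow]
  have hp3 : 3 ≤ p := by
    have := hp.1.two_le
    omega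
  have h2 : (∑ x ∈ D, dl p x) ^ p * (∑ y ∈ D, dl p y⁻¹) = 0 := by
    obtain ⟨k, rfl⟩ : ∃ k, p = k + 1 + 2 := ⟨p - 3, by omega⟩
    rw [pow_add, mul_assoc, prod_eq _ h hs hps, pow_succ, mul_assoc, mul_neg, Finset.sum_mul]
    simp only [dl_jj]
    rw [Finset.sum_const, h.cardD, ← Nat.cast_smul_eq_nsmul (ZMod (k + 1 + 2)),
      (ZMod.natCast_eq_zero_iff s _).2 hps, zero_smul, neg_zero, mul_zero]
  rw [← h1, prod_pow_eq p D p] at h2
  have h3 := coeff_sum p (fun q => ((ep D p q : ℕ) : ZMod p)) g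
  rw [h2] at h3
  rw [← ZMod.natCast_eq_zero_iff]
  rw [← h3]
  simp

/-- the key congruence for `p = 2` -/
theorem ep_two (h : SRDS N D s) (hs : 0 < s) (h2s : 2 ∣ s) (g : Q) : ep D 2 g % 2 = 1 := by
  have : Fact (Nat.Prime 2) := ⟨Nat.prime_two⟩
  have hc := charP_ring (Q := Q) 2
  have h1 : (∑ x ∈ D, dl 2 (x ^ 2)) = (∑ x ∈ D, dl 2 x) ^ 2 := by
    rw [sum_pow_char 2 D]
    simp only [dl_pow]
  have h2 := prod_eq 2 h hs h2s
  rw [← h1, prod_pow_eq 2 D 2] at h2
  have h3 := coeff_sum 2 (fun q => ((ep D 2 q : ℕ) : ZMod 2)) g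
  rw [h2] at h3
  have h4 : (- jj 2 Q).coeff g = (1 : ZMod 2) := by
    have h5 := coeff_sum 2 (fun _ : Q => (1 : ZMod 2)) g
    have h6 : jj 2 Q = ∑ q, MonoidAlgebra.single q ((fun _ : Q => (1 : ZMod 2)) q) := rfl
    rw [← h6] at h5
    have h7 : (- jj 2 Q).coeff g = - (jj 2 Q).coeff g := by simp
    rw [h7, h5]
    exact ZMod.neg_eq_self_mod_two 1
  rw [h4] at h3
  have h8 : ((ep D 2 g : ℕ) : ZMod 2) = ((1 : ℕ) : ZMod 2) := by
    rw [← h3, Nat.cast_one]
  have h9 := (ZMod.natCast_eq_natCast_iff _ _ _).1 h8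
  exact h9

end ring

section count

variable {Q : Type*} [CommGroup Q] [Fintype Q] [DecidableEq Q] {N : Subgroup Q} {D : Finset Q}
  {s : ℕ}

theorem sum_ep (D : Finset Q) (p : ℕ) : ∑ g, ep D p g = D.card ^ 2 := by
  unfold ep
  rw [← Finset.card_eq_sum_card_fiberwise (f := fun z : Q × Q => z.1 ^ p * z.2⁻¹)
    (fun _ _ => by simp), card_product, sq]

theorem sum_cq (D : Finset Q) : ∑ g, cq D g = D.card ^ 2 := by
  unfold cq
  rw [← Finset.card_eq_sum_card_fiberwise (f := fun z : Q × Q => z.1 * z.2⁻¹)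
    (fun _ _ => by simp), card_product, sq]

theorem sum_ep_sq (D : Finset Q) (p : ℕ) : ∑ g, ep D p g ^ 2 = ∑ q, cq D q * cq D (q ^ p) := by
  have h1 : ∑ g, ep D p g ^ 2 =
      (((D ×ˢ D) ×ˢ (D ×ˢ D)).filter
        fun w => w.1.1 ^ p * w.1.2⁻¹ = w.2.1 ^ p * w.2.2⁻¹).card := by
    rw [Finset.card_eq_sum_card_fiberwise (f := fun w : (Q × Q) × (Q × Q) => w.1.1 ^ p * w.1.2⁻¹)
      (t := univ) (fun _ _ => by simp)]
    refine Finset.sum_congr rfl fun g _ => ?_
    unfold ep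
    rw [sq, ← card_product]
    congr 1
    ext ⟨z, w⟩
    simp only [mem_product, mem_filter]
    constructor
    · rintro ⟨⟨h1, h2⟩, h3, h4⟩
      exact ⟨⟨⟨h1, h3⟩, h2.trans h4.symm⟩, h2⟩
    · rintro ⟨⟨⟨h1, h3⟩, h4⟩, h2⟩
      exact ⟨⟨h1, h2⟩, h3, h4.symm.trans h2⟩
  have h2 : ∑ q, cq D q * cq D (q ^ p) =
      (((D ×ˢ D) ×ˢ (D ×ˢ D)).filter
        fun w => (w.1.1 * w.1.2⁻¹) ^ p = w.2.1 * w.2.2⁻¹).card := by
    rw [Finset.card_eq_sum_card_fiberwise (f := fun w : (Q × Q) × (Q × Q) => w.1.1 * w.1.2⁻¹)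
      (t := univ) (fun _ _ => by simp)]
    refine Finset.sum_congr rfl fun g _ => ?_
    unfold cq
    rw [← card_product]
    congr 1
    ext ⟨z, w⟩
    simp only [mem_product, mem_filter]
    constructor
    · rintro ⟨⟨h1, h2⟩, h3, h4⟩
      exact ⟨⟨⟨h1, h3⟩, by rw [h2, h4]⟩, h2⟩
    · rintro ⟨⟨⟨h1, h3⟩, h4⟩, h2⟩
      exact ⟨⟨h1, h2⟩, h3, by rw [← h4, h2]⟩
  rw [h1, h2]
  refine Finset.card_bij' (fun w _ => ((w.1.1, w.2.1), (w.1.2, w.2.2)))
    (fun w _ => ((w.1.1, w.2.1), (w.1.2, w.2.2))) ?_ ?_ (fun _ _ => rfl) (fun _ _ => rfl)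
  · intro w hw
    simp only [mem_filter, mem_product] at hw ⊢
    refine ⟨⟨⟨hw.1.1.1, hw.1.2.1⟩, hw.1.1.2, hw.1.2.2⟩, ?_⟩
    have h3 := hw.2
    rw [mul_inv_eq_iff_eq_mul] at h3
    rw [mul_pow, inv_pow, mul_inv_eq_iff_eq_mul, h3]
    simp only [mul_comm, mul_left_comm]
  · intro w hw
    simp only [mem_filter, mem_product] at hw ⊢
    refine ⟨⟨⟨hw.1.1.1, hw.1.2.1⟩, hw.1.1.2, hw.1.2.2⟩, ?_⟩
    have h3 := hw.2
    rw [mul_pow, inv_pow, mul_inv_eq_iff_eq_mul] at h3
    rw [h3, mul_inv_eq_iff_eq_mul]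
    simp only [mul_comm, mul_left_comm]

theorem SRDS.cq_le (h : SRDS N D s) {q : Q} (hq : q ≠ 1) : cq D q ≤ 1 := by
  by_cases hN : q ∈ N
  · rw [h.inN q hN hq]
    exact Nat.zero_le _
  · rw [h.offN q hN]

/-- odd primes dividing `s` have large `p`-torsion -/
theorem SRDS.torsion (h : SRDS N D s) (hs : 0 < s) {p : ℕ} (hp : p.Prime) (hps : p ∣ s)
    (hp2 : p ≠ 2) : s < (univ.filter fun q : Q => q ^ p = 1).card := by
  have : Fact p.Prime := ⟨hp⟩
  set T := univ.filter fun q : Q => q ^ p = 1 with hT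
  have hp3 : 3 ≤ p := by
    have := hp.two_le
    omega
  have h1 : p * s ^ 2 ≤ ∑ g, ep D p g ^ 2 := by
    rw [← h.cardD, ← sum_ep D p, Finset.mul_sum]
    refine Finset.sum_le_sum fun g _ => ?_
    rcases Nat.eq_zero_or_pos (ep D p g) with h0 | h0
    · rw [h0]
      simp
    · rw [sq]
      exact Nat.mul_le_mul_right _ (Nat.le_of_dvd h0 (ep_odd p h hs hps hp2 g))
  have h2 : ∑ q, cq D q * cq D (q ^ p) ≤ s ^ 2 + (s - 1) * ∑ q ∈ T, cq D q := by
    have h3 : ∀ q, cq D q * cq D (q ^ p) ≤ cq D q + if q ^ p = 1 then (s - 1) * cq D q else 0 := by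
      intro q
      by_cases hq : q ^ p = 1
      · rw [if_pos hq, hq, cq_one, h.cardD]
        have : s = 1 + (s - 1) := by omega
        calc cq D q * s = cq D q * (1 + (s - 1)) := by rw [← this]
          _ = cq D q + (s - 1) * cq D q := by ring
          _ ≤ _ := le_rfl
      · rw [if_neg hq, add_zero]
        calc cq D q * cq D (q ^ p) ≤ cq D q * 1 := Nat.mul_le_mul_left _ (h.cq_le hq)
          _ = cq D q := mul_one _
    calc ∑ q, cq D q * cq D (q ^ p)
        ≤ ∑ q, (cq D q + if q ^ p = 1 then (s - 1) * cq D q else 0) :=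
          Finset.sum_le_sum fun q _ => h3 q
      _ = s ^ 2 + (s - 1) * ∑ q ∈ T, cq D q := by
          rw [Finset.sum_add_distrib, sum_cq, h.cardD, ← Finset.sum_filter, Finset.mul_sum]
  have h4 : ∑ q ∈ T, cq D q + 1 ≤ s + T.card := by
    have h1T : (1 : Q) ∈ T := by simp [hT]
    rw [← Finset.add_sum_erase T _ h1T, cq_one, h.cardD]
    have h5 : ∑ q ∈ T.erase 1, cq D q ≤ (T.erase 1).card := by
      calc ∑ q ∈ T.erase 1, cq D q ≤ ∑ _q ∈ T.erase 1, 1 :=
            Finset.sum_le_sum fun q hq => h.cq_le (Finset.ne_of_mem_erase hq)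
        _ = _ := by simp
    have h6 : (T.erase 1).card + 1 = T.card := Finset.card_erase_add_one h1T
    omega
  rw [sum_ep_sq] at h1
  by_contra hcon
  push Not at hcon
  have h7 : ∑ q ∈ T, cq D q ≤ 2 * s - 1 := by omega
  have h8 : (s - 1) * ∑ q ∈ T, cq D q ≤ (s - 1) * (2 * s - 1) := Nat.mul_le_mul_left _ h7
  obtain ⟨t, rfl⟩ : ∃ t, s = t + 1 := ⟨s - 1, by omega⟩
  have h9 : 3 * (t + 1) ^ 2 ≤ p * (t + 1) ^ 2 := Nat.mul_le_mul_right _ hp3
  have h10 : 3 * (t + 1) ^ 2 ≤ (t + 1) ^ 2 + (t + 1 - 1) * (2 * (t + 1) - 1) := by omega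
  have e1 : t + 1 - 1 = t := by omega
  have e2 : 2 * (t + 1) - 1 = 2 * t + 1 := by omega
  rw [e1, e2] at h10
  nlinarith

theorem card_torsion (p : ℕ) : (univ.filter fun q : Q => q ^ p = 1).card =
    Nat.card (powMonoidHom p : Q →* Q).ker :=
  (Nat.subtype_card _ fun q => by simp [MonoidHom.mem_ker]).symm

theorem card_torsion_pow {p : ℕ} (hp : p.Prime) :
    ∃ n, (univ.filter fun q : Q => q ^ p = 1).card = p ^ n := by
  have : Fact p.Prime := ⟨hp⟩
  have h1 : IsPGroup p (powMonoidHom p : Q →* Q).ker := by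
    intro x
    refine ⟨1, ?_⟩
    rw [pow_one]
    have := x.2
    rw [MonoidHom.mem_ker, powMonoidHom_apply] at this
    exact Subtype.ext this
  obtain ⟨n, hn⟩ := IsPGroup.iff_card.1 h1
  exact ⟨n, (card_torsion p).trans hn⟩

theorem card_torsion_dvd (p : ℕ) :
    (univ.filter fun q : Q => q ^ p = 1).card ∣ Fintype.card Q := by
  have h1 := (powMonoidHom p : Q →* Q).ker.card_subgroup_dvd_card
  rw [Nat.card_eq_fintype_card (α := Q)] at h1
  rw [card_torsion]
  exact h1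

/-- **Blokhuis, Jungnickel, Schmidt**: an abelian `(s, s, s, 1)` relative difference set has `s` a
prime power -/
theorem SRDS.isPrimePow (h : SRDS N D s) (hs : 2 ≤ s) : IsPrimePow s := by
  have hs0 : 0 < s := by omega
  by_cases h2 : 2 ∣ s
  · -- `s` even
    have h1 : ∀ g, ep D 2 g = 1 := by
      have h3 : ∀ g ∈ (univ : Finset Q), 1 ≤ ep D 2 g := by
        intro g _
        have := ep_two h hs0 h2 g
        omega
      have h4 : ∑ _g : Q, 1 = ∑ g : Q, ep D 2 g := by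
        rw [sum_ep, h.cardD, ← h.cardQ]
        simp
      intro g
      exact ((Finset.sum_eq_sum_iff_of_le h3).1 h4 g (mem_univ g)).symm
    have h5 : ∀ x ∈ D, ∀ x' ∈ D, (x * x'⁻¹) ^ 2 ∈ N := by
      intro x hx x' hx'
      by_contra hN
      have h6 := h.offN _ hN
      unfold cq at h6
      obtain ⟨z, hz⟩ := card_eq_one.1 h6
      have hz1 : z ∈ (D ×ˢ D).filter fun w => w.1 * w.2⁻¹ = (x * x'⁻¹) ^ 2 := by
        rw [hz]
        simp
      simp only [mem_filter, mem_product] at hz1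
      obtain ⟨w, hw⟩ := card_eq_one.1 (h1 (x ^ 2 * z.1⁻¹))
      have h7 : (x, z.1) ∈ (D ×ˢ D).filter fun w => w.1 ^ 2 * w.2⁻¹ = x ^ 2 * z.1⁻¹ := by
        simp [hx, hz1.1.1]
      have h8 : (x', z.2) ∈ (D ×ˢ D).filter fun w => w.1 ^ 2 * w.2⁻¹ = x ^ 2 * z.1⁻¹ := by
        simp only [mem_filter, mem_product]
        refine ⟨⟨hx', hz1.1.2⟩, ?_⟩
        have h9 : z.1 = (x * x'⁻¹) ^ 2 * z.2 := mul_inv_eq_iff_eq_mul.1 hz1.2
        rw [h9, mul_inv, mul_pow, mul_inv, inv_pow, inv_inv, mul_assoc, mul_inv_cancel_left]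
      rw [hw] at h7 h8
      rw [mem_singleton] at h7 h8
      have h9 : (x, z.1) = (x', z.2) := h7.trans h8.symm
      have h10 : x = x' := (Prod.ext_iff.1 h9).1
      apply hN
      rw [h10]
      simp
    obtain ⟨x0, hx0, hx0N⟩ := h.exists_mem hs0 1
    rw [mul_one] at hx0N
    have h6 : ∀ q : Q, q ^ 2 ∈ N := by
      intro q
      obtain ⟨x, hx, hxq⟩ := h.exists_mem hs0 q
      have e : q ^ 2 = (x * x0⁻¹) ^ 2 * (x⁻¹ * q) ^ 2 * (x0⁻¹ ^ 2)⁻¹ := by
        rw [← mul_pow, ← inv_pow, ← mul_pow, inv_inv]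
        congr 1
        rw [mul_comm x x0⁻¹, mul_assoc x0⁻¹, mul_inv_cancel_left, mul_comm x0⁻¹ q,
          inv_mul_cancel_right]
      rw [e]
      exact N.mul_mem (N.mul_mem (h5 x hx x0 hx0) (N.pow_mem hxq 2))
        (N.inv_mem (N.pow_mem hx0N 2))
    have h7 : IsPGroup 2 (Q ⧸ N) := by
      intro y
      refine ⟨1, ?_⟩
      induction y using QuotientGroup.induction_on with
      | H q =>
        rw [pow_one, ← QuotientGroup.mk_pow, QuotientGroup.eq_one_iff]
        exact h6 q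
    have : Fact (Nat.Prime 2) := ⟨Nat.prime_two⟩
    obtain ⟨n, hn⟩ := IsPGroup.iff_card.1 h7
    have h8 : Nat.card (Q ⧸ N) = s := by
      have h1 := N.card_eq_card_quotient_mul_card_subgroup
      rw [h.cardN, Nat.card_eq_fintype_card, h.cardQ, sq] at h1
      exact (Nat.eq_of_mul_eq_mul_right hs0 h1).symm
    rw [h8] at hn
    rw [hn]
    refine Nat.prime_two.isPrimePow.pow ?_
    rintro rfl
    rw [pow_zero] at hn
    omega
  · -- `s` odd
    rw [isPrimePow_iff_unique_prime_dvd]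
    obtain ⟨p, hp, hps⟩ := Nat.exists_prime_and_dvd (show s ≠ 1 by omega)
    refine ⟨p, ⟨hp, hps⟩, ?_⟩
    rintro q ⟨hq, hqs⟩
    by_contra hne
    have hp2 : p ≠ 2 := by
      rintro rfl
      exact h2 hps
    have hq2 : q ≠ 2 := by
      rintro rfl
      exact h2 hqs
    have h3 := h.torsion hs0 hp hps hp2
    have h4 := h.torsion hs0 hq hqs hq2
    obtain ⟨a, ha⟩ := card_torsion_pow (Q := Q) hp
    obtain ⟨b, hb⟩ := card_torsion_pow (Q := Q) hq
    have h5 := card_torsion_dvd (Q := Q) p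
    have h6 := card_torsion_dvd (Q := Q) q
    have hco : Nat.Coprime (univ.filter fun x : Q => x ^ p = 1).card
        (univ.filter fun x : Q => x ^ q = 1).card := by
      rw [ha, hb]
      exact Nat.Coprime.pow _ _ ((Nat.coprime_primes hp hq).2 (Ne.symm hne))
    have h7 := hco.mul_dvd_of_dvd_of_dvd h5 h6
    rw [h.cardQ] at h7
    have h8 := Nat.le_of_dvd (by positivity) h7
    nlinarith

end count

end Pool.Agent.Lib.MP67e184
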