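import Pool.Agent.Lib.MP_67e184_co.Homo

/-!
# MP_67e184_co : centres of groups of dilatations
-/

namespace Pool.Agent.Lib.MP67e184

open Finset

section
variable {P : Type*} [Fintype P] [DecidableEq P] {s r μ : ℕ} {cls : Fin r → Finset (Finset P)}

omit [Fintype P] in
theorem card_filter_stab [Finite P] (D : Subgroup (Equiv.Perm P)) [Fintype D] (z : P) :
    (univ.filter fun g : D => (g : Equiv.Perm P) z = z).card
      = Nat.card (MulAction.stabilizer D z) := by
  classical
  have : Fintype (MulAction.stabilizer D z) := Fintype.ofFinite _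
  rw [Nat.card_eq_fintype_card]
  symm
  apply Fintype.card_of_subtype
  intro g
  rw [mem_filter]
  exact ⟨fun hg => hg.2, fun hg => ⟨mem_univ _, hg⟩⟩

variable (h : IsCompleteNet s r μ cls) (hs : 2 ≤ s) (hμ : 1 ≤ μ) (D : Subgroup (Equiv.Perm P))
  [Fintype D] (hD : ∀ g ∈ D, IsDilatation cls g)

/-- the nonidentity elements that fix a point of `Z` -/
def fixers (D : Subgroup (Equiv.Perm P)) [Fintype D] (Z : Finset P) : Finset D :=
  Z.biUnion fun z => (univ.filter fun g : D => (g : Equiv.Perm P) z = z).erase 1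

theorem mem_fixers {Z : Finset P} {g : D} :
    g ∈ fixers D Z ↔ g ≠ 1 ∧ ∃ z ∈ Z, (g : Equiv.Perm P) z = z := by
  unfold fixers
  simp only [mem_biUnion, mem_erase, mem_filter, mem_univ, true_and]
  constructor
  · rintro ⟨z, hz, h1, h2⟩
    exact ⟨h1, z, hz, h2⟩
  · rintro ⟨h1, z, hz, h2⟩
    exact ⟨z, hz, h1, h2⟩

include h hs hμ hD

theorem card_fixers {Z : Finset P}
    (hZ : ∀ z ∈ Z, Nat.card (MulAction.stabilizer D z) = s - 1) :
    (fixers D Z).card = Z.card * (s - 2) := by
  unfold fixers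
  rw [card_biUnion]
  · have h1 : ∀ z ∈ Z, ((univ.filter fun g : D => (g : Equiv.Perm P) z = z).erase 1).card
        = s - 2 := by
      intro z hz
      rw [card_erase_of_mem, card_filter_stab, hZ z hz]
      · omega
      · rw [mem_filter]
        exact ⟨mem_univ _, rfl⟩
    rw [sum_congr rfl h1, sum_const, smul_eq_mul]
  · intro a _ b _ hab
    rw [Function.onFun, disjoint_left]
    intro g hg hg'
    simp only [mem_erase, mem_filter, mem_univ, true_and] at hg hg'
    apply hg.1
    apply Subtype.ext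
    exact dil_eq_one h hs hμ (hD g g.2) hg.2 hg'.2 hab


end

section
variable {P : Type*} [Fintype P] [DecidableEq P] {s r μ : ℕ} {cls : Fin r → Finset (Finset P)}

open Classical in
/-- the orbit of `x` -/
noncomputable def orb (D : Subgroup (Equiv.Perm P)) (x : P) : Finset P :=
  univ.filter fun z => ∃ g : D, (g : Equiv.Perm P) x = z

theorem mem_orb {D : Subgroup (Equiv.Perm P)} {x z : P} :
    z ∈ orb D x ↔ ∃ g : D, (g : Equiv.Perm P) x = z := by
  classical
  unfold orb
  rw [mem_filter]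
  exact ⟨fun hz => hz.2, fun hz => ⟨mem_univ _, hz⟩⟩

theorem self_mem_orb (D : Subgroup (Equiv.Perm P)) (x : P) : x ∈ orb D x :=
  mem_orb.2 ⟨1, rfl⟩

theorem card_orb (D : Subgroup (Equiv.Perm P)) (x : P) :
    (orb D x).card * Nat.card (MulAction.stabilizer D x) = Nat.card D := by
  classical
  rw [← Nat.card_congr (MulAction.orbitProdStabilizerEquivGroup D x), Nat.card_prod]
  congr 1
  have : Fintype (MulAction.orbit D x) := Fintype.ofFinite _
  rw [Nat.card_eq_fintype_card]
  symm
  apply Fintype.card_of_subtype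
  intro z
  rw [mem_orb]
  rfl

theorem orb_eq {D : Subgroup (Equiv.Perm P)} {x z : P} (hz : z ∈ orb D x) : orb D z = orb D x := by
  obtain ⟨g, rfl⟩ := mem_orb.1 hz
  ext w
  rw [mem_orb, mem_orb]
  constructor
  · rintro ⟨k, rfl⟩
    exact ⟨k * g, rfl⟩
  · rintro ⟨k, rfl⟩
    refine ⟨k * g⁻¹, ?_⟩
    simp

theorem stab_of_mem_orb {D : Subgroup (Equiv.Perm P)} {x z : P} (hz : z ∈ orb D x) :
    Nat.card (MulAction.stabilizer D z) = Nat.card (MulAction.stabilizer D x) := by
  have h1 := card_orb D x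
  have h2 := card_orb D z
  rw [orb_eq hz, ← h1] at h2
  have h3 : 0 < (orb D x).card := card_pos.2 ⟨x, self_mem_orb D x⟩
  exact Nat.eq_of_mul_eq_mul_left h3 h2

theorem mem_orb_of_centres (h : IsCompleteNet s r μ cls) (hs : 3 ≤ s) (hμ : 1 ≤ μ)
    (D : Subgroup (Equiv.Perm P)) (hD : ∀ g ∈ D, IsDilatation cls g) {x y : P}
    (hx : Nat.card (MulAction.stabilizer D x) = s - 1)
    (hy : Nat.card (MulAction.stabilizer D y) = s - 1) : y ∈ orb D x := by
  classical
  have : Fintype D := Fintype.ofFinite _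
  by_contra hne
  have hdisj : Disjoint (orb D x) (orb D y) := by
    rw [disjoint_left]
    intro z hz hz'
    apply hne
    rw [← orb_eq hz, orb_eq hz']
    exact self_mem_orb D y
  have hZ : ∀ z ∈ orb D x ∪ orb D y, Nat.card (MulAction.stabilizer D z) = s - 1 := by
    intro z hz
    rcases mem_union.1 hz with hz | hz
    · rw [stab_of_mem_orb hz, hx]
    · rw [stab_of_mem_orb hz, hy]
  have h1 := card_fixers h (by omega) hμ D hD hZ
  have h2 : (fixers D (orb D x ∪ orb D y)).card < Nat.card D := by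
    rw [Nat.card_eq_fintype_card, ← card_univ]
    apply card_lt_card
    rw [ssubset_univ_iff]
    intro he
    have h3 : (1 : D) ∈ fixers D (orb D x ∪ orb D y) := by
      rw [he]
      exact mem_univ _
    exact (mem_fixers D).1 h3 |>.1 rfl
  rw [h1, card_union_of_disjoint hdisj] at h2
  have h3 := card_orb D x
  have h4 := card_orb D y
  rw [hx] at h3
  rw [hy] at h4
  have h5 : (orb D x).card = (orb D y).card := by
    have : (orb D x).card * (s - 1) = (orb D y).card * (s - 1) := h3.trans h4.symm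
    exact Nat.eq_of_mul_eq_mul_right (by omega) this
  rw [← h5, ← h3] at h2
  obtain ⟨t, rfl⟩ : ∃ t, s = t + 3 := ⟨s - 3, by omega⟩
  have h6 : t + 3 - 2 = t + 1 := by omega
  have h7 : t + 3 - 1 = t + 2 := by omega
  rw [h6, h7] at h2
  nlinarith [Nat.zero_le ((orb D x).card * t)]

theorem fb_zero_or (h : IsCompleteNet s r μ cls) (hs : 3 ≤ s) (hμ : 1 ≤ μ)
    (D : Subgroup (Equiv.Perm P)) [Fintype D] (hD : ∀ g ∈ D, IsDilatation cls g) {x y : P}
    (hx : Nat.card (MulAction.stabilizer D x) = s - 1)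
    (hy : Nat.card (MulAction.stabilizer D y) = s - 1) {c : Fin r}
    (hxy : blk h c x ≠ blk h c y) :
    (∀ g : D, g ∉ fixers D (orb D x) → fb cls c (g : Equiv.Perm P) = 0 ∨
      fb cls c (g : Equiv.Perm P) = s) ∧
    ∑ g ∈ univ \ fixers D (orb D x), fb cls c (g : Equiv.Perm P) = (orb D x).card := by
  classical
  letI := actBlock D hD c
  have h2t := twoTrans_of_centres h (by omega) hμ D hD hs hx hy hxy
  have hcard : Fintype.card {B // B ∈ cls c} = s := by
    rw [Fintype.card_coe, card_cls h (by omega) hμ]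
  have htr : ∀ a b : {B // B ∈ cls c}, ∃ g : D, g • a = b := by
    intro a b
    obtain ⟨a', ha'⟩ := Fintype.exists_ne_of_one_lt_card (by omega) a
    obtain ⟨b', hb'⟩ := Fintype.exists_ne_of_one_lt_card (by omega) b
    obtain ⟨g, hg, _⟩ := h2t a a' b b' (Ne.symm ha') (Ne.symm hb')
    exact ⟨g, hg⟩
  have hS1 := sum_fx (D := D) (X := {B // B ∈ cls c}) htr (by omega)
  have hS2 := sum_fx_sq (D := D) (X := {B // B ∈ cls c}) h2t (by omega)
  rw [sum_congr rfl fun g _ => fx_eq_fb D hD c g] at hS1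
  have hS2' : ∑ g : D, fb cls c (g : Equiv.Perm P) ^ 2 = 2 * Fintype.card D := by
    rw [← hS2]
    exact sum_congr rfl fun g _ => by rw [← fx_eq_fb D hD c g]
  set A := fixers D (orb D x) with hA
  have hAcard : A.card = (orb D x).card * (s - 2) :=
    card_fixers h (by omega) hμ D hD fun z hz => by rw [stab_of_mem_orb hz, hx]
  have hDcard : Fintype.card D = (orb D x).card * (s - 1) := by
    rw [← Nat.card_eq_fintype_card, ← card_orb D x, hx]
  have hA1 : ∀ g ∈ A, fb cls c (g : Equiv.Perm P) = 1 := by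
    intro g hg
    obtain ⟨hg1, z, _, hz⟩ := (mem_fixers D).1 hg
    exact fb_eq_one h (by omega) hμ (hD g g.2) (fun he => hg1 (Subtype.ext he)) hz c
  have hsplit1 : ∑ g ∈ univ \ A, fb cls c (g : Equiv.Perm P) + A.card = Fintype.card D := by
    rw [← hS1, ← sum_sdiff (subset_univ A), sum_congr (s₁ := A) rfl hA1, sum_const, smul_eq_mul,
      mul_one]
  have hsplit2 : ∑ g ∈ univ \ A, fb cls c (g : Equiv.Perm P) ^ 2 + A.card
      = 2 * Fintype.card D := by
    rw [← hS2', ← sum_sdiff (subset_univ A)]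
    congr 1
    rw [sum_congr (s₁ := A) rfl fun g hg => by rw [hA1 g hg], sum_const, smul_eq_mul]
    simp
  obtain ⟨t, ht⟩ : ∃ t, s = t + 3 := ⟨s - 3, by omega⟩
  have hle : ∀ g : D, fb cls c (g : Equiv.Perm P) ≤ s := by
    intro g
    unfold fb
    calc _ ≤ (cls c).card := card_filter_le _ _
      _ = s := card_cls h (by omega) hμ c
  have hk1 : ∑ g ∈ univ \ A, fb cls c (g : Equiv.Perm P) = (orb D x).card := by
    rw [hAcard, hDcard, ht] at hsplit1
    have h6 : t + 3 - 2 = t + 1 := by omega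
    have h7 : t + 3 - 1 = t + 2 := by omega
    rw [h6, h7] at hsplit1
    nlinarith
  refine ⟨?_, hk1⟩
  have hk2 : ∑ g ∈ univ \ A, fb cls c (g : Equiv.Perm P) ^ 2 = (orb D x).card * s := by
    rw [hAcard, hDcard, ht] at hsplit2
    have h6 : t + 3 - 2 = t + 1 := by omega
    have h7 : t + 3 - 1 = t + 2 := by omega
    rw [h6, h7] at hsplit2
    rw [ht]
    nlinarith
  have hzero : ∑ g ∈ univ \ A, (fb cls c (g : Equiv.Perm P) : ℤ)
      * (s - fb cls c (g : Equiv.Perm P)) = 0 := by
    have h8 : ∀ g ∈ univ \ A, (fb cls c (g : Equiv.Perm P) : ℤ)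
        * (s - fb cls c (g : Equiv.Perm P))
        = s * (fb cls c (g : Equiv.Perm P) : ℤ) - (fb cls c (g : Equiv.Perm P) : ℤ) ^ 2 := by
      intro g _
      ring
    rw [sum_congr rfl h8, sum_sub_distrib, ← mul_sum]
    have h9 : (∑ g ∈ univ \ A, (fb cls c (g : Equiv.Perm P) : ℤ)) = (orb D x).card := by
      exact_mod_cast hk1
    have h10 : (∑ g ∈ univ \ A, (fb cls c (g : Equiv.Perm P) : ℤ) ^ 2)
        = (orb D x).card * s := by
      exact_mod_cast hk2
    rw [h9, h10]
    ring
  rw [sum_eq_zero_iff_of_nonneg] at hzero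
  · intro g hg
    have h8 := hzero g (mem_sdiff.2 ⟨mem_univ _, hg⟩)
    rcases mul_eq_zero.1 h8 with h9 | h9
    · left
      exact_mod_cast h9
    · right
      have : (fb cls c (g : Equiv.Perm P) : ℤ) = s := by linarith
      exact_mod_cast this
  · intro g _
    have h8 : (fb cls c (g : Equiv.Perm P) : ℤ) ≤ s := by exact_mod_cast hle g
    apply mul_nonneg (by positivity)
    linarith

/-- two centres: `s` is a prime power -/
theorem primePow_of_centres (h : IsCompleteNet s r μ cls) (hs : 3 ≤ s) (hμ : 1 ≤ μ)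
    (D : Subgroup (Equiv.Perm P)) (hD : ∀ g ∈ D, IsDilatation cls g) {x y : P} (hne : x ≠ y)
    (hx : Nat.card (MulAction.stabilizer D x) = s - 1)
    (hy : Nat.card (MulAction.stabilizer D y) = s - 1) : IsPrimePow s := by
  classical
  have : Fintype D := Fintype.ofFinite _
  -- a class that separates `x` and `y`
  obtain ⟨c, hxy⟩ : ∃ c : Fin r, blk h c x ≠ blk h c y := by
    by_contra hall
    push Not at hall
    have h1 : nn h x y = r := by
      unfold nn
      rw [filter_true_of_mem fun c _ => (mem_blk_iff h).2 (hall c), card_univ, Fintype.card_fin]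
    have h2 := nn_eq h (by omega) hne
    have h3 := rel_r h (by omega : 2 ≤ s)
    rw [h1] at h2
    have h4 : (3 : ℤ) ≤ s := by exact_mod_cast hs
    have h5 : (1 : ℤ) ≤ μ := by exact_mod_cast hμ
    have h6 : (s : ℤ) * μ * (s - 1) = 0 := by linear_combination h2 - h3
    have h7 : (0 : ℤ) < s * μ * (s - 1) := by
      have : (0 : ℤ) < s - 1 := by linarith
      have h8 : (0 : ℤ) < s := by linarith
      positivity
    omega
  obtain ⟨hfb, _⟩ := fb_zero_or h hs hμ D hD hx hy hxy
  have hcard : Fintype.card {B // B ∈ cls c} = s := by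
    rw [Fintype.card_coe, card_cls h (by omega) hμ]
  letI := actBlock D hD c
  have h2t := twoTrans_of_centres h (by omega) hμ D hD hs hx hy hxy
  let Q : Subgroup (Equiv.Perm {B // B ∈ cls c}) :=
    (MulAction.toPermHom D {B // B ∈ cls c}).range
  have : Fintype Q := Fintype.ofFinite _
  have hQ2 : TwoTrans Q {B // B ∈ cls c} := by
    intro a a' b b' ha hb
    obtain ⟨g, hg1, hg2⟩ := h2t a a' b b' ha hb
    exact ⟨⟨MulAction.toPermHom D {B // B ∈ cls c} g, ⟨g, rfl⟩⟩, hg1, hg2⟩
  rw [← hcard]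
  refine primePow_of_sharp (D := Q) hQ2 (by omega) ?_
  rintro ⟨q, ⟨g, rfl⟩⟩ a b hab ha hb
  have ha' : g • a = a := ha
  have hb' : g • b = b := hb
  have hfx2 : 2 ≤ fb cls c (g : Equiv.Perm P) := by
    rw [← fx_eq_fb D hD c g]
    unfold fx
    have h1 : ({a, b} : Finset {B // B ∈ cls c}) ⊆ univ.filter fun a => g • a = a := by
      intro d hd
      rw [mem_filter]
      refine ⟨mem_univ _, ?_⟩
      rcases mem_insert.1 hd with rfl | hd
      · exact ha'
      · rw [mem_singleton] at hd
        subst hd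
        exact hb'
    calc 2 = ({a, b} : Finset {B // B ∈ cls c}).card := (card_pair hab).symm
      _ ≤ _ := card_le_card h1
  have hgA : g ∉ fixers D (orb D x) := by
    intro hg
    obtain ⟨hg1, z, _, hz⟩ := (mem_fixers D).1 hg
    have := fb_eq_one h (by omega) hμ (hD g g.2) (fun he => hg1 (Subtype.ext he)) hz c
    omega
  have hfs : fb cls c (g : Equiv.Perm P) = s := by
    rcases hfb g hgA with h1 | h1
    · omega
    · exact h1
  apply Subtype.ext
  change MulAction.toPermHom D {B // B ∈ cls c} g = 1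
  ext1 d
  change g • d = d
  have h1 : (univ.filter fun a : {B // B ∈ cls c} => g • a = a) = univ := by
    apply eq_univ_of_card
    rw [hcard, ← hfs, ← fx_eq_fb D hD c g]
    rfl
  have h2 : d ∈ (univ.filter fun a : {B // B ∈ cls c} => g • a = a) := by
    rw [h1]
    exact mem_univ _
  exact (mem_filter.1 h2).2

/-- centres not in one block: every point is a centre and the parameters are classical -/
theorem classical_of_centres (h : IsCompleteNet s r μ cls) (hs : 3 ≤ s) (hμ : 1 ≤ μ)
    (D : Subgroup (Equiv.Perm P)) (hD : ∀ g ∈ D, IsDilatation cls g)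
    (hcen : ∀ c, ∀ B ∈ cls c, ∃ x, x ∉ B ∧ Nat.card (MulAction.stabilizer D x) = s - 1) :
    (∀ x : P, Nat.card (MulAction.stabilizer D x) = s - 1) ∧ IsPrimePow s ∧
      ∃ d, 2 ≤ d ∧ μ = s ^ (d - 2) := by
  classical
  have : Fintype D := Fintype.ofFinite _
  have hr : 0 < r := by
    by_contra h0
    have h1 : r = 0 := by omega
    have h2 := h.complete
    rw [h1] at h2
    nlinarith
  have hPpos : 0 < Fintype.card P := by
    rw [h.card_points]
    positivity
  obtain ⟨p₀⟩ := Fintype.card_pos_iff.1 hPpos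
  obtain ⟨x, hx0, hx⟩ := hcen ⟨0, hr⟩ _ (blk_mem h ⟨0, hr⟩ p₀)
  have hsep : ∀ c : Fin r, ∃ y, blk h c x ≠ blk h c y ∧
      Nat.card (MulAction.stabilizer D y) = s - 1 := by
    intro c
    obtain ⟨y, hy, hy'⟩ := hcen c _ (blk_mem h c x)
    exact ⟨y, fun he => hy ((mem_blk_iff h).2 he), hy'⟩
  set A := fixers D (orb D x) with hA
  have hAcard : A.card = (orb D x).card * (s - 2) :=
    card_fixers h (by omega) hμ D hD fun z hz => by rw [stab_of_mem_orb hz, hx]
  have hDcard : Fintype.card D = (orb D x).card * (s - 1) := by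
    rw [← Nat.card_eq_fintype_card, ← card_orb D x, hx]
  have h1A : (1 : D) ∈ univ \ A := by
    rw [mem_sdiff]
    exact ⟨mem_univ _, fun h1 => ((mem_fixers D).1 h1).1 rfl⟩
  have hcompl : (univ \ A).card = (orb D x).card := by
    rw [card_sdiff_of_subset (subset_univ A), card_univ, hAcard, hDcard, ← Nat.mul_sub]
    have : s - 1 - (s - 2) = 1 := by omega
    rw [this, mul_one]
  -- sum over all classes
  have hsum1 : ∑ g ∈ univ \ A, ∑ c, fb cls c (g : Equiv.Perm P) = r * (orb D x).card := by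
    rw [sum_comm]
    have h3 : ∀ c ∈ (univ : Finset (Fin r)), ∑ g ∈ univ \ A, fb cls c (g : Equiv.Perm P)
        = (orb D x).card := by
      intro c _
      obtain ⟨y, hy, hy'⟩ := hsep c
      exact (fb_zero_or h hs hμ D hD hx hy' hy).2
    rw [sum_congr rfl h3, sum_const, card_univ, Fintype.card_fin, smul_eq_mul]
  have hfree : ∀ g ∈ (univ \ A).erase 1, fp (g : Equiv.Perm P) = 0 := by
    intro g hg
    rw [mem_erase, mem_sdiff] at hg
    unfold fp
    rw [card_eq_zero, filter_eq_empty_iff]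
    intro z _ hz
    obtain ⟨y, hy, hy'⟩ := hsep ⟨0, hr⟩
    have h3 := (fb_zero_or h hs hμ D hD hx hy' hy).1 g hg.2.2
    have h4 := fb_eq_one h (by omega) hμ (hD g g.2) (fun he => hg.1 (Subtype.ext he)) hz ⟨0, hr⟩
    omega
  have hsumg : ∀ g ∈ (univ \ A).erase 1, ∑ c, fb cls c (g : Equiv.Perm P) = r - 1 := by
    intro g hg
    have h3 := sum_fb h (by omega) hμ (g : Equiv.Perm P) (hD g g.2)
    rw [hfree g hg] at h3
    omega
  have hsum11 : ∑ c, fb cls c ((1 : D) : Equiv.Perm P) = r * s := by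
    have h3 : ∀ c ∈ (univ : Finset (Fin r)), fb cls c ((1 : D) : Equiv.Perm P) = s := by
      intro c _
      unfold fb
      rw [filter_true_of_mem, card_cls h (by omega) hμ]
      intro B _
      simp
    rw [sum_congr rfl h3, sum_const, card_univ, Fintype.card_fin, smul_eq_mul]
  have hkpos : 0 < (orb D x).card := card_pos.2 ⟨x, self_mem_orb D x⟩
  have hk : (orb D x).card = s ^ 2 * μ := by
    rw [← add_sum_erase _ _ h1A, hsum11, sum_congr rfl hsumg, sum_const, smul_eq_mul,
      card_erase_of_mem h1A, hcompl] at hsum1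
    have hc := h.complete
    obtain ⟨k, hk⟩ : ∃ k, (orb D x).card = k + 1 := ⟨(orb D x).card - 1, by omega⟩
    obtain ⟨r', hr'⟩ : ∃ r', r = r' + 1 := ⟨r - 1, by omega⟩
    obtain ⟨t, ht⟩ : ∃ t, s = t + 1 := ⟨s - 1, by omega⟩
    rw [← hc]
    rw [hk, hr'] at hsum1
    rw [hk, hr']
    have e1 : k + 1 - 1 = k := by omega
    have e2 : r' + 1 - 1 = r' := by omega
    rw [e1, e2] at hsum1
    rw [ht] at hsum1 ⊢
    have e3 : t + 1 - 1 = t := by omega
    rw [e3]
    nlinarith
  have horb : orb D x = univ := by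
    apply eq_univ_of_card
    rw [hk, h.card_points]
  have hall : ∀ z : P, Nat.card (MulAction.stabilizer D z) = s - 1 := by
    intro z
    rw [stab_of_mem_orb (x := x) (by rw [horb]; exact mem_univ _), hx]
  obtain ⟨y, hy, hy'⟩ := hsep ⟨0, hr⟩
  have hpp : IsPrimePow s := by
    refine primePow_of_centres h hs hμ D hD (x := x) (y := y) ?_ hx hy'
    rintro rfl
    exact hy rfl
  have hdvd : ∀ p : ℕ, p.Prime → p ∣ μ → p ∣ s := by
    intro p hp hpμ
    by_contra hps
    have : Fact p.Prime := ⟨hp⟩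
    have hpP : p ∣ Fintype.card P := by
      rw [h.card_points]
      exact Dvd.dvd.mul_left hpμ _
    have hpD : p ∣ Fintype.card D := by
      rw [hDcard, hk, ← h.card_points]
      exact Dvd.dvd.mul_right hpP _
    obtain ⟨g, hg⟩ := exists_prime_orderOf_dvd_card p hpD
    have hgp : (g : Equiv.Perm P) ^ p ^ 1 = 1 := by
      have h3 := pow_orderOf_eq_one g
      rw [hg] at h3
      have h4 := congrArg Subtype.val h3
      simpa using h4
    have haut : IsAut cls (g : Equiv.Perm P) := fun c B hB => ⟨c, hD g g.2 c B hB⟩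
    obtain ⟨z, hz⟩ := exists_fixed_point h (by omega) hμ hp hps (g : Equiv.Perm P) haut hgp
    obtain ⟨w, hw, hwz⟩ := Equiv.Perm.exists_fixed_point_of_prime' hpP hgp hz
    have h5 := dil_eq_one h (by omega) hμ (hD g g.2) hz hw (Ne.symm hwz)
    have h6 : g = 1 := Subtype.ext h5
    rw [h6, orderOf_one] at hg
    exact hp.one_lt.ne hg
  exact ⟨hall, hpp, classical_of_dvd h (by omega) hμ hdvd hpp⟩

end

end Pool.Agent.Lib.MP67e184
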