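import Mathlib

/-!
# MP_67e184_co : partitions of the nontrivial characters

`S i ≤ H i` are subgroups of a finite abelian group `A` with `|H i| = s |S i|`; every nontrivial
character `χ` is trivial on `S i` and nontrivial on `H i` for exactly one pair `(S i, H i)`.
-/

set_option linter.unusedSectionVars false

namespace Pool.Agent.Lib.MP67e184

variable {A : Type*} [CommGroup A] [Finite A] {ι : Type*}

theorem ch_comm (χ ψ : A →* ℂˣ) : χ * ψ = ψ * χ := by
  ext a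
  rw [MonoidHom.mul_apply, MonoidHom.mul_apply, _root_.mul_comm]

theorem ch_pow_mul (χ : A →* ℂˣ) (m n : ℕ) : χ ^ (m * n) = (χ ^ m) ^ n := by
  refine MonoidHom.ext fun a => ?_
  rw [MonoidHom.pow_apply, MonoidHom.pow_apply, MonoidHom.pow_apply, _root_.pow_mul]

theorem ch_mul_pow (χ ψ : A →* ℂˣ) (n : ℕ) : (χ * ψ) ^ n = χ ^ n * ψ ^ n := by
  refine MonoidHom.ext fun a => ?_
  rw [MonoidHom.pow_apply, MonoidHom.mul_apply, MonoidHom.mul_apply, MonoidHom.pow_apply,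
    MonoidHom.pow_apply, _root_.mul_pow]

theorem ch_one_pow (n : ℕ) : (1 : A →* ℂˣ) ^ n = 1 := by
  refine MonoidHom.ext fun a => ?_
  rw [MonoidHom.pow_apply, MonoidHom.one_apply, _root_.one_pow]

theorem ch_mul_one (χ : A →* ℂˣ) : χ * 1 = χ := by
  refine MonoidHom.ext fun a => ?_
  rw [MonoidHom.mul_apply, MonoidHom.one_apply, _root_.mul_one]

theorem ch_one_mul (χ : A →* ℂˣ) : 1 * χ = χ := by
  refine MonoidHom.ext fun a => ?_
  rw [MonoidHom.mul_apply, MonoidHom.one_apply, _root_.one_mul]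

/-- `χ` is trivial on the subgroup `B` -/
def Tr (B : Subgroup A) (χ : A →* ℂˣ) : Prop := ∀ a ∈ B, χ a = 1

theorem Tr.mul {B : Subgroup A} {χ ψ : A →* ℂˣ} (h1 : Tr B χ) (h2 : Tr B ψ) : Tr B (χ * ψ) := by
  intro a ha
  rw [MonoidHom.mul_apply, h1 a ha, h2 a ha, one_mul]

theorem Tr.pow {B : Subgroup A} {χ : A →* ℂˣ} (h1 : Tr B χ) (n : ℕ) : Tr B (χ ^ n) := by
  intro a ha
  rw [MonoidHom.pow_apply, h1 a ha, one_pow]

theorem Tr.cancel {B : Subgroup A} {χ ψ : A →* ℂˣ} (h1 : Tr B (χ * ψ)) (h2 : Tr B ψ) :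
    Tr B χ := by
  intro a ha
  have := h1 a ha
  rw [MonoidHom.mul_apply, h2 a ha, mul_one] at this
  exact this

theorem Tr.cancel' {B : Subgroup A} {χ ψ : A →* ℂˣ} (h1 : Tr B (χ * ψ)) (h2 : Tr B χ) :
    Tr B ψ := by
  rw [ch_comm] at h1
  exact h1.cancel h2

theorem Tr.one (B : Subgroup A) : Tr B (1 : A →* ℂˣ) := fun _ _ => rfl

theorem Tr.mono {B C : Subgroup A} (h : B ≤ C) {χ : A →* ℂˣ} (h1 : Tr C χ) : Tr B χ :=
  fun a ha => h1 a (h ha)

theorem exists_char {B : Subgroup A} {a : A} (ha : a ∉ B) : ∃ χ : A →* ℂˣ, Tr B χ ∧ χ a ≠ 1 := by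
  have h1 := (CommGroup.forall_monoidHom_apply_eq_one_iff ℂ B a).not.2 ha
  push Not at h1
  exact h1

theorem le_of_Tr {B C : Subgroup A} (h : ∀ χ : A →* ℂˣ, Tr C χ → Tr B χ) : B ≤ C := by
  intro a ha
  by_contra hC
  obtain ⟨χ, h1, h2⟩ := exists_char hC
  exact h2 (h χ h1 a ha)

theorem pow_card_char (χ : A →* ℂˣ) : χ ^ Nat.card A = 1 := by
  ext a
  rw [MonoidHom.pow_apply, ← map_pow, pow_card_eq_one', map_one]
  rfl

/-- prime power part of a character that is nontrivial at `a` -/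
theorem exists_ppart (χ : A →* ℂˣ) (a : A) (h : χ a ≠ 1) : ∃ l : ℕ, l.Prime ∧ l ∣ Nat.card A ∧
    ∃ m k : ℕ, (χ ^ m) a ≠ 1 ∧ (χ ^ m) ^ (l ^ k) = 1 := by
  have h1 : χ a ^ Nat.card A = 1 := by
    rw [← map_pow, pow_card_eq_one', map_one]
  obtain ⟨l, hl, hlo⟩ := Nat.exists_prime_and_dvd
    (show orderOf (χ a) ≠ 1 from fun h' => h (orderOf_eq_one_iff.1 h'))
  obtain ⟨k, m, hm, hn⟩ := Nat.exists_eq_pow_mul_and_not_dvd (n := Nat.card A)
    Nat.card_pos.ne' l hl.ne_one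
  refine ⟨l, hl, hlo.trans (orderOf_dvd_of_pow_eq_one h1), m, k, ?_, ?_⟩
  · intro h2
    rw [MonoidHom.pow_apply] at h2
    exact hm (hlo.trans (orderOf_dvd_of_pow_eq_one h2))
  · rw [← ch_pow_mul, mul_comm, ← hn, pow_card_char]

/-- both factors of a product of characters of coprime order are powers of the product -/
theorem pow_of_coprime {χ ψ : A →* ℂˣ} {m n : ℕ} (hmn : Nat.Coprime m n) (h1 : χ ^ m = 1)
    (h2 : ψ ^ n = 1) : (∃ k, (χ * ψ) ^ k = χ) ∧ ∃ k, (χ * ψ) ^ k = ψ := by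
  have key : ∀ {χ ψ : A →* ℂˣ} {m n : ℕ}, Nat.Coprime m n → χ ^ m = 1 → ψ ^ n = 1 →
      ∃ k, (χ * ψ) ^ k = χ := by
    intro χ ψ m n hmn h1 h2
    obtain ⟨k, hk1, hk2⟩ := Nat.chineseRemainder hmn 1 0
    refine ⟨k, ?_⟩
    have e1 : χ ^ k = χ := by
      have h3 : k ≡ 1 [MOD orderOf χ] := hk1.of_dvd (orderOf_dvd_of_pow_eq_one h1)
      have := (pow_eq_pow_iff_modEq (x := χ)).2 h3
      rwa [pow_one] at this
    have e2 : ψ ^ k = 1 := by
      have h3 : k ≡ 0 [MOD orderOf ψ] := hk2.of_dvd (orderOf_dvd_of_pow_eq_one h2)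
      have := (pow_eq_pow_iff_modEq (x := ψ)).2 h3
      rwa [pow_zero] at this
    rw [ch_mul_pow, e1, e2, ch_mul_one]
  refine ⟨key hmn h1 h2, ?_⟩
  rw [ch_comm]
  exact key hmn.symm h2 h1

section pair

variable {S H : Subgroup A} {s : ℕ}

theorem card_quot (hle : S ≤ H) (hc : Nat.card H = s * Nat.card S) :
    Nat.card (H ⧸ S.subgroupOf H) = s := by
  have h1 := (S.subgroupOf H).card_eq_card_quotient_mul_card_subgroup
  have h2 : Nat.card (S.subgroupOf H) = Nat.card S :=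
    Nat.card_congr (Subgroup.subgroupOfEquivOfLe hle).toEquiv
  rw [hc, h2] at h1
  exact (Nat.eq_of_mul_eq_mul_right Nat.card_pos h1).symm

theorem pow_mem (hle : S ≤ H) (hc : Nat.card H = s * Nat.card S) {h : A} (hh : h ∈ H) :
    h ^ s ∈ S := by
  have h1 : (QuotientGroup.mk (⟨h, hh⟩ : H) : H ⧸ S.subgroupOf H) ^ s = 1 := by
    have := pow_card_eq_one' (G := H ⧸ S.subgroupOf H)
      (x := (QuotientGroup.mk (⟨h, hh⟩ : H)))
    rwa [card_quot hle hc] at this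
  rw [← QuotientGroup.mk_pow, QuotientGroup.eq_one_iff, Subgroup.mem_subgroupOf] at h1
  exact h1

theorem exists_elt (hle : S ≤ H) (hc : Nat.card H = s * Nat.card S) {l : ℕ} (hl : l.Prime)
    (hls : l ∣ s) : ∃ h ∈ H, h ∉ S ∧ h ^ l ∈ S := by
  have : Fact l.Prime := ⟨hl⟩
  obtain ⟨x, hx⟩ := exists_prime_orderOf_dvd_card' (G := H ⧸ S.subgroupOf H) l
    (by rw [card_quot hle hc]; exact hls)
  induction x using QuotientGroup.induction_on with
  | H h =>
    refine ⟨h, h.2, ?_, ?_⟩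
    · intro hS
      have : (QuotientGroup.mk h : H ⧸ S.subgroupOf H) = 1 := by
        rw [QuotientGroup.eq_one_iff, Subgroup.mem_subgroupOf]
        exact hS
      rw [this, orderOf_one] at hx
      exact hl.one_lt.ne hx
    · have h1 : (QuotientGroup.mk h : H ⧸ S.subgroupOf H) ^ l = 1 := by
        rw [← hx]
        exact pow_orderOf_eq_one _
      rw [← QuotientGroup.mk_pow, QuotientGroup.eq_one_iff, Subgroup.mem_subgroupOf] at h1
      exact h1

/-- characters of prime power order, trivial on `S` and nontrivial on `H` -/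
theorem exists_K (hle : S ≤ H) (hc : Nat.card H = s * Nat.card S) {l : ℕ} (hl : l.Prime)
    (hls : l ∣ s) : ∃ (χ : A →* ℂˣ) (k : ℕ), Tr S χ ∧ ¬ Tr H χ ∧ χ ^ (l ^ k) = 1 := by
  obtain ⟨h, hh, hS, hp⟩ := exists_elt hle hc hl hls
  obtain ⟨χ, h1, h2⟩ := exists_char hS
  obtain ⟨k, m, hm, hn⟩ := Nat.exists_eq_pow_mul_and_not_dvd (n := Nat.card A)
    Nat.card_pos.ne' l hl.ne_one
  refine ⟨χ ^ m, k, h1.pow m, ?_, ?_⟩
  · intro hT
    have h3 := hT h hh
    rw [MonoidHom.pow_apply] at h3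
    have h4 : χ h ^ l = 1 := by
      rw [← map_pow]
      exact h1 _ hp
    have h5 : orderOf (χ h) = l := by
      rcases (Nat.dvd_prime hl).1 (orderOf_dvd_of_pow_eq_one h4) with h6 | h6
      · exact absurd (orderOf_eq_one_iff.1 h6) h2
      · exact h6
    exact hm (h5 ▸ orderOf_dvd_of_pow_eq_one h3)
  · rw [← ch_pow_mul, mul_comm, ← hn, pow_card_char]

end pair

/-- the hypotheses -/
structure Part (S H : ι → Subgroup A) (s : ℕ) : Prop where
  le : ∀ i, S i ≤ H i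
  card : ∀ i, Nat.card (H i) = s * Nat.card (S i)
  cover : ∀ χ : A →* ℂˣ, χ ≠ 1 → ∃ i, Tr (S i) χ ∧ ¬ Tr (H i) χ
  uniq : ∀ i j χ, Tr (S i) χ → ¬ Tr (H i) χ → Tr (S j) χ → ¬ Tr (H j) χ → S i = S j ∧ H i = H j

variable {S H : ι → Subgroup A} {s : ℕ}

theorem ne_one_of_not_Tr {B : Subgroup A} {χ : A →* ℂˣ} (h : ¬ Tr B χ) : χ ≠ 1 := by
  rintro rfl
  exact h (Tr.one B)

/-- primes dividing `|A|` divide `s` -/
theorem Part.prime_dvd (hP : Part S H s) {p : ℕ} (hp : p.Prime) (hpA : p ∣ Nat.card A) : p ∣ s := by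
  have : Fact p.Prime := ⟨hp⟩
  obtain ⟨a, ha⟩ := exists_prime_orderOf_dvd_card' p hpA
  have ha1 : a ∉ (⊥ : Subgroup A) := by
    rw [Subgroup.mem_bot]
    rintro rfl
    rw [orderOf_one] at ha
    exact hp.one_lt.ne ha
  obtain ⟨χ, -, h2⟩ := exists_char ha1
  obtain ⟨k, m, hm, hn⟩ := Nat.exists_eq_pow_mul_and_not_dvd (n := Nat.card A)
    Nat.card_pos.ne' p hp.ne_one
  have h3 : (χ ^ m) a ≠ 1 := by
    intro h3
    rw [MonoidHom.pow_apply] at h3
    have h4 : χ a ^ p = 1 := by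
      rw [← map_pow, ← ha, pow_orderOf_eq_one, map_one]
    have h5 : orderOf (χ a) = p := by
      rcases (Nat.dvd_prime hp).1 (orderOf_dvd_of_pow_eq_one h4) with h6 | h6
      · exact absurd (orderOf_eq_one_iff.1 h6) h2
      · exact h6
    exact hm (h5 ▸ orderOf_dvd_of_pow_eq_one h3)
  have h4 : (χ ^ m) ^ (p ^ k) = 1 := by
    rw [← ch_pow_mul, mul_comm, ← hn, pow_card_char]
  have h5 : χ ^ m ≠ 1 := by
    intro h'
    rw [h'] at h3
    exact h3 rfl
  obtain ⟨i, hi1, hi2⟩ := hP.cover _ h5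
  by_contra hps
  apply hi2
  intro h hh
  have h6 : (χ ^ m) h ^ s = 1 := by
    rw [← map_pow]
    exact hi1 _ (pow_mem (hP.le i) (hP.card i) hh)
  have h7 : (χ ^ m) h ^ (p ^ k) = 1 := by
    rw [← MonoidHom.pow_apply, h4]
    rfl
  have h8 : Nat.Coprime s (p ^ k) := Nat.Coprime.pow_right _
    ((Nat.Prime.coprime_iff_not_dvd hp).2 hps).symm
  have h9 := Nat.dvd_gcd (orderOf_dvd_of_pow_eq_one h6) (orderOf_dvd_of_pow_eq_one h7)
  rw [h8] at h9
  exact orderOf_eq_one_iff.1 (Nat.dvd_one.1 h9)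

/-- `s` is not a prime power: for every prime there is another prime dividing `s` -/
def NPP (s : ℕ) : Prop := ∀ l : ℕ, ∃ q : ℕ, q.Prime ∧ q ∣ s ∧ q ≠ l

theorem Part.sub_of_alpha (hP : Part S H s) (hs : NPP s) {i j : ι}
    (hα : ∀ χ, Tr (S i) χ → Tr (S j) χ → Tr (H i) χ) {χ : A →* ℂˣ} (hχ : Tr (S j) χ) :
    Tr (H i) χ := by
  -- the claim for elements of prime power order outside `Tr (H j)`
  have claim : ∀ (y : A →* ℂˣ) (l k : ℕ), l.Prime → Tr (S j) y → ¬ Tr (H j) y →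
      y ^ (l ^ k) = 1 → Tr (S i) y := by
    intro y l k hl h1 h2 h3
    obtain ⟨q, hq, hqs, hql⟩ := hs l
    obtain ⟨x, k', hx1, hx2, hx3⟩ := exists_K (hP.le i) (hP.card i) hq hqs
    have hco : Nat.Coprime (q ^ k') (l ^ k) :=
      Nat.Coprime.pow _ _ ((Nat.coprime_primes hq hl).2 hql)
    obtain ⟨⟨n1, hn1⟩, ⟨n2, hn2⟩⟩ := pow_of_coprime hco hx3 h3
    have hne : x * y ≠ 1 := by
      intro h'
      rw [h', ch_one_pow] at hn1
      exact ne_one_of_not_Tr hx2 hn1.symm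
    obtain ⟨l', hl1, hl2⟩ := hP.cover _ hne
    have hlx : Tr (S l') x := by
      rw [← hn1]
      exact hl1.pow n1
    have hly : Tr (S l') y := by
      rw [← hn2]
      exact hl1.pow n2
    by_cases hTx : Tr (H l') x
    · have hTy : ¬ Tr (H l') y := fun h' => hl2 (hTx.mul h')
      obtain ⟨e1, e2⟩ := hP.uniq l' j y hly hTy h1 h2
      rw [e1] at hlx
      exact absurd (hα x hx1 hlx) hx2
    · obtain ⟨e1, e2⟩ := hP.uniq l' i x hlx hTx hx1 hx2
      rw [e1] at hly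
      exact hly
  have hC : Tr (S i) χ := by
    by_contra hcon
    unfold Tr at hcon
    push Not at hcon
    obtain ⟨a, ha, hχa⟩ := hcon
    obtain ⟨l, hl, hlA, m, k, h1, h2⟩ := exists_ppart χ a hχa
    have h3 : Tr (S j) (χ ^ m) := hχ.pow m
    by_cases hT : Tr (H j) (χ ^ m)
    · obtain ⟨y, k', hy1, hy2, hy3⟩ := exists_K (hP.le j) (hP.card j) hl (hP.prime_dvd hl hlA)
      have hy4 : Tr (S i) y := claim y l k' hl hy1 hy2 hy3
      have hy5 : Tr (S i) (y * χ ^ m) := by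
        refine claim (y * χ ^ m) l (k + k') hl (hy1.mul h3) ?_ ?_
        · intro h'
          exact hy2 (h'.cancel hT)
        · rw [ch_mul_pow, pow_add, mul_comm (l ^ k) (l ^ k'), ch_pow_mul, hy3, ch_one_pow,
            ch_one_mul, mul_comm (l ^ k') (l ^ k), ch_pow_mul, h2, ch_one_pow]
      exact h1 (hy5.cancel' hy4 a ha)
    · exact h1 (claim _ l k hl h3 hT h2 a ha)
  exact hα χ hC hχ

/-- the chain property -/
theorem Part.chain (hP : Part S H s) (hs : NPP s) (i j : ι) (hij : ¬ (S i = S j ∧ H i = H j)) :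
    (∀ χ, Tr (S j) χ → Tr (H i) χ) ∨ (∀ χ, Tr (S i) χ → Tr (H j) χ) := by
  by_cases h1 : ∀ χ, Tr (S i) χ → Tr (S j) χ → Tr (H i) χ
  · exact Or.inl fun χ hχ => hP.sub_of_alpha hs h1 hχ
  by_cases h2 : ∀ χ, Tr (S j) χ → Tr (S i) χ → Tr (H j) χ
  · exact Or.inr fun χ hχ => hP.sub_of_alpha hs h2 hχ
  exfalso
  push Not at h1 h2
  obtain ⟨x, hx1, hx2, hx3⟩ := h1
  obtain ⟨y, hy1, hy2, hy3⟩ := h2
  have hx4 : Tr (H j) x := by
    by_contra h'
    exact hij (hP.uniq i j x hx1 hx3 hx2 h')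
  have hy4 : Tr (H i) y := by
    by_contra h'
    exact hij (hP.uniq i j y hy2 h' hy1 hy3)
  exact hij (hP.uniq i j (x * y) (hx1.mul hy2) (fun h' => hx3 (h'.cancel hy4)) (hx2.mul hy1)
    (fun h' => hy3 (h'.cancel' hx4)))

/-- the bottom of the chain: an affine plane of order `s` -/
theorem Part.exists_plane [Finite ι] (hP : Part S H s) (hs : NPP s) (hs2 : 2 ≤ s) {μ : ℕ}
    (hμ : 1 ≤ μ) (hA : Nat.card A = s ^ 2 * μ) :
    ∃ i, Nat.card (S i) = μ ∧ Nat.card (H i) = s * μ := by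
  classical
  -- the subgroups `H i` strictly contain `S i`
  have hlt : ∀ i, Nat.card (S i) < Nat.card (H i) := by
    intro i
    rw [hP.card i]
    have : 0 < Nat.card (S i) := Nat.card_pos
    nlinarith
  have hne : (Set.univ : Set ι).Nonempty := by
    have hA1 : 1 < Nat.card A := by
      rw [hA]
      nlinarith [Nat.pow_le_pow_left hs2 2]
    have : Nontrivial A := Finite.one_lt_card_iff_nontrivial.1 hA1
    obtain ⟨a, ha⟩ := exists_ne (1 : A)
    obtain ⟨χ, -, h2⟩ := exists_char (B := (⊥ : Subgroup A)) (a := a) (by simpa using ha)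
    obtain ⟨i, -⟩ := hP.cover χ (by rintro rfl; exact h2 rfl)
    exact ⟨i, trivial⟩
  obtain ⟨i0, -, hi0⟩ := Set.exists_max_image Set.univ (fun i => Nat.card (S i))
    Set.finite_univ hne
  have hi0' : ∀ j, ¬ (S i0 = S j ∧ H i0 = H j) → ∀ χ, Tr (S i0) χ → Tr (H j) χ := by
    intro j hj
    rcases hP.chain hs i0 j hj with h1 | h1
    · exfalso
      have h2 : H i0 ≤ S j := le_of_Tr h1
      have h3 := Subgroup.card_le_of_le h2
      have h4 : Nat.card (S j) ≤ Nat.card (S i0) := hi0 j trivial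
      have h5 := hlt i0
      omega
    · exact h1
  have hH0 : ∀ χ, Tr (H i0) χ → χ = 1 := by
    intro χ hχ
    by_contra hne
    obtain ⟨j, hj1, hj2⟩ := hP.cover χ hne
    have h1 : ¬ (S i0 = S j ∧ H i0 = H j) := by
      rintro ⟨-, h⟩
      rw [← h] at hj2
      exact hj2 hχ
    exact hj2 (hi0' j h1 χ (hχ.mono (hP.le i0)))
  have hHtop : H i0 = ⊤ := by
    rw [eq_top_iff]
    refine le_of_Tr fun χ hχ => ?_
    rw [hH0 χ hχ]
    exact Tr.one _
  have hcS0 : Nat.card (S i0) = s * μ := by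
    have h1 := hP.card i0
    rw [hHtop, Subgroup.card_top, hA] at h1
    have h2 : s * Nat.card (S i0) = s * (s * μ) := by
      rw [← h1]
      ring
    exact Nat.eq_of_mul_eq_mul_left (by omega) h2
  -- the second step
  have hne1 : {i | ¬ (S i0 = S i ∧ H i0 = H i)}.Nonempty := by
    have hS1 : 1 < Nat.card (S i0) := by
      rw [hcS0]
      nlinarith
    have : Nontrivial (S i0) := Finite.one_lt_card_iff_nontrivial.1 hS1
    obtain ⟨a, ha⟩ := exists_ne (1 : S i0)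
    obtain ⟨χ, -, h2⟩ := exists_char (B := (⊥ : Subgroup A)) (a := (a : A))
      (by simpa using ha)
    obtain ⟨j, hj1, hj2⟩ := hP.cover χ (by rintro rfl; exact h2 rfl)
    refine ⟨j, ?_⟩
    rintro ⟨h3, -⟩
    rw [← h3] at hj1
    exact h2 (hj1 a a.2)
  obtain ⟨i1, hi1m, hi1⟩ := Set.exists_max_image {i | ¬ (S i0 = S i ∧ H i0 = H i)}
    (fun i => Nat.card (S i)) (Set.toFinite _) hne1
  have hi1' : ∀ j, ¬ (S i0 = S j ∧ H i0 = H j) → ¬ (S i1 = S j ∧ H i1 = H j) →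
      ∀ χ, Tr (S i1) χ → Tr (H j) χ := by
    intro j hj0 hj
    rcases hP.chain hs i1 j hj with h1 | h1
    · exfalso
      have h2 : H i1 ≤ S j := le_of_Tr h1
      have h3 := Subgroup.card_le_of_le h2
      have h4 : Nat.card (S j) ≤ Nat.card (S i1) := hi1 j hj0
      have h5 := hlt i1
      omega
    · exact h1
  have hHS : H i1 = S i0 := by
    apply le_antisymm
    · exact le_of_Tr (hi0' i1 hi1m)
    · refine le_of_Tr fun χ hχ => ?_
      by_contra hcon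
      obtain ⟨j, hj1, hj2⟩ := hP.cover χ (ne_one_of_not_Tr hcon)
      have h0 : ¬ (S i0 = S j ∧ H i0 = H j) := by
        rintro ⟨h, -⟩
        rw [← h] at hj1
        exact hcon hj1
      have h1 : ¬ (S i1 = S j ∧ H i1 = H j) := by
        rintro ⟨-, h⟩
        rw [← h] at hj2
        exact hj2 hχ
      exact hj2 (hi1' j h0 h1 χ (hχ.mono (hP.le i1)))
  refine ⟨i1, ?_, ?_⟩
  · have h1 := hP.card i1
    rw [hHS, hcS0] at h1
    exact (Nat.eq_of_mul_eq_mul_left (by omega) h1).symm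
  · rw [hHS, hcS0]

end Pool.Agent.Lib.MP67e184
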