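import Pool.Agent.Lib.MP_67e184_co.Dil

/-!
# MP_67e184_co : groups of automorphisms that are transitive on the parallel classes
-/

namespace Pool.Agent.Lib.MP67e184

open Finset

section
variable {P : Type*} [Fintype P] [DecidableEq P] {s r μ : ℕ} {cls : Fin r → Finset (Finset P)}

/-- `g` maps the class `c` to the class `d` -/
def Maps (cls : Fin r → Finset (Finset P)) (g : Equiv.Perm P) (c d : Fin r) : Prop :=
  ∀ B ∈ cls c, B.image g ∈ cls d

theorem cls_nonempty (h : IsCompleteNet s r μ cls) (hs : 2 ≤ s) (hμ : 1 ≤ μ) (c : Fin r) :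
    ∃ B, B ∈ cls c := by
  have h1 := card_cls h hs hμ c
  have h2 : 0 < (cls c).card := by omega
  obtain ⟨B, hB⟩ := card_pos.1 h2
  exact ⟨B, hB⟩

theorem maps_unique (h : IsCompleteNet s r μ cls) (hs : 2 ≤ s) (hμ : 1 ≤ μ) {g : Equiv.Perm P}
    {c d e : Fin r} (h1 : Maps cls g c d) (h2 : Maps cls g c e) : d = e := by
  obtain ⟨B, hB⟩ := cls_nonempty h hs hμ c
  exact image_class h hs hμ g hB hB (h1 B hB) (h2 B hB)

theorem maps_exists (h : IsCompleteNet s r μ cls) (hs : 2 ≤ s) (hμ : 1 ≤ μ) {g : Equiv.Perm P}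
    (hg : IsAut cls g) (c : Fin r) : ∃ d, Maps cls g c d := by
  obtain ⟨B, hB⟩ := cls_nonempty h hs hμ c
  obtain ⟨d, hd⟩ := hg c B hB
  refine ⟨d, fun C hC => ?_⟩
  obtain ⟨e, he⟩ := hg c C hC
  have h1 := image_class h hs hμ g hB hC hd he
  subst h1
  exact he

theorem maps_one (c : Fin r) : Maps cls (1 : Equiv.Perm P) c c := by
  intro B hB
  have h1 : B.image (1 : Equiv.Perm P) = B := by
    ext x
    simp
  rwa [h1]

theorem maps_mul {g k : Equiv.Perm P} {c d e : Fin r} (h1 : Maps cls k c d)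
    (h2 : Maps cls g d e) : Maps cls (g * k) c e := by
  intro B hB
  have h3 : B.image (g * k : Equiv.Perm P) = (B.image k).image g := by
    rw [image_image]
    rfl
  rw [h3]
  exact h2 _ (h1 B hB)

theorem maps_inv (h : IsCompleteNet s r μ cls) (hs : 2 ≤ s) (hμ : 1 ≤ μ) {g : Equiv.Perm P}
    (hg : IsAut cls g⁻¹) {c d : Fin r} (h1 : Maps cls g c d) : Maps cls g⁻¹ d c := by
  obtain ⟨e, he⟩ := maps_exists h hs hμ hg d
  have h2 := maps_mul h1 he
  rw [inv_mul_cancel] at h2
  have h3 := maps_unique h hs hμ h2 (maps_one c)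
  subst h3
  exact he

/-- the action of a group of automorphisms on the parallel classes -/
noncomputable def clsAction (h : IsCompleteNet s r μ cls) (hs : 2 ≤ s) (hμ : 1 ≤ μ)
    (A : Subgroup (Equiv.Perm P)) (hA : ∀ g ∈ A, IsAut cls g) : MulAction A (Fin r) where
  smul a c := (maps_exists h hs hμ (hA a a.2) c).choose
  one_smul c := maps_unique h hs hμ (maps_exists h hs hμ (hA _ (1 : A).2) c).choose_spec
    (maps_one c)
  mul_smul a b c := maps_unique h hs hμ (maps_exists h hs hμ (hA _ (a * b : A).2) c).choose_spec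
    (maps_mul (maps_exists h hs hμ (hA b b.2) c).choose_spec
      (maps_exists h hs hμ (hA a a.2) _).choose_spec)

/-- If a group of automorphisms of exponent `p` fixes no parallel class, then it fixes exactly
one point. -/
theorem case_move (h : IsCompleteNet s r μ cls) (hs : 2 ≤ s) (hμ : 1 ≤ μ)
    (A : Subgroup (Equiv.Perm P)) (hA : ∀ g ∈ A, IsAut cls g) {p : ℕ} (hp : p.Prime)
    (hpA : ∀ a ∈ A, a ^ p = 1) (hmove : ∀ c, ∃ a ∈ A, ¬ Maps cls a c c) :
    ∃ x : P, (∀ a ∈ A, a x = x) ∧ ∀ y, (∀ a ∈ A, a y = y) → y = x := by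
  classical
  have : Fact p.Prime := ⟨hp⟩
  have hPG : IsPGroup p A := by
    intro a
    refine ⟨1, ?_⟩
    rw [pow_one]
    exact Subtype.ext (hpA a a.2)
  let _ := clsAction h hs hμ A hA
  have hsm : ∀ (a : A) (c : Fin r), Maps cls a c (a • c) := fun a c =>
    (maps_exists h hs hμ (hA a a.2) c).choose_spec
  have hr : p ∣ r := by
    have h1 := hPG.card_modEq_card_fixedPoints (Fin r)
    have h2 : IsEmpty (MulAction.fixedPoints A (Fin r)) := by
      constructor
      rintro ⟨c, hc⟩
      obtain ⟨a, ha, hm⟩ := hmove c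
      apply hm
      have h3 := hsm ⟨a, ha⟩ c
      rw [hc ⟨a, ha⟩] at h3
      exact h3
    rw [Nat.card_of_isEmpty (α := MulAction.fixedPoints A (Fin r)), Nat.card_eq_fintype_card,
      Fintype.card_fin] at h1
    exact (Nat.modEq_zero_iff_dvd).1 h1
  have hfixP : (MulAction.fixedPoints A P).Nonempty := by
    apply hPG.nonempty_fixed_point_of_prime_not_dvd_card P
    rw [Nat.card_eq_fintype_card, h.card_points, ← h.complete]
    intro hdvd
    have h1 := (Nat.dvd_add_right (Dvd.dvd.mul_right hr (s - 1))).1 hdvd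
    exact hp.one_lt.ne' (Nat.dvd_one.1 h1)
  obtain ⟨x, hx⟩ := hfixP
  refine ⟨x, fun a ha => hx ⟨a, ha⟩, fun y hy => ?_⟩
  by_contra hyx
  let S : SubMulAction A (Fin r) :=
    { carrier := {c | y ∈ blk h c x}
      smul_mem' := by
        intro a c hc
        have h1 := hsm a c _ (blk_mem h c x)
        have h2 : x ∈ (blk h c x).image (a : Equiv.Perm P) :=
          mem_image.2 ⟨x, mem_blk h c x, hx a⟩
        have h3 : y ∈ (blk h c x).image (a : Equiv.Perm P) := mem_image.2 ⟨y, hc, hy a a.2⟩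
        change y ∈ blk h (a • c) x
        rw [← eq_blk h h1 h2]
        exact h3 }
  have h4 := hPG.card_modEq_card_fixedPoints S
  have h5 : IsEmpty (MulAction.fixedPoints A S) := by
    constructor
    rintro ⟨⟨c, hcS⟩, hc⟩
    obtain ⟨a, ha, hm⟩ := hmove c
    apply hm
    have h3 := hsm ⟨a, ha⟩ c
    have h6 : (⟨a, ha⟩ : A) • c = c := congrArg Subtype.val (hc ⟨a, ha⟩)
    rw [h6] at h3
    exact h3
  have h6 : Nat.card S = nn h x y := by
    rw [Nat.card_eq_fintype_card]
    unfold nn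
    refine Fintype.card_of_subtype _ fun c => ?_
    rw [mem_filter]
    exact ⟨fun h1 => h1.2, fun h1 => ⟨mem_univ _, h1⟩⟩
  rw [Nat.card_of_isEmpty (α := MulAction.fixedPoints A S), h6] at h4
  have h7 : p ∣ nn h x y := (Nat.modEq_zero_iff_dvd).1 h4
  have h8 := nn_eq h hs (Ne.symm hyx)
  have h9 := rel_r h hs
  have hs1 : ((s : ℤ) - 1) ≠ 0 := by
    have : (2 : ℤ) ≤ s := by exact_mod_cast hs
    linarith
  have h10 : (r : ℤ) = s * nn h x y + 1 := by
    apply mul_left_cancel₀ hs1
    linear_combination h9 - (s : ℤ) * h8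
  have h11 : r = s * nn h x y + 1 := by exact_mod_cast h10
  rw [h11] at hr
  have h12 := (Nat.dvd_add_right (Dvd.dvd.mul_left h7 s)).1 hr
  exact hp.one_lt.ne' (Nat.dvd_one.1 h12)

theorem fb_conj (g a : Equiv.Perm P) {c d : Fin r} (hm : Maps cls g c d)
    (hm' : Maps cls g⁻¹ d c) : fb cls d (g * a * g⁻¹) = fb cls c a := by
  have himg : ∀ (u v : Equiv.Perm P) (B : Finset P), (B.image u).image v = B.image (v * u) := by
    intro u v B
    rw [image_image]
    rfl
  unfold fb
  symm
  apply card_nbij' (fun B => B.image g) (fun B => B.image (g⁻¹ : Equiv.Perm P))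
  · intro B hB
    simp only [coe_filter, Set.mem_ofPred_eq] at hB ⊢
    refine ⟨hm B hB.1, ?_⟩
    rw [himg, show g * a * g⁻¹ * g = g * a by group, ← himg, hB.2]
  · intro B hB
    simp only [coe_filter, Set.mem_ofPred_eq] at hB ⊢
    refine ⟨hm' B hB.1, ?_⟩
    conv_rhs => rw [← hB.2]
    rw [himg, himg]
    congr 2
    group
  · intro B hB
    change (B.image g).image (g⁻¹ : Equiv.Perm P) = B
    rw [himg, inv_mul_cancel]
    ext x
    simp
  · intro B hB
    change (B.image (g⁻¹ : Equiv.Perm P)).image g = B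
    rw [himg, mul_inv_cancel]
    ext x
    simp

/-- A nontrivial fixed point free group of dilatations that is normalised by a group of
automorphisms transitive on the classes is transitive on the points. -/
theorem case_dil (h : IsCompleteNet s r μ cls) (hs : 2 ≤ s) (hμ : 1 ≤ μ)
    (G : Subgroup (Equiv.Perm P)) (haut : ∀ g ∈ G, IsAut cls g)
    (hcl : ∀ c d, ∃ g ∈ G, Maps cls g c d) (A : Subgroup (Equiv.Perm P))
    (hAn : ∀ g ∈ G, ∀ a ∈ A, g * a * g⁻¹ ∈ A) (hA1 : ∃ a ∈ A, a ≠ 1)
    (hdil : ∀ a ∈ A, IsDilatation cls a) (hfree : ∀ a ∈ A, a ≠ 1 → ∀ x, a x ≠ x) :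
    ∀ x y : P, ∃ a ∈ A, a x = y := by
  classical
  have hsr : s + 1 ≤ r := by
    have h1 := h.complete
    have h2 : s ^ 2 ≤ s ^ 2 * μ := Nat.le_mul_of_pos_right _ hμ
    obtain ⟨t, rfl⟩ : ∃ t, s = t + 1 := ⟨s - 1, by omega⟩
    simp only [Nat.add_sub_cancel] at h1
    have h3 : 1 ≤ t := by omega
    by_contra hlt
    push Not at hlt
    have h4 : r ≤ t + 1 := by omega
    have h5 : r * t ≤ (t + 1) * t := Nat.mul_le_mul_right t h4
    nlinarith
  let f : Fin r → A → ℕ := fun c a => if (a : Equiv.Perm P) = 1 then 0 else fb cls c a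
  have hconst : ∀ c d, ∑ a, f c a = ∑ a, f d a := by
    intro c d
    obtain ⟨g, hg, hm⟩ := hcl c d
    have hm' := maps_inv h hs hμ (haut g⁻¹ (inv_mem hg)) hm
    let e : A ≃ A :=
      { toFun := fun a => ⟨g * a * g⁻¹, hAn g hg a a.2⟩
        invFun := fun a => ⟨g⁻¹ * a * g⁻¹⁻¹, hAn g⁻¹ (inv_mem hg) a a.2⟩
        left_inv := by
          intro a
          apply Subtype.ext
          change g⁻¹ * (g * a * g⁻¹) * g⁻¹⁻¹ = a
          group
        right_inv := by
          intro a
          apply Subtype.ext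
          change g * (g⁻¹ * a * g⁻¹⁻¹) * g⁻¹ = a
          group }
    refine Fintype.sum_equiv e _ _ fun a => ?_
    change (if (a : Equiv.Perm P) = 1 then 0 else fb cls c a)
      = if g * (a : Equiv.Perm P) * g⁻¹ = 1 then 0 else fb cls d (g * (a : Equiv.Perm P) * g⁻¹)
    by_cases ha : (a : Equiv.Perm P) = 1
    · rw [if_pos ha, if_pos (by rw [ha]; group)]
    · rw [if_neg ha, if_neg, fb_conj g a hm hm']
      intro h1
      apply ha
      rw [conj_eq_one_iff] at h1
      exact h1
  have hrow : ∀ a : A, ∑ c, f c a = if (a : Equiv.Perm P) = 1 then 0 else r - 1 := by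
    intro a
    by_cases ha : (a : Equiv.Perm P) = 1
    · rw [if_pos ha]
      exact sum_eq_zero fun c _ => if_pos ha
    · rw [if_neg ha]
      have h1 : ∀ c ∈ (univ : Finset (Fin r)), f c a = fb cls c a := fun c _ => if_neg ha
      rw [sum_congr rfl h1]
      have h2 := sum_fb h hs hμ a (hdil a a.2)
      have h3 : fp (a : Equiv.Perm P) = 0 := by
        unfold fp
        rw [card_eq_zero, filter_eq_empty_iff]
        intro x _
        exact hfree a a.2 ha x
      omega
  obtain ⟨a₁, ha₁, ha₁'⟩ := hA1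
  have hn : 2 ≤ Fintype.card A := by
    have h1 : 1 < Fintype.card A := Fintype.one_lt_card_iff.2
      ⟨⟨a₁, ha₁⟩, 1, fun h2 => ha₁' (congrArg Subtype.val h2)⟩
    exact h1
  have hsum : ∑ a : A, (if (a : Equiv.Perm P) = 1 then 0 else r - 1)
      = (Fintype.card A - 1) * (r - 1) := by
    rw [← Finset.add_sum_erase _ _ (mem_univ (1 : A))]
    have h1 : ∀ a ∈ (univ : Finset A).erase 1, (if (a : Equiv.Perm P) = 1 then 0 else r - 1)
        = r - 1 := by
      intro a ha
      rw [if_neg]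
      intro h2
      exact ne_of_mem_erase ha (Subtype.ext h2)
    rw [sum_congr rfl h1, sum_const, card_erase_of_mem (mem_univ _), card_univ, smul_eq_mul]
    simp
  have hdvd : r ∣ Fintype.card A - 1 := by
    have hr0 : 0 < r := by omega
    have h1 : ∑ c, ∑ a, f c a = r * ∑ a, f ⟨0, hr0⟩ a := by
      rw [sum_congr rfl fun c _ => hconst c ⟨0, hr0⟩, sum_const, card_univ, Fintype.card_fin,
        smul_eq_mul]
    rw [sum_comm, sum_congr rfl fun a _ => hrow a, hsum] at h1
    have h2 : r ∣ (Fintype.card A - 1) * (r - 1) := ⟨_, h1⟩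
    have h3 : Nat.Coprime r (r - 1) := by
      have h4 : r = (r - 1) + 1 := by omega
      rw [h4]
      simp
    exact h3.dvd_of_dvd_mul_right h2
  have hburn : Fintype.card P
      = Fintype.card (Quotient (MulAction.orbitRel A P)) * Fintype.card A := by
    rw [← MulAction.sum_card_fixedBy_eq_card_orbits_mul_card_group A P,
      ← Finset.add_sum_erase _ _ (mem_univ (1 : A))]
    have h1 : Fintype.card (MulAction.fixedBy P (1 : A)) = Fintype.card P := by
      rw [Fintype.card_congr (Equiv.subtypeUnivEquiv (p := fun x => x ∈ MulAction.fixedBy P (1 : A))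
        fun x => one_smul A x)]
    have h2 : ∀ a ∈ (univ : Finset A).erase 1, Fintype.card (MulAction.fixedBy P a) = 0 := by
      intro a ha
      rw [Fintype.card_eq_zero_iff]
      constructor
      rintro ⟨x, hx⟩
      exact hfree a a.2 (fun h2 => ne_of_mem_erase ha (Subtype.ext h2)) x hx
    rw [h1, sum_congr rfl h2]
    simp
  have hcard : Fintype.card A = Fintype.card P := by
    obtain ⟨m, hm⟩ := hdvd
    generalize Fintype.card A = n at *
    generalize Fintype.card (Quotient (MulAction.orbitRel A P)) = w at *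
    rw [h.card_points, ← h.complete] at hburn ⊢
    have hn' : n = r * m + 1 := by omega
    have hm1 : 1 ≤ m := by
      by_contra h0
      have : m = 0 := by omega
      subst this
      omega
    have hw1 : w ≠ 0 := by
      rintro rfl
      omega
    have hwr : r ∣ w - 1 := by
      have h1 : r * (s - 1) = (w - 1) + r * (w * m) := by
        obtain ⟨w', rfl⟩ : ∃ w', w = w' + 1 := ⟨w - 1, by omega⟩
        simp only [Nat.add_sub_cancel]
        have h2 : r * (s - 1) + 1 = (w' + 1) * (r * m + 1) := by rw [hburn, hn']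
        nlinarith
      have h2 : r ∣ (w - 1) + r * (w * m) := ⟨s - 1, h1.symm⟩
      exact (Nat.dvd_add_left (Dvd.intro _ rfl)).1 h2
    have hw : w = 1 := by
      by_contra hw2
      have h1 : r ≤ w - 1 := Nat.le_of_dvd (by omega) hwr
      have h2 : r + 1 ≤ w := by omega
      have h3 : r + 1 ≤ n := by
        rw [hn']
        nlinarith
      have h4 : (r + 1) * (r + 1) ≤ w * n := Nat.mul_le_mul h2 h3
      have h5 : r * (s - 1) ≤ r * r := Nat.mul_le_mul_left r (by omega)
      nlinarith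
    rw [hburn, hw, one_mul]
  intro x y
  have hinj : Function.Injective fun a : A => (a : Equiv.Perm P) x := by
    intro a b hab
    by_contra hne
    apply hfree ((b : Equiv.Perm P)⁻¹ * a) (A.mul_mem (A.inv_mem b.2) a.2) _ x
    · change (b : Equiv.Perm P)⁻¹ ((a : Equiv.Perm P) x) = x
      have hab' : (a : Equiv.Perm P) x = (b : Equiv.Perm P) x := hab
      rw [hab']
      simp
    · intro h1
      apply hne
      apply Subtype.ext
      exact (inv_mul_eq_one.1 h1).symm
  have hbij := (Fintype.bijective_iff_injective_and_card _).2 ⟨hinj, hcard⟩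
  obtain ⟨a, ha⟩ := hbij.2 y
  exact ⟨a, a.2, ha⟩

/-- The dichotomy for a normal abelian subgroup of prime exponent. -/
theorem class_core (h : IsCompleteNet s r μ cls) (hs : 2 ≤ s) (hμ : 1 ≤ μ)
    (G : Subgroup (Equiv.Perm P)) (haut : ∀ g ∈ G, IsAut cls g)
    (hcl : ∀ c d, ∃ g ∈ G, Maps cls g c d) (A : Subgroup (Equiv.Perm P)) (hAG : A ≤ G)
    (hAn : ∀ g ∈ G, ∀ a ∈ A, g * a * g⁻¹ ∈ A) (hA1 : ∃ a ∈ A, a ≠ 1)
    (hab : ∀ a ∈ A, ∀ b ∈ A, a * b = b * a) {p : ℕ} (hp : p.Prime) (hpA : ∀ a ∈ A, a ^ p = 1) :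
    (∃ x : P, ∀ g ∈ G, g x = x) ∨ ∀ x y : P, ∃ a ∈ A, a x = y := by
  by_cases hdil : ∀ a ∈ A, IsDilatation cls a
  · by_cases hfree : ∀ a ∈ A, a ≠ 1 → ∀ x, a x ≠ x
    · exact Or.inr (case_dil h hs hμ G haut hcl A hAn hA1 hdil hfree)
    · left
      push Not at hfree
      obtain ⟨a, ha, ha1, x, hx⟩ := hfree
      have hall : ∀ b ∈ A, b x = x := by
        intro b hb
        by_contra hne
        apply ha1
        refine dil_eq_one h hs hμ (hdil a ha) (x := b x) (y := x) ?_ hx hne
        change (a * b) x = b x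
        rw [hab a ha b hb]
        change b (a x) = b x
        rw [hx]
      refine ⟨x, fun g hg => ?_⟩
      by_contra hne
      apply ha1
      refine dil_eq_one h hs hμ (hdil a ha) (x := g x) (y := x) ?_ hx hne
      have h1 := hall _ (hAn g⁻¹ (inv_mem hg) a ha)
      have h2 : g⁻¹ (a (g x)) = x := by simpa using h1
      calc a (g x) = g (g⁻¹ (a (g x))) := by simp
        _ = g x := by rw [h2]
  · left
    push Not at hdil
    obtain ⟨a, ha, hnd⟩ := hdil
    unfold IsDilatation at hnd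
    push Not at hnd
    obtain ⟨c₀, B₀, hB₀, hB₀'⟩ := hnd
    have hmove : ∀ c, ∃ a ∈ A, ¬ Maps cls a c c := by
      intro c
      obtain ⟨g, hg, hm⟩ := hcl c₀ c
      refine ⟨g * a * g⁻¹, hAn g hg a ha, fun h1 => ?_⟩
      have hm' := maps_inv h hs hμ (haut g⁻¹ (inv_mem hg)) hm
      have h2 := maps_mul (maps_mul hm h1) hm'
      have h3 : g⁻¹ * (g * a * g⁻¹ * g) = a := by group
      rw [h3] at h2
      exact hB₀' (h2 B₀ hB₀)
    obtain ⟨x, hx, huniq⟩ := case_move h hs hμ A (fun g hg => haut g (hAG hg)) hp hpA hmove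
    refine ⟨x, fun g hg => huniq _ fun b hb => ?_⟩
    have h1 := hx _ (hAn g⁻¹ (inv_mem hg) b hb)
    have h2 : g⁻¹ (b (g x)) = x := by simpa using h1
    calc b (g x) = g (g⁻¹ (b (g x))) := by simp
      _ = g x := by rw [h2]

end

end Pool.Agent.Lib.MP67e184
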