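import Pool.Agent.Lib.MP_67e184_co.ClassTrans

/-!
# MP_67e184_co : class-transitive groups with a soluble normal subgroup
-/

namespace Pool.Agent.Lib.MP67e184

open Finset

/-- a nontrivial soluble normal subgroup contains a nontrivial abelian subgroup of prime exponent
that is normal in the whole group -/
theorem exists_elem_abelian {G : Type*} [Group G] [Finite G] (N : Subgroup G) [hN : N.Normal]
    (hsol : Group.IsSolvable N) (hne : N ≠ ⊥) : ∃ (p : ℕ) (A : Subgroup G), p.Prime ∧ A ≤ N ∧ A ≠ ⊥ ∧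
      A.Normal ∧ (∀ a ∈ A, ∀ b ∈ A, a * b = b * a) ∧ ∀ a ∈ A, a ^ p = 1 := by
  classical
  obtain ⟨n, hn⟩ := (Group.isSolvable_def N).1 hsol
  have hex : ∃ n, derivedSeries N n = ⊥ := ⟨n, hn⟩
  have hmin := Nat.find_spec hex
  have h0 : Nat.find hex ≠ 0 := by
    intro h0
    rw [h0, derivedSeries_zero] at hmin
    apply hne
    rw [eq_bot_iff]
    intro x hx
    have h1 : (⟨x, hx⟩ : N) ∈ (⊤ : Subgroup N) := Subgroup.mem_top _
    rw [hmin, Subgroup.mem_bot] at h1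
    rw [Subgroup.mem_bot]
    exact congrArg Subtype.val h1
  obtain ⟨m, hm⟩ := Nat.exists_eq_succ_of_ne_zero h0
  have hD : derivedSeries N m ≠ ⊥ := Nat.find_min hex (by omega)
  rw [hm, Nat.succ_eq_add_one, derivedSeries_succ] at hmin
  have hcomm : ∀ a ∈ derivedSeries N m, ∀ b ∈ derivedSeries N m, a * b = b * a := by
    intro a ha b hb
    have h1 := Subgroup.commutator_mem_commutator ha hb
    rw [hmin, Subgroup.mem_bot] at h1
    exact (commutatorElement_eq_one_iff_mul_comm).1 h1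
  have hnorm : ((derivedSeries N m).map N.subtype).Normal :=
    ConjAct.normal_of_characteristic_of_normal
  obtain ⟨p, hp, hpd⟩ := Nat.exists_prime_and_dvd (n := Nat.card (derivedSeries N m))
    (fun h1 => hD ((Subgroup.eq_bot_iff_card _).2 h1))
  have : Fact p.Prime := ⟨hp⟩
  obtain ⟨a₀, ha₀⟩ := exists_prime_orderOf_dvd_card' (G := derivedSeries N m) p hpd
  let A : Subgroup G :=
    { carrier := {a | a ∈ (derivedSeries N m).map N.subtype ∧ a ^ p = 1}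
      mul_mem' := by
        rintro _ _ ⟨⟨a, ha, rfl⟩, ha'⟩ ⟨⟨b, hb, rfl⟩, hb'⟩
        refine ⟨Subgroup.mul_mem _ ⟨a, ha, rfl⟩ ⟨b, hb, rfl⟩, ?_⟩
        have h1 : Commute (N.subtype a) (N.subtype b) := by
          have h2 := hcomm a ha b hb
          change N.subtype a * N.subtype b = N.subtype b * N.subtype a
          rw [← map_mul, ← map_mul, h2]
        rw [h1.mul_pow, ha', hb', one_mul]
      one_mem' := ⟨Subgroup.one_mem _, one_pow _⟩
      inv_mem' := by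
        rintro _ ⟨ha, ha'⟩
        exact ⟨Subgroup.inv_mem _ ha, by rw [inv_pow, ha', inv_one]⟩ }
  refine ⟨p, A, hp, ?_, ?_, ?_, ?_, fun a ha => ha.2⟩
  · rintro _ ⟨⟨a, ha, rfl⟩, _⟩
    exact a.2
  · intro hbot
    have h1 : ((a₀ : N) : G) ∈ A := by
      refine ⟨⟨a₀, a₀.2, rfl⟩, ?_⟩
      have h2 : a₀ ^ p = 1 := by rw [← ha₀, pow_orderOf_eq_one]
      have h3 := congrArg (fun z : derivedSeries N m => ((z : N) : G)) h2
      simpa using h3
    rw [hbot, Subgroup.mem_bot] at h1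
    have h2 : a₀ = 1 := Subtype.ext (Subtype.ext h1)
    rw [h2, orderOf_one] at ha₀
    exact hp.one_lt.ne ha₀
  · constructor
    rintro a ⟨ha, ha'⟩ g
    refine ⟨hnorm.conj_mem a ha g, ?_⟩
    rw [conj_pow, ha', mul_one, mul_inv_cancel]
  · rintro _ ⟨⟨a, ha, rfl⟩, _⟩ _ ⟨⟨b, hb, rfl⟩, _⟩
    rw [← map_mul, ← map_mul, hcomm a ha b hb]

section
variable {P : Type*} [Fintype P] [DecidableEq P] {s r μ : ℕ} {cls : Fin r → Finset (Finset P)}

theorem class_transitive_main (h : IsCompleteNet s r μ cls) (hs : 2 ≤ s) (hμ : 1 ≤ μ)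
    (G : Subgroup (Equiv.Perm P)) (haut : ∀ g ∈ G, IsAut cls g)
    (hcl : ∀ c d, ∃ g ∈ G, ∀ B ∈ cls c, B.image g ∈ cls d) (N : Subgroup G) (hN : N.Normal)
    (hsol : Group.IsSolvable N) (hne : N ≠ ⊥) :
    (∃ x : P, ∀ g ∈ G, g x = x) ∨
      ((∀ x y : P, ∃ a ∈ N, (a : Equiv.Perm P) x = y) ∧ IsPrimePow s ∧
        ∃ d, 2 ≤ d ∧ μ = s ^ (d - 2)) := by
  classical
  obtain ⟨p, A, hp, hAN, hA1, hAn, hab, hpA⟩ := exists_elem_abelian N hsol hne
  let A' : Subgroup (Equiv.Perm P) := A.map G.subtype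
  have hA'G : A' ≤ G := by
    rintro _ ⟨a, ha, rfl⟩
    exact a.2
  have hA'n : ∀ g ∈ G, ∀ a ∈ A', g * a * g⁻¹ ∈ A' := by
    rintro g hg _ ⟨a, ha, rfl⟩
    exact ⟨⟨g, hg⟩ * a * ⟨g, hg⟩⁻¹, hAn.conj_mem a ha ⟨g, hg⟩, rfl⟩
  have hA'1 : ∃ a ∈ A', a ≠ 1 := by
    by_contra hcon
    push Not at hcon
    apply hA1
    rw [eq_bot_iff]
    intro a ha
    rw [Subgroup.mem_bot]
    exact Subtype.ext (hcon _ ⟨a, ha, rfl⟩)
  have hA'ab : ∀ a ∈ A', ∀ b ∈ A', a * b = b * a := by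
    rintro _ ⟨a, ha, rfl⟩ _ ⟨b, hb, rfl⟩
    rw [← map_mul, ← map_mul, hab a ha b hb]
  have hA'p : ∀ a ∈ A', a ^ p = 1 := by
    rintro _ ⟨a, ha, rfl⟩
    rw [← map_pow, hpA a ha, map_one]
  rcases class_core h hs hμ G haut hcl A' hA'G hA'n hA'1 hA'ab hp hA'p with h1 | h1
  · exact Or.inl h1
  · right
    refine ⟨fun x y => ?_, classical_of_abelian hs hμ cls h A' (fun g hg => haut g (hA'G hg))
      hA'ab h1⟩
    obtain ⟨_, ⟨a, ha, rfl⟩, ha'⟩ := h1 x y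
    exact ⟨a, hAN ha, ha'⟩

end

end Pool.Agent.Lib.MP67e184
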