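import Pool.Agent.Lib.MP_67e184_co.TransGroup

/-!
# MP_67e184_co : dilatations of complete nets
-/

namespace Pool.Agent.Lib.MP67e184

open Finset

section
variable {P : Type*} [Fintype P] [DecidableEq P] {s r μ : ℕ} {cls : Fin r → Finset (Finset P)}

/-- A dilatation: a permutation of the points that maps every block onto a block of the same
parallel class. -/
def IsDilatation {r : ℕ} {P : Type*} [DecidableEq P] (cls : Fin r → Finset (Finset P))
    (g : Equiv.Perm P) : Prop :=
  ∀ c, ∀ B ∈ cls c, B.image g ∈ cls c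

/-- number of fixed points -/
def fp (g : Equiv.Perm P) : ℕ := (univ.filter fun x => g x = x).card

/-- number of fixed blocks of the class `c` -/
def fb (cls : Fin r → Finset (Finset P)) (c : Fin r) (g : Equiv.Perm P) : ℕ :=
  ((cls c).filter fun B => B.image g = B).card

theorem rel_r (h : IsCompleteNet s r μ cls) (hs : 2 ≤ s) :
    ((s : ℤ) - 1) * r = s ^ 2 * μ - 1 := by
  have := h.complete
  have h1 : ((r * (s - 1) + 1 : ℕ) : ℤ) = ((s ^ 2 * μ : ℕ) : ℤ) := by rw [this]
  push_cast [Nat.cast_sub (by omega : 1 ≤ s)] at h1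
  linarith

theorem sum_fb (h : IsCompleteNet s r μ cls) (hs : 2 ≤ s) (hμ : 1 ≤ μ) (g : Equiv.Perm P)
    (hg : IsDilatation cls g) : ∑ c, fb cls c g + 1 = fp g + r := by
  have key : ∀ c : Fin r, (univ.filter fun x : P => g x ∈ blk h c x).card = (s * μ) * fb cls c g := by
    intro c
    rw [card_filter_blocks h c]
    have h1 : ∀ B ∈ cls c, (B.filter fun x => g x ∈ blk h c x).card
        = if B.image g = B then s * μ else 0 := by
      intro B hB
      split_ifs with hBg
      · rw [filter_true_of_mem, h.card_block c B hB]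
        intro x hx
        rw [← eq_blk h hB hx, ← hBg]
        exact mem_image_of_mem _ hx
      · rw [card_eq_zero, filter_eq_empty_iff]
        intro x hx hgx
        apply hBg
        rw [← eq_blk h hB hx] at hgx
        have h2 := eq_blk h (hg c B hB) (mem_image_of_mem g hx)
        have h3 := eq_blk h hB hgx
        rw [h2, ← h3]
    rw [sum_congr rfl h1, ← sum_filter, sum_const, smul_eq_mul, mul_comm]
    rfl
  have hT : ∑ x, nn h x (g x) = ∑ c : Fin r, (univ.filter fun x : P => g x ∈ blk h c x).card := by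
    unfold nn
    simp_rw [card_filter]
    rw [sum_comm]
  rw [sum_congr rfl fun c _ => key c, ← mul_sum] at hT
  have hR := rel_r h hs
  have h2 : ((s : ℤ) - 1) * ((∑ x, nn h x (g x) : ℕ) : ℤ)
      = fp g * (s ^ 2 * μ - 1) + (s ^ 2 * μ - fp g) * (s * μ - 1) := by
    rw [Nat.cast_sum, mul_sum]
    have h3 : ∀ x ∈ (univ : Finset P), ((s : ℤ) - 1) * (nn h x (g x) : ℤ)
        = (s * μ - 1) + if g x = x then (s ^ 2 * μ - s * μ : ℤ) else 0 := by
      intro x _
      split_ifs with hx
      · rw [hx, nn_self, hR]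
        ring
      · rw [nn_eq h hs (Ne.symm hx), add_zero]
    rw [sum_congr rfl h3, sum_add_distrib, sum_const, card_univ, h.card_points, nsmul_eq_mul,
      ← sum_filter, sum_const, nsmul_eq_mul]
    unfold fp
    push_cast
    ring
  rw [hT] at h2
  have hsμ : ((s : ℤ) * μ) ≠ 0 := by
    have h5 : (0 : ℤ) < s := by
      have : 0 < s := by omega
      exact_mod_cast this
    have h6 : (0 : ℤ) < μ := by exact_mod_cast hμ
    positivity
  have hs1 : ((s : ℤ) - 1) ≠ 0 := by
    have : (2 : ℤ) ≤ s := by exact_mod_cast hs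
    linarith
  have h7 : ((s : ℤ) * μ) * (((s : ℤ) - 1) * ((∑ c, fb cls c g : ℕ) + 1))
      = ((s : ℤ) * μ) * (((s : ℤ) - 1) * (fp g + r)) := by
    push_cast at h2 ⊢
    linear_combination h2 - (s * μ : ℤ) * hR
  have h8 := mul_left_cancel₀ hs1 (mul_left_cancel₀ hsμ h7)
  exact_mod_cast h8

/-- the classes joining `x` and `y` -/
noncomputable def CC (h : IsCompleteNet s r μ cls) (x y : P) : Finset (Fin r) :=
  univ.filter fun c : Fin r => y ∈ blk h c x

theorem card_CC (h : IsCompleteNet s r μ cls) (hs : 2 ≤ s) {x y z w : P} (hxy : x ≠ y)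
    (hzw : z ≠ w) : (CC h x y).card = (CC h z w).card := by
  have h1 := nn_eq h hs hxy
  have h2 := nn_eq h hs hzw
  have hs1 : ((s : ℤ) - 1) ≠ 0 := by
    have : (2 : ℤ) ≤ s := by exact_mod_cast hs
    linarith
  have h3 : (nn h x y : ℤ) = nn h z w := mul_left_cancel₀ hs1 (h1.trans h2.symm)
  exact_mod_cast h3

theorem mem_CC (h : IsCompleteNet s r μ cls) {x y : P} {c : Fin r} :
    c ∈ CC h x y ↔ y ∈ blk h c x := by
  simp [CC]

theorem fixed_blk (h : IsCompleteNet s r μ cls) {g : Equiv.Perm P} (hg : IsDilatation cls g)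
    {x : P} (hx : g x = x) (c : Fin r) : (blk h c x).image g = blk h c x := by
  apply eq_blk h (hg c _ (blk_mem h c x))
  rw [mem_image]
  exact ⟨x, mem_blk h c x, hx⟩

theorem CC_fix (h : IsCompleteNet s r μ cls) (hs : 2 ≤ s) {g : Equiv.Perm P}
    (hg : IsDilatation cls g) {x z : P} (hx : g x = x) (hz : g z ≠ z) :
    CC h z x = CC h z (g z) := by
  have hzx : z ≠ x := by
    rintro rfl
    exact hz hx
  apply eq_of_subset_of_card_le
  · intro c hc
    rw [mem_CC] at hc ⊢
    have h1 : blk h c z = blk h c x := (mem_blk_iff h).1 hc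
    have h2 := fixed_blk h hg hx c
    rw [← h1] at h2
    rw [← h2]
    exact mem_image_of_mem _ (mem_blk h c z)
  · rw [card_CC h hs (Ne.symm hz) hzx]

theorem CC_fix2 (h : IsCompleteNet s r μ cls) (hs : 2 ≤ s) {g : Equiv.Perm P}
    (hg : IsDilatation cls g) {x y z : P} (hx : g x = x) (hy : g y = y) (hxy : x ≠ y)
    (hz : g z ≠ z) : CC h z x = CC h x y := by
  have hzx : z ≠ x := by
    rintro rfl
    exact hz hx
  have h1 : CC h z x = CC h z y := (CC_fix h hs hg hx hz).trans (CC_fix h hs hg hy hz).symm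
  apply eq_of_subset_of_card_le
  · intro c hc
    have hc2 := hc
    rw [h1] at hc2
    rw [mem_CC] at hc hc2 ⊢
    rw [← (mem_blk_iff h).1 hc]
    exact hc2
  · rw [card_CC h hs hxy hzx]

/-- a dilatation with two fixed points is the identity -/
theorem dil_eq_one (h : IsCompleteNet s r μ cls) (hs : 2 ≤ s) (hμ : 1 ≤ μ) {g : Equiv.Perm P}
    (hg : IsDilatation cls g) {x y : P} (hx : g x = x) (hy : g y = y) (hxy : x ≠ y) : g = 1 := by
  by_contra hne
  obtain ⟨z, hz⟩ : ∃ z, g z ≠ z := by
    by_contra hall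
    push Not at hall
    exact hne (Equiv.ext hall)
  have hnonempty : (CC h x y).Nonempty := by
    rw [← card_pos]
    have h1 := nn_eq h hs hxy
    have h2 : (CC h x y).card = nn h x y := rfl
    rw [h2]
    by_contra h3
    have h4 : nn h x y = 0 := by omega
    rw [h4, Nat.cast_zero, mul_zero] at h1
    have h5 : (2 : ℤ) ≤ s := by exact_mod_cast hs
    have h6 : (1 : ℤ) ≤ μ := by exact_mod_cast hμ
    nlinarith
  obtain ⟨c, hc⟩ := hnonempty
  obtain ⟨w, hw⟩ : ∃ w, w ∉ blk h c x := by
    by_contra hall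
    push Not at hall
    have h1 : (blk h c x) = univ := eq_univ_of_forall hall
    have h2 := h.card_block c _ (blk_mem h c x)
    rw [h1, card_univ, h.card_points] at h2
    have h3 : s * μ < s ^ 2 * μ := by nlinarith [Nat.mul_pos (by omega : 0 < s) hμ]
    omega
  have hwx : x ≠ w := by
    rintro rfl
    exact hw (mem_blk h c x)
  have hwf : g w = w := by
    by_contra hwn
    have h1 := CC_fix2 h hs hg hx hy hxy hwn
    rw [← h1, mem_CC] at hc
    apply hw
    rw [mem_blk_iff h]
    exact ((mem_blk_iff h).1 hc).symm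
  have h1 := CC_fix2 h hs hg hx hy hxy hz
  have h2 := CC_fix2 h hs hg hx hwf hwx hz
  rw [← h1, h2, mem_CC] at hc
  exact hw hc

theorem fb_eq_one (h : IsCompleteNet s r μ cls) (hs : 2 ≤ s) (hμ : 1 ≤ μ) {g : Equiv.Perm P}
    (hg : IsDilatation cls g) (hg1 : g ≠ 1) {x : P} (hx : g x = x) (c : Fin r) :
    fb cls c g = 1 := by
  have hfp : fp g = 1 := by
    unfold fp
    rw [card_eq_one]
    refine ⟨x, ?_⟩
    ext y
    simp only [mem_filter, mem_univ, true_and, mem_singleton]
    constructor
    · intro hy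
      by_contra hyx
      exact hg1 (dil_eq_one h hs hμ hg hy hx hyx)
    · rintro rfl
      exact hx
  have h1 := sum_fb h hs hμ g hg
  rw [hfp] at h1
  have h2 : ∑ c, fb cls c g = ∑ _c : Fin r, 1 := by
    rw [sum_const, card_univ, Fintype.card_fin, smul_eq_mul, mul_one]
    omega
  have h3 : ∀ c ∈ (univ : Finset (Fin r)), 1 ≤ fb cls c g := by
    intro c _
    unfold fb
    rw [Nat.succ_le_iff, card_pos]
    exact ⟨blk h c x, mem_filter.2 ⟨blk_mem h c x, fixed_blk h hg hx c⟩⟩
  exact ((sum_eq_sum_iff_of_le h3).1 h2.symm c (mem_univ c)).symm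

end

end Pool.Agent.Lib.MP67e184
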