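import Pool.Agent.Lib.MP_67e184_co.Transfer

/-!
# MP_67e184_co : automorphisms of prime power order of complete nets
-/

namespace Pool.Agent.Lib.MP67e184

open Finset

section
variable {P : Type*} [Fintype P] [DecidableEq P] {s r μ : ℕ} {cls : Fin r → Finset (Finset P)}

/-- the block of the class `c` through the point `x` -/
noncomputable def blk (h : IsCompleteNet s r μ cls) (c : Fin r) (x : P) : Finset P :=
  (h.parallel c x).choose

theorem blk_mem (h : IsCompleteNet s r μ cls) (c : Fin r) (x : P) : blk h c x ∈ cls c :=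
  (h.parallel c x).choose_spec.1.1

theorem mem_blk (h : IsCompleteNet s r μ cls) (c : Fin r) (x : P) : x ∈ blk h c x :=
  (h.parallel c x).choose_spec.1.2

theorem eq_blk (h : IsCompleteNet s r μ cls) {c : Fin r} {x : P} {B : Finset P}
    (hB : B ∈ cls c) (hx : x ∈ B) : B = blk h c x :=
  (h.parallel c x).choose_spec.2 B ⟨hB, hx⟩

theorem mem_blk_iff (h : IsCompleteNet s r μ cls) {c : Fin r} {x y : P} :
    y ∈ blk h c x ↔ blk h c x = blk h c y := by
  constructor
  · intro hy
    exact eq_blk h (blk_mem h c x) hy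
  · intro he
    rw [he]
    exact mem_blk h c y

/-- the number of classes in which `x` and `y` are in one block -/
noncomputable def nn (h : IsCompleteNet s r μ cls) (x y : P) : ℕ :=
  (univ.filter fun c : Fin r => y ∈ blk h c x).card

theorem sum_nn (h : IsCompleteNet s r μ cls) (x : P) :
    ∑ y, nn h x y = r * (s * μ) := by
  unfold nn
  simp_rw [card_filter]
  rw [sum_comm]
  have : ∀ c : Fin r, ∑ y, (if y ∈ blk h c x then 1 else 0) = s * μ := by
    intro c
    rw [← card_filter, filter_mem_eq_inter, univ_inter, h.card_block c _ (blk_mem h c x)]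
  rw [sum_congr rfl fun c _ => this c]
  simp

theorem sum_nn_sq (h : IsCompleteNet s r μ cls) (x : P) :
    ∑ y, (nn h x y : ℤ) ^ 2 = r * (s * μ) + r * (r - 1) * μ := by
  have h1 : ∀ y, (nn h x y : ℤ) ^ 2
      = ∑ c : Fin r, ∑ d : Fin r, if y ∈ blk h c x ∩ blk h d x then (1 : ℤ) else 0 := by
    intro y
    unfold nn
    rw [card_filter, Nat.cast_sum, sq, sum_mul_sum]
    refine sum_congr rfl fun c _ => sum_congr rfl fun d _ => ?_
    by_cases h1 : y ∈ blk h c x <;> by_cases h2 : y ∈ blk h d x <;> simp [h1, h2]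
  rw [sum_congr rfl fun y _ => h1 y, sum_comm]
  have h2 : ∀ c : Fin r, (∑ y, ∑ d : Fin r, if y ∈ blk h c x ∩ blk h d x then (1 : ℤ) else 0)
      = s * μ + (r - 1) * μ := by
    intro c
    rw [sum_comm]
    have h3 : ∀ d : Fin r, (∑ y, if y ∈ blk h c x ∩ blk h d x then (1 : ℤ) else 0)
        = if d = c then (s * μ : ℤ) else μ := by
      intro d
      rw [← Finset.sum_filter, filter_mem_eq_inter, univ_inter, sum_const, nsmul_eq_mul, mul_one]
      by_cases hd : d = c
      · subst hd
        rw [inter_self, h.card_block d _ (blk_mem h d x), if_pos rfl]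
        push_cast
        ring
      · rw [h.meet c d (Ne.symm hd) _ (blk_mem h c x) _ (blk_mem h d x), if_neg hd]
    rw [sum_congr rfl fun d _ => h3 d, ← Finset.add_sum_erase _ _ (mem_univ c), if_pos rfl]
    have h4 : ∀ d ∈ univ.erase c, (if d = c then (s * μ : ℤ) else μ) = μ := by
      intro d hd
      rw [if_neg (ne_of_mem_erase hd)]
    rw [sum_congr rfl h4, sum_const, card_erase_of_mem (mem_univ c), card_univ, Fintype.card_fin,
      nsmul_eq_mul]
    have hr : 1 ≤ r := by
      have := c.2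
      omega
    rw [Nat.cast_sub hr]
    push_cast
    ring
  rw [sum_congr rfl fun c _ => h2 c, sum_const, card_univ, Fintype.card_fin, nsmul_eq_mul]
  ring

theorem nn_self (h : IsCompleteNet s r μ cls) (x : P) : nn h x x = r := by
  unfold nn
  rw [filter_true_of_mem fun c _ => mem_blk h c x, card_univ, Fintype.card_fin]

theorem nn_eq (h : IsCompleteNet s r μ cls) (hs : 2 ≤ s) {x y : P} (hxy : x ≠ y) :
    ((s : ℤ) - 1) * nn h x y = s * μ - 1 := by
  have hR : ((s : ℤ) - 1) * r = s ^ 2 * μ - 1 := by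
    have := h.complete
    have h1 : ((r * (s - 1) + 1 : ℕ) : ℤ) = ((s ^ 2 * μ : ℕ) : ℤ) := by rw [this]
    push_cast [Nat.cast_sub (by omega : 1 ≤ s)] at h1
    linarith
  have h0 : ∑ z, (((s : ℤ) - 1) * nn h x z - (s * μ - 1)) ^ 2
      = (((s : ℤ) - 1) * nn h x x - (s * μ - 1)) ^ 2 := by
    have h1 : ∀ z, (((s : ℤ) - 1) * nn h x z - (s * μ - 1)) ^ 2
        = ((s : ℤ) - 1) ^ 2 * (nn h x z : ℤ) ^ 2
          - 2 * (s - 1) * (s * μ - 1) * (nn h x z : ℤ) + (s * μ - 1) ^ 2 := by
      intro z
      ring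
    have h2 : (∑ z, (nn h x z : ℤ)) = r * (s * μ) := by
      exact_mod_cast sum_nn h x
    rw [sum_congr rfl fun z _ => h1 z, sum_add_distrib, sum_sub_distrib, ← mul_sum, ← mul_sum,
      sum_nn_sq, h2, sum_const, card_univ, h.card_points, nsmul_eq_mul, nn_self]
    push_cast
    linear_combination (((s : ℤ) - 1) * (s * μ) + μ * ((s - 1) * r + (s ^ 2 * μ - 1) - (s - 1))
      - 2 * (s * μ - 1) * (s * μ) - ((s - 1) * r + (s ^ 2 * μ - 1) - 2 * (s * μ - 1))) * hR
  rw [← Finset.add_sum_erase _ _ (mem_univ x)] at h0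
  have h3 : ∑ z ∈ univ.erase x, (((s : ℤ) - 1) * nn h x z - (s * μ - 1)) ^ 2 = 0 := by
    linarith
  rw [Finset.sum_eq_zero_iff_of_nonneg fun z _ => sq_nonneg _] at h3
  have h4 := h3 y (mem_erase.2 ⟨hxy.symm, mem_univ y⟩)
  have h5 := pow_eq_zero_iff (two_ne_zero) |>.1 h4
  linarith

theorem card_cls (h : IsCompleteNet s r μ cls) (hs : 2 ≤ s) (hμ : 1 ≤ μ) (c : Fin r) :
    (cls c).card = s := by
  have h1 : Fintype.card P = ∑ B ∈ cls c, (univ.filter fun x => blk h c x = B).card := by
    rw [← card_univ]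
    exact card_eq_sum_card_fiberwise fun x _ => blk_mem h c x
  have h2 : ∀ B ∈ cls c, (univ.filter fun x => blk h c x = B).card = s * μ := by
    intro B hB
    rw [← h.card_block c B hB]
    congr 1
    ext x
    simp only [mem_filter, mem_univ, true_and]
    constructor
    · intro hx
      rw [← hx]
      exact mem_blk h c x
    · intro hx
      exact (eq_blk h hB hx).symm
  rw [sum_congr rfl h2, sum_const, smul_eq_mul, h.card_points] at h1
  have h3 : 0 < s * μ := by positivity
  have h4 : (cls c).card * (s * μ) = s * (s * μ) := by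
    rw [← h1]
    ring
  exact Nat.eq_of_mul_eq_mul_right h3 h4

/-- counting points class by class -/
theorem card_filter_blocks (h : IsCompleteNet s r μ cls) (c : Fin r) (Q : P → Prop)
    [DecidablePred Q] :
    (univ.filter Q).card = ∑ B ∈ cls c, (B.filter Q).card := by
  rw [card_eq_sum_card_fiberwise (f := fun x => blk h c x) (t := cls c)
    fun x _ => blk_mem h c x]
  refine sum_congr rfl fun B hB => ?_
  congr 1
  ext x
  simp only [mem_filter, mem_univ, true_and]
  constructor
  · rintro ⟨hx, hx'⟩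
    rw [← hx']
    exact ⟨mem_blk h c x, hx⟩
  · rintro ⟨hx, hx'⟩
    exact ⟨hx', (eq_blk h hB hx).symm⟩

theorem image_class (h : IsCompleteNet s r μ cls) (hs : 2 ≤ s) (hμ : 1 ≤ μ) (g : Equiv.Perm P)
    {c d e : Fin r} {B C : Finset P} (hB : B ∈ cls c) (hC : C ∈ cls c)
    (hd : B.image g ∈ cls d) (he : C.image g ∈ cls e) : d = e := by
  by_contra hne
  have h1 := h.meet d e hne _ hd _ he
  by_cases hBC : B = C
  · subst hBC
    rw [inter_self, card_image_of_injective _ g.injective, h.card_block c B hB] at h1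
    nlinarith
  · have h2 : B ∩ C = ∅ := by
      rw [← disjoint_iff_inter_eq_empty, disjoint_left]
      intro x hx hx'
      exact hBC ((eq_blk h hB hx).trans (eq_blk h hC hx').symm)
    rw [← image_inter _ _ g.injective, h2, image_empty, card_empty] at h1
    omega

theorem exists_fixed_block (h : IsCompleteNet s r μ cls) (hs : 2 ≤ s) (hμ : 1 ≤ μ) {p n : ℕ}
    (hp : p.Prime) (hps : ¬ p ∣ s) (g : Equiv.Perm P) (hg : g ^ p ^ n = 1) (c : Fin r)
    (hc : ∀ B ∈ cls c, B.image g ∈ cls c) : ∃ B ∈ cls c, B.image g = B := by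
  let f : {B // B ∈ cls c} → {B // B ∈ cls c} := fun B => ⟨B.1.image g, hc B.1 B.2⟩
  have hf : Function.Injective f := by
    intro B C hBC
    apply Subtype.ext
    have := congrArg Subtype.val hBC
    exact Finset.image_injective g.injective this
  let σ : Equiv.Perm {B // B ∈ cls c} := Equiv.ofBijective f (Finite.injective_iff_bijective.1 hf)
  have hσ : ∀ (m : ℕ) (B : {B // B ∈ cls c}), ((σ ^ m) B).1 = B.1.image (g ^ m : Equiv.Perm P) := by
    intro m
    induction m with
    | zero =>
      intro B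
      simp
    | succ m ih =>
      intro B
      rw [pow_succ', Equiv.Perm.mul_apply]
      change (((σ ^ m) B).1).image g = _
      rw [ih, image_image, pow_succ']
      rfl
  have h1 : σ ^ p ^ n = 1 := by
    ext1 B
    apply Subtype.ext
    rw [hσ, hg]
    simp
  have h2 : Fintype.card {B // B ∈ cls c} = s := by
    rw [Fintype.card_coe, card_cls h hs hμ]
  have : Fact p.Prime := ⟨hp⟩
  obtain ⟨B, hB⟩ := Equiv.Perm.exists_fixed_point_of_prime (p := p) (n := n) (σ := σ)
    (by rw [h2]; exact hps) h1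
  exact ⟨B.1, B.2, congrArg Subtype.val hB⟩

/-- In a complete `(s, μ)`-net every automorphism whose order is a power of a prime `p ∤ s` fixes
a point. -/
theorem exists_fixed_point (h : IsCompleteNet s r μ cls) (hs : 2 ≤ s) (hμ : 1 ≤ μ) {p n : ℕ}
    (hp : p.Prime) (hps : ¬ p ∣ s) (g : Equiv.Perm P) (haut : IsAut cls g)
    (hg : g ^ p ^ n = 1) : ∃ x, g x = x := by
  by_contra hcon
  push Not at hcon
  -- the number of `x` with `x`, `g x` in one block of the class `c` is at least `s μ`
  have key : ∀ c : Fin r, s * μ ≤ (univ.filter fun x : P => g x ∈ blk h c x).card := by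
    intro c
    by_cases hc : ∀ B ∈ cls c, B.image g ∈ cls c
    · obtain ⟨B, hB, hgB⟩ := exists_fixed_block h hs hμ hp hps g hg c hc
      rw [← h.card_block c B hB]
      apply card_le_card
      intro x hx
      rw [mem_filter]
      refine ⟨mem_univ _, ?_⟩
      rw [← eq_blk h hB hx, ← hgB]
      exact mem_image_of_mem _ hx
    · push Not at hc
      obtain ⟨B, hB, hgB⟩ := hc
      obtain ⟨d, hd⟩ := haut c B hB
      have hdc : d ≠ c := by
        rintro rfl
        exact hgB hd
      rw [card_filter_blocks h c]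
      have h1 : ∀ C ∈ cls c, (C.filter fun x => g x ∈ blk h c x).card = μ := by
        intro C hC
        obtain ⟨e, he⟩ := haut c C hC
        have hde : d = e := image_class h hs hμ g hB hC hd he
        subst hde
        have h2 := h.meet d c hdc _ he _ hC
        refine Eq.trans ?_ h2
        rw [← card_image_of_injective (C.filter fun x => g x ∈ blk h c x) g.injective]
        congr 1
        ext y
        simp only [mem_image, mem_filter, mem_inter]
        constructor
        · rintro ⟨x, ⟨hx, hx'⟩, rfl⟩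
          refine ⟨⟨x, hx, rfl⟩, ?_⟩
          rw [eq_blk h hC hx]
          exact hx'
        · rintro ⟨⟨x, hx, rfl⟩, hx'⟩
          refine ⟨x, ⟨hx, ?_⟩, rfl⟩
          rw [← eq_blk h hC hx]
          exact hx'
      rw [sum_congr rfl h1, sum_const, card_cls h hs hμ, smul_eq_mul]
  have hT : ∑ x, nn h x (g x) = ∑ c : Fin r, (univ.filter fun x : P => g x ∈ blk h c x).card := by
    unfold nn
    simp_rw [card_filter]
    rw [sum_comm]
  have h1 : r * (s * μ) ≤ ∑ x, nn h x (g x) := by
    rw [hT]
    calc r * (s * μ) = ∑ _c : Fin r, s * μ := by simp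
      _ ≤ _ := sum_le_sum fun c _ => key c
  have h2 : ((s : ℤ) - 1) * ((∑ x, nn h x (g x) : ℕ) : ℤ) = (s ^ 2 * μ) * (s * μ - 1) := by
    rw [Nat.cast_sum, mul_sum]
    have : ∀ x ∈ (univ : Finset P), ((s : ℤ) - 1) * (nn h x (g x) : ℤ) = s * μ - 1 := by
      intro x _
      exact nn_eq h hs (Ne.symm (hcon x))
    rw [sum_congr rfl this, sum_const, card_univ, h.card_points, nsmul_eq_mul]
    push_cast
    ring
  have hR : ((s : ℤ) - 1) * r = s ^ 2 * μ - 1 := by
    have := h.complete
    have h1 : ((r * (s - 1) + 1 : ℕ) : ℤ) = ((s ^ 2 * μ : ℕ) : ℤ) := by rw [this]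
    push_cast [Nat.cast_sub (by omega : 1 ≤ s)] at h1
    linarith
  have h3 : (r : ℤ) * (s * μ) ≤ ((∑ x, nn h x (g x) : ℕ) : ℤ) := by
    exact_mod_cast h1
  have hs' : (2 : ℤ) ≤ s := by exact_mod_cast hs
  have hμ' : (1 : ℤ) ≤ μ := by exact_mod_cast hμ
  have h4 : ((s : ℤ) - 1) * (r * (s * μ)) ≤ (s ^ 2 * μ) * (s * μ - 1) := by
    rw [← h2]
    exact mul_le_mul_of_nonneg_left h3 (by linarith)
  have h5 : ((s : ℤ) - 1) * (r * (s * μ)) = (s ^ 2 * μ - 1) * (s * μ) := by
    linear_combination (s * μ : ℤ) * hR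
  rw [h5] at h4
  have h6 : (0 : ℤ) < s * μ * (s - 1) := by
    have : (0 : ℤ) < s - 1 := by linarith
    positivity
  nlinarith

end

end Pool.Agent.Lib.MP67e184
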