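import Mathlib

/-!
# MP_67e184_co : counting in 2-transitive actions
-/

namespace Pool.Agent.Lib.MP67e184

open Finset

section
variable {D X : Type*} [Group D] [Fintype D] [DecidableEq D] [MulAction D X] [Fintype X]
  [DecidableEq X]

/-- number of fixed points of `g` on `X` -/
def fx (X : Type*) {D : Type*} [Group D] [MulAction D X] [Fintype X] [DecidableEq X] (g : D) : ℕ :=
  (univ.filter fun a : X => g • a = a).card

/-- 2-transitivity -/
def TwoTrans (D X : Type*) [Group D] [MulAction D X] : Prop :=
  ∀ a a' b b' : X, a ≠ a' → b ≠ b' → ∃ g : D, g • a = b ∧ g • a' = b'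

omit [DecidableEq D] in
theorem card_fix_pair (h2 : TwoTrans D X) {a b : X} (hab : a ≠ b) :
    (univ.filter fun g : D => g • a = a ∧ g • b = b).card * (Fintype.card X * (Fintype.card X - 1))
      = Fintype.card D := by
  have h1 : Fintype.card D = ∑ p ∈ (univ : Finset X).offDiag,
      (univ.filter fun g : D => (g • a, g • b) = p).card := by
    rw [← card_univ]
    apply card_eq_sum_card_fiberwise
    intro g _
    simp only [coe_offDiag, coe_univ, Set.mem_offDiag, Set.mem_univ, true_and]
    intro h
    exact hab (MulAction.injective g h)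
  have h3 : ∀ p ∈ (univ : Finset X).offDiag, (univ.filter fun g : D => (g • a, g • b) = p).card
      = (univ.filter fun g : D => g • a = a ∧ g • b = b).card := by
    rintro ⟨c, d⟩ hp
    rw [mem_offDiag] at hp
    obtain ⟨k, hk1, hk2⟩ := h2 a b c d hab hp.2.2
    refine card_bij (fun g _ => k⁻¹ * g) ?_ ?_ ?_
    · intro g hg
      simp only [mem_filter, mem_univ, true_and, Prod.mk.injEq] at hg ⊢
      rw [mul_smul, mul_smul, hg.1, hg.2, ← hk1, ← hk2, inv_smul_smul, inv_smul_smul]
      exact ⟨rfl, rfl⟩
    · intro g _ g' _ he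
      exact mul_left_cancel he
    · intro g hg
      simp only [mem_filter, mem_univ, true_and, Prod.mk.injEq] at hg ⊢
      refine ⟨k * g, ?_, by simp⟩
      rw [mul_smul, mul_smul, hg.1, hg.2]
      exact ⟨hk1, hk2⟩
  rw [h1, sum_congr rfl h3, sum_const, offDiag_card, card_univ, smul_eq_mul, mul_comm,
    Nat.mul_sub, mul_one]

omit [DecidableEq D] in
theorem card_fix_one (h1 : ∀ a b : X, ∃ g : D, g • a = b) (a : X) :
    (univ.filter fun g : D => g • a = a).card * Fintype.card X = Fintype.card D := by
  have h2 : Fintype.card D = ∑ p ∈ (univ : Finset X), (univ.filter fun g : D => g • a = p).card := by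
    rw [← card_univ]
    exact card_eq_sum_card_fiberwise fun g _ => mem_coe.2 (mem_univ _)
  have h3 : ∀ p ∈ (univ : Finset X), (univ.filter fun g : D => g • a = p).card
      = (univ.filter fun g : D => g • a = a).card := by
    intro p _
    obtain ⟨k, hk⟩ := h1 a p
    refine card_bij (fun g _ => k⁻¹ * g) ?_ ?_ ?_
    · intro g hg
      simp only [mem_filter, mem_univ, true_and] at hg ⊢
      rw [mul_smul, hg, ← hk, inv_smul_smul]
    · intro g _ g' _ he
      exact mul_left_cancel he
    · intro g hg
      simp only [mem_filter, mem_univ, true_and] at hg ⊢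
      refine ⟨k * g, ?_, by simp⟩
      rw [mul_smul, hg, hk]
  rw [h2, sum_congr rfl h3, sum_const, card_univ, smul_eq_mul, mul_comm]

theorem sum_fx (h1 : ∀ a b : X, ∃ g : D, g • a = b) (hX : 0 < Fintype.card X) :
    ∑ g : D, fx X g = Fintype.card D := by
  unfold fx
  simp_rw [card_filter]
  rw [sum_comm]
  have h3 : ∀ a ∈ (univ : Finset X), (∑ g : D, if g • a = a then 1 else 0)
      = (univ.filter fun g : D => g • a = a).card := by
    intro a _
    rw [card_filter]
  rw [sum_congr rfl h3]
  have h4 : (∑ a : X, (univ.filter fun g : D => g • a = a).card) * Fintype.card X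
      = Fintype.card D * Fintype.card X := by
    rw [sum_mul, sum_congr rfl fun a _ => card_fix_one h1 a, sum_const, card_univ, smul_eq_mul,
      mul_comm]
  exact Nat.eq_of_mul_eq_mul_right hX h4

theorem sum_fx_sq (h2 : TwoTrans D X) (hX : 2 ≤ Fintype.card X) :
    ∑ g : D, fx X g ^ 2 = 2 * Fintype.card D := by
  have htr : ∀ a b : X, ∃ g : D, g • a = b := by
    intro a b
    obtain ⟨a', ha'⟩ := Fintype.exists_ne_of_one_lt_card (by omega) a
    obtain ⟨b', hb'⟩ := Fintype.exists_ne_of_one_lt_card (by omega) b
    obtain ⟨g, hg, _⟩ := h2 a a' b b' (Ne.symm ha') (Ne.symm hb')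
    exact ⟨g, hg⟩
  have h3 : ∀ g : D, fx X g ^ 2 = ∑ a : X, ∑ b : X, if g • a = a ∧ g • b = b then 1 else 0 := by
    intro g
    unfold fx
    rw [card_filter, sq, sum_mul_sum]
    refine sum_congr rfl fun a _ => sum_congr rfl fun b _ => ?_
    by_cases ha : g • a = a <;> by_cases hb : g • b = b <;> simp [ha, hb]
  rw [sum_congr rfl fun g _ => h3 g, sum_comm]
  have h4 : ∀ a ∈ (univ : Finset X), (∑ g : D, ∑ b : X, if g • a = a ∧ g • b = b then 1 else 0)
      = ∑ b : X, (univ.filter fun g : D => g • a = a ∧ g • b = b).card := by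
    intro a _
    rw [sum_comm]
    refine sum_congr rfl fun b _ => ?_
    rw [card_filter]
  rw [sum_congr rfl h4]
  have h5 : ∀ a : X, (∑ b : X, (univ.filter fun g : D => g • a = a ∧ g • b = b).card)
      * Fintype.card X = 2 * Fintype.card D := by
    intro a
    rw [← add_sum_erase _ _ (mem_univ a), add_mul]
    have h6 : (univ.filter fun g : D => g • a = a ∧ g • a = a).card * Fintype.card X
        = Fintype.card D := by
      simp only [and_self]
      exact card_fix_one htr a
    rw [h6]
    have h7 : (∑ b ∈ univ.erase a, (univ.filter fun g : D => g • a = a ∧ g • b = b).card)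
        * Fintype.card X = Fintype.card D := by
      have h8 : ((∑ b ∈ univ.erase a, (univ.filter fun g : D => g • a = a ∧ g • b = b).card)
          * Fintype.card X) * (Fintype.card X - 1) = Fintype.card D * (Fintype.card X - 1) := by
        rw [mul_assoc, sum_mul]
        rw [sum_congr rfl fun b hb => card_fix_pair h2 (Ne.symm (ne_of_mem_erase hb)), sum_const,
          card_erase_of_mem (mem_univ a), card_univ, smul_eq_mul, mul_comm]
      exact Nat.eq_of_mul_eq_mul_right (by omega) h8
    rw [h7]
    ring
  have h9 : (∑ a : X, ∑ b : X, (univ.filter fun g : D => g • a = a ∧ g • b = b).card)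
      * Fintype.card X = (2 * Fintype.card D) * Fintype.card X := by
    rw [sum_mul, sum_congr rfl fun a _ => h5 a, sum_const, card_univ, smul_eq_mul, mul_comm]
  exact Nat.eq_of_mul_eq_mul_right (by omega) h9

/-- a finite group acting 2-transitively so that only the identity fixes two points: the degree is
a prime power -/
theorem primePow_of_sharp (h2 : TwoTrans D X) (hX : 2 ≤ Fintype.card X)
    (hsharp : ∀ g : D, ∀ a b : X, a ≠ b → g • a = a → g • b = b → g = 1) :
    IsPrimePow (Fintype.card X) := by
  have htr : ∀ a b : X, ∃ g : D, g • a = b := by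
    intro a b
    obtain ⟨a', ha'⟩ := Fintype.exists_ne_of_one_lt_card (by omega) a
    obtain ⟨b', hb'⟩ := Fintype.exists_ne_of_one_lt_card (by omega) b
    obtain ⟨g, hg, _⟩ := h2 a a' b b' (Ne.symm ha') (Ne.symm hb')
    exact ⟨g, hg⟩
  have hXpos : 0 < Fintype.card X := by omega
  obtain ⟨b₀⟩ := Fintype.card_pos_iff.1 hXpos
  obtain ⟨b₁, hb₁⟩ := Fintype.exists_ne_of_one_lt_card (by omega) b₀
  have hcardD : Fintype.card X * (Fintype.card X - 1) = Fintype.card D := by
    rw [← card_fix_pair (D := D) h2 hb₁.symm]
    have h3 : (univ.filter fun g : D => g • b₀ = b₀ ∧ g • b₁ = b₁) = {1} := by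
      ext g
      simp only [mem_filter, mem_univ, true_and, mem_singleton]
      constructor
      · rintro ⟨h3, h4⟩
        exact hsharp g b₀ b₁ hb₁.symm h3 h4
      · rintro rfl
        simp
    rw [h3, card_singleton, one_mul]
  have hstab : ∀ a : X, (univ.filter fun g : D => g • a = a).card = Fintype.card X - 1 := by
    intro a
    have h3 := card_fix_one (D := D) htr a
    rw [← hcardD, mul_comm] at h3
    exact Nat.eq_of_mul_eq_mul_left hXpos h3
  -- the elements with a fixed point
  have hfixed : (univ.filter fun g : D => g ≠ 1 ∧ ∃ a : X, g • a = a).card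
      = Fintype.card X * (Fintype.card X - 2) := by
    have h3 : (univ.filter fun g : D => g ≠ 1 ∧ ∃ a : X, g • a = a)
        = (univ : Finset X).biUnion fun a => (univ.filter fun g : D => g • a = a).erase 1 := by
      ext g
      simp only [mem_filter, mem_univ, true_and, mem_biUnion, mem_erase]
      constructor
      · rintro ⟨h4, a, ha⟩
        exact ⟨a, h4, ha⟩
      · rintro ⟨a, h4, ha⟩
        exact ⟨h4, a, ha⟩
    rw [h3, card_biUnion]
    · rw [sum_congr rfl fun a _ => (show ((univ.filter fun g : D => g • a = a).erase 1).card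
          = Fintype.card X - 2 by
        rw [card_erase_of_mem (by simp), hstab]
        omega), sum_const, card_univ, smul_eq_mul]
    · intro a _ b _ hab
      rw [Function.onFun, disjoint_left]
      intro g hg hg'
      simp only [mem_erase, mem_filter, mem_univ, true_and] at hg hg'
      exact hg.1 (hsharp g a b hab hg.2 hg'.2)
  have hfree : (univ.filter fun g : D => ∀ a : X, g • a ≠ a).card = Fintype.card X - 1 := by
    have h3 : (univ : Finset D) = insert 1 ((univ.filter fun g : D => g ≠ 1 ∧ ∃ a : X, g • a = a)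
        ∪ (univ.filter fun g : D => ∀ a : X, g • a ≠ a)) := by
      ext g
      simp only [mem_univ, mem_insert, mem_union, mem_filter, true_and, true_iff]
      by_cases hg1 : g = 1
      · exact Or.inl hg1
      · by_cases hg2 : ∃ a : X, g • a = a
        · exact Or.inr (Or.inl ⟨hg1, hg2⟩)
        · push Not at hg2
          exact Or.inr (Or.inr hg2)
    have h4 := congrArg Finset.card h3
    rw [card_insert_of_notMem, card_union_of_disjoint, card_univ, hfixed, ← hcardD] at h4
    · obtain ⟨n, hn⟩ : ∃ n, Fintype.card X = n + 2 := ⟨Fintype.card X - 2, by omega⟩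
      rw [hn] at h4 ⊢
      have h5 : n + 2 - 1 = n + 1 := by omega
      have h6 : n + 2 - 2 = n := by omega
      rw [h5, h6] at h4
      rw [h5]
      nlinarith
    · rw [disjoint_left]
      intro g hg hg'
      simp only [mem_filter, mem_univ, true_and] at hg hg'
      obtain ⟨_, a, ha⟩ := hg
      exact hg' a ha
    · simp only [mem_union, mem_filter, mem_univ, true_and, not_or]
      refine ⟨fun h => h.1 rfl, fun h => h b₀ (one_smul _ _)⟩
  -- all fixed point free elements are conjugate
  have hconj : ∀ g k : D, (∀ a : X, g • a ≠ a) → (∀ a : X, k • a ≠ a) →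
      orderOf g = orderOf k := by
    intro g k hg hk
    have h3 : ((univ.filter fun u : D => u • b₀ = b₀).image fun u => u * g * u⁻¹)
        = (univ.filter fun g : D => ∀ a : X, g • a ≠ a) := by
      apply eq_of_subset_of_card_le
      · intro v hv
        obtain ⟨u, _, rfl⟩ := mem_image.1 hv
        simp only [mem_filter, mem_univ, true_and]
        intro a ha
        apply hg (u⁻¹ • a)
        rw [mul_smul, mul_smul] at ha
        rw [eq_inv_smul_iff]
        exact ha
      · rw [hfree, card_image_of_injOn, hstab]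
        intro u hu u' hu' he
        simp only [coe_filter, mem_univ, true_and, Set.mem_ofPred_eq] at hu hu'
        have h4 : (u'⁻¹ * u) * g = g * (u'⁻¹ * u) := by
          have h5 : u * g * u⁻¹ = u' * g * u'⁻¹ := he
          calc (u'⁻¹ * u) * g = u'⁻¹ * (u * g * u⁻¹) * u := by group
            _ = u'⁻¹ * (u' * g * u'⁻¹) * u := by rw [h5]
            _ = g * (u'⁻¹ * u) := by group
        have h6 : (u'⁻¹ * u) • b₀ = b₀ := by
          rw [mul_smul, hu, inv_smul_eq_iff, hu']
        have h7 : (u'⁻¹ * u) • (g • b₀) = g • b₀ := by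
          rw [← mul_smul, h4, mul_smul, h6]
        have h8 := hsharp (u'⁻¹ * u) b₀ (g • b₀) (Ne.symm (hg b₀)) h6 h7
        exact (inv_mul_eq_one.1 h8).symm
    have h4 : k ∈ (univ.filter fun g : D => ∀ a : X, g • a ≠ a) := by
      simpa using hk
    rw [← h3] at h4
    obtain ⟨u, _, rfl⟩ := mem_image.1 h4
    have h5 : u * g * u⁻¹ = MulAut.conj u g := rfl
    rw [h5]
    exact (orderOf_injective (MulAut.conj u).toMonoidHom (MulAut.conj u).injective g).symm
  -- an element of prime order dividing the degree is fixed point free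
  have hprime : ∀ p : ℕ, p.Prime → p ∣ Fintype.card X → ∃ g : D, (∀ a : X, g • a ≠ a) ∧
      orderOf g = p := by
    intro p hp hpX
    have : Fact p.Prime := ⟨hp⟩
    have hpD : p ∣ Fintype.card D := by
      rw [← hcardD]
      exact Dvd.dvd.mul_right hpX _
    obtain ⟨g, hg⟩ := exists_prime_orderOf_dvd_card p hpD
    refine ⟨g, ?_, hg⟩
    intro a ha
    have h3 : (MulAction.toPerm g : Equiv.Perm X) ^ p ^ 1 = 1 := by
      ext b
      have h4 : (MulAction.toPermHom D X) (g ^ p) = 1 := by
        rw [← hg, pow_orderOf_eq_one, map_one]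
      rw [map_pow] at h4
      rw [pow_one]
      exact congrArg (fun e : Equiv.Perm X => e b) h4
    obtain ⟨b, hb, hba⟩ := Equiv.Perm.exists_fixed_point_of_prime' hpX h3 (a := a) ha
    have h4 := hsharp g a b (Ne.symm hba) ha hb
    rw [h4, orderOf_one] at hg
    exact hp.one_lt.ne hg
  obtain ⟨p, hp, hpX⟩ := Nat.exists_prime_and_dvd (by omega : Fintype.card X ≠ 1)
  rw [isPrimePow_nat_iff]
  refine ⟨p, (Fintype.card X).primeFactorsList.length, hp, ?_, ?_⟩
  · rw [List.length_pos_iff]
    intro h3
    have h4 := (Nat.primeFactorsList_eq_nil (n := Fintype.card X)).1 h3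
    omega
  · symm
    apply Nat.eq_prime_pow_of_unique_prime_dvd (by omega)
    intro d hd hdX
    obtain ⟨g, hg, hg'⟩ := hprime p hp hpX
    obtain ⟨k, hk, hk'⟩ := hprime d hd hdX
    rw [← hg', ← hk']
    exact hconj k g hk hg

/-- order of a sharply 2-transitive group, and number of its fixed point free elements -/
theorem card_of_sharp (h2 : TwoTrans D X) (hX : 2 ≤ Fintype.card X)
    (hsharp : ∀ g : D, ∀ a b : X, a ≠ b → g • a = a → g • b = b → g = 1) :
    Fintype.card X * (Fintype.card X - 1) = Fintype.card D ∧
      (univ.filter fun g : D => ∀ a : X, g • a ≠ a).card = Fintype.card X - 1 := by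
  have htr : ∀ a b : X, ∃ g : D, g • a = b := by
    intro a b
    obtain ⟨a', ha'⟩ := Fintype.exists_ne_of_one_lt_card (by omega) a
    obtain ⟨b', hb'⟩ := Fintype.exists_ne_of_one_lt_card (by omega) b
    obtain ⟨g, hg, _⟩ := h2 a a' b b' (Ne.symm ha') (Ne.symm hb')
    exact ⟨g, hg⟩
  have hXpos : 0 < Fintype.card X := by omega
  obtain ⟨b₀⟩ := Fintype.card_pos_iff.1 hXpos
  obtain ⟨b₁, hb₁⟩ := Fintype.exists_ne_of_one_lt_card (by omega) b₀
  have hcardD : Fintype.card X * (Fintype.card X - 1) = Fintype.card D := by
    rw [← card_fix_pair (D := D) h2 hb₁.symm]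
    have h3 : (univ.filter fun g : D => g • b₀ = b₀ ∧ g • b₁ = b₁) = {1} := by
      ext g
      simp only [mem_filter, mem_univ, true_and, mem_singleton]
      constructor
      · rintro ⟨h3, h4⟩
        exact hsharp g b₀ b₁ hb₁.symm h3 h4
      · rintro rfl
        simp
    rw [h3, card_singleton, one_mul]
  have hstab : ∀ a : X, (univ.filter fun g : D => g • a = a).card = Fintype.card X - 1 := by
    intro a
    have h3 := card_fix_one (D := D) htr a
    rw [← hcardD, mul_comm] at h3
    exact Nat.eq_of_mul_eq_mul_left hXpos h3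
  have hfixed : (univ.filter fun g : D => g ≠ 1 ∧ ∃ a : X, g • a = a).card
      = Fintype.card X * (Fintype.card X - 2) := by
    have h3 : (univ.filter fun g : D => g ≠ 1 ∧ ∃ a : X, g • a = a)
        = (univ : Finset X).biUnion fun a => (univ.filter fun g : D => g • a = a).erase 1 := by
      ext g
      simp only [mem_filter, mem_univ, true_and, mem_biUnion, mem_erase]
      constructor
      · rintro ⟨h4, a, ha⟩
        exact ⟨a, h4, ha⟩
      · rintro ⟨a, h4, ha⟩
        exact ⟨h4, a, ha⟩
    rw [h3, card_biUnion]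
    · rw [sum_congr rfl fun a _ => (show ((univ.filter fun g : D => g • a = a).erase 1).card
          = Fintype.card X - 2 by
        rw [card_erase_of_mem (by simp), hstab]
        omega), sum_const, card_univ, smul_eq_mul]
    · intro a _ b _ hab
      rw [Function.onFun, disjoint_left]
      intro g hg hg'
      simp only [mem_erase, mem_filter, mem_univ, true_and] at hg hg'
      exact hg.1 (hsharp g a b hab hg.2 hg'.2)
  refine ⟨hcardD, ?_⟩
  have h3 : (univ : Finset D) = insert 1 ((univ.filter fun g : D => g ≠ 1 ∧ ∃ a : X, g • a = a)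
      ∪ (univ.filter fun g : D => ∀ a : X, g • a ≠ a)) := by
    ext g
    simp only [mem_univ, mem_insert, mem_union, mem_filter, true_and, true_iff]
    by_cases hg1 : g = 1
    · exact Or.inl hg1
    · by_cases hg2 : ∃ a : X, g • a = a
      · exact Or.inr (Or.inl ⟨hg1, hg2⟩)
      · push Not at hg2
        exact Or.inr (Or.inr hg2)
  have h4 := congrArg Finset.card h3
  rw [card_insert_of_notMem, card_union_of_disjoint, card_univ, hfixed, ← hcardD] at h4
  · obtain ⟨n, hn⟩ : ∃ n, Fintype.card X = n + 2 := ⟨Fintype.card X - 2, by omega⟩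
    rw [hn] at h4 ⊢
    have h5 : n + 2 - 1 = n + 1 := by omega
    have h6 : n + 2 - 2 = n := by omega
    rw [h5, h6] at h4
    rw [h5]
    nlinarith
  · rw [disjoint_left]
    intro g hg hg'
    simp only [mem_filter, mem_univ, true_and] at hg hg'
    obtain ⟨_, a, ha⟩ := hg
    exact hg' a ha
  · simp only [mem_union, mem_filter, mem_univ, true_and, not_or]
    refine ⟨fun h => h.1 rfl, fun h => h b₀ (one_smul _ _)⟩

/-- in a sharply 2-transitive finite group the fixed point free elements and the identity form a
subgroup -/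
theorem kernel_of_sharp (h2 : TwoTrans D X) (hX : 2 ≤ Fintype.card X)
    (hsharp : ∀ g : D, ∀ a b : X, a ≠ b → g • a = a → g • b = b → g = 1) :
    ∃ N : Subgroup D, ∀ g : D, g ∈ N ↔ g = 1 ∨ ∀ a : X, g • a ≠ a := by
  classical
  obtain ⟨hcardD, hfree⟩ := card_of_sharp h2 hX hsharp
  obtain ⟨p, e, hp, he, hpe⟩ := (isPrimePow_nat_iff _).1 (primePow_of_sharp h2 hX hsharp)
  have : Fact p.Prime := ⟨hp⟩
  obtain ⟨S⟩ : Nonempty (Sylow p D) := inferInstance
  have hpX : p ∣ Fintype.card X := by
    rw [← hpe]
    exact dvd_pow_self p he.ne'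
  have hScard : Nat.card S = Fintype.card X := by
    rw [S.card_eq_multiplicity, Nat.card_eq_fintype_card, ← hcardD, ← hpe,
      Nat.factorization_mul (by rw [hpe]; omega) (by rw [hpe]; omega), Finsupp.add_apply,
      hp.factorization_pow, Finsupp.single_eq_same]
    have h3 : (p ^ e - 1).factorization p = 0 := by
      apply Nat.factorization_eq_zero_of_not_dvd
      intro hd
      have h4 : p ∣ p ^ e := dvd_pow_self p he.ne'
      have h5 : p ∣ 1 := by
        have h6 := Nat.dvd_sub h4 hd
        have h7 : p ^ e - (p ^ e - 1) = 1 := by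
          have : 1 ≤ p ^ e := Nat.one_le_pow _ _ hp.pos
          omega
        rwa [h7] at h6
      exact hp.one_lt.ne' (Nat.dvd_one.1 h5)
    rw [h3, add_zero]
  have hSfree : ∀ g : D, g ∈ (S : Subgroup D) → g ≠ 1 → ∀ a : X, g • a ≠ a := by
    intro g hg hg1 a ha
    obtain ⟨n, hn⟩ := S.isPGroup' ⟨g, hg⟩
    have hgn : g ^ p ^ n = 1 := by
      have := congrArg Subtype.val hn
      simpa using this
    have h3 : (MulAction.toPerm g : Equiv.Perm X) ^ p ^ n = 1 := by
      have h4 : (MulAction.toPermHom D X) (g ^ p ^ n) = 1 := by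
        rw [hgn, map_one]
      rw [map_pow] at h4
      exact h4
    obtain ⟨b, hb, hba⟩ := Equiv.Perm.exists_fixed_point_of_prime' hpX h3 (a := a) ha
    exact hg1 (hsharp g a b (Ne.symm hba) ha hb)
  refine ⟨S, ?_⟩
  have h3 : (univ.filter fun g : D => g ∈ (S : Subgroup D)).erase 1
      = (univ.filter fun g : D => ∀ a : X, g • a ≠ a) := by
    apply eq_of_subset_of_card_le
    · intro g hg
      simp only [mem_erase, mem_filter, mem_univ, true_and] at hg ⊢
      exact hSfree g hg.2 hg.1
    · rw [hfree, card_erase_of_mem (by simpa using (S : Subgroup D).one_mem)]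
      have h4 : (univ.filter fun g : D => g ∈ (S : Subgroup D)).card = Nat.card S := by
        rw [Nat.card_eq_fintype_card]
        symm
        apply Fintype.card_of_subtype
        intro g
        simp
      rw [h4, hScard]
  intro g
  constructor
  · intro hg
    by_cases hg1 : g = 1
    · exact Or.inl hg1
    · exact Or.inr (hSfree g hg hg1)
  · rintro (rfl | hg)
    · exact (S : Subgroup D).one_mem
    · have h4 : g ∈ (univ.filter fun g : D => ∀ a : X, g • a ≠ a) := by simpa using hg
      rw [← h3] at h4
      simp only [mem_erase, mem_filter, mem_univ, true_and] at h4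
      exact h4.2

end

end Pool.Agent.Lib.MP67e184
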