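import Pool.Agent.Lib.MP_67e184_co.Dil
import Pool.Agent.Lib.MP_67e184_co.TwoTrans

/-!
# MP_67e184_co : groups of dilatations with large point stabilisers
-/

namespace Pool.Agent.Lib.MP67e184

open Finset

section
variable {P : Type*} [Fintype P] [DecidableEq P] {s r μ : ℕ} {cls : Fin r → Finset (Finset P)}

/-- the action of a group of dilatations on the blocks of one class -/
@[reducible] def actBlock (D : Subgroup (Equiv.Perm P)) (hD : ∀ g ∈ D, IsDilatation cls g) (c : Fin r) :
    MulAction D {B // B ∈ cls c} where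
  smul g B := ⟨B.1.image (g : Equiv.Perm P), hD g g.2 c B.1 B.2⟩
  one_smul B := by
    apply Subtype.ext
    change B.1.image ((1 : D) : Equiv.Perm P) = B.1
    simp
  mul_smul g k B := by
    apply Subtype.ext
    change B.1.image ((g * k : D) : Equiv.Perm P)
      = (B.1.image (k : Equiv.Perm P)).image (g : Equiv.Perm P)
    rw [image_image]
    rfl

theorem fx_eq_fb (D : Subgroup (Equiv.Perm P)) (hD : ∀ g ∈ D, IsDilatation cls g) (c : Fin r)
    (g : D) : letI := actBlock D hD c
    fx {B // B ∈ cls c} g = fb cls c (g : Equiv.Perm P) := by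
  letI := actBlock D hD c
  unfold fx fb
  refine card_bij (fun B _ => B.1) ?_ ?_ ?_
  · intro B hB
    rw [mem_filter] at hB ⊢
    exact ⟨B.2, congrArg Subtype.val hB.2⟩
  · intro B _ C _ he
    exact Subtype.ext he
  · intro B hB
    rw [mem_filter] at hB
    exact ⟨⟨B, hB.1⟩, mem_filter.2 ⟨mem_univ _, Subtype.ext hB.2⟩, rfl⟩

variable (h : IsCompleteNet s r μ cls) (hs : 2 ≤ s) (hμ : 1 ≤ μ) (D : Subgroup (Equiv.Perm P))
  (hD : ∀ g ∈ D, IsDilatation cls g)

include h hs hμ hD

/-- an element of `D` that fixes a point and a second block of some class is the identity -/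
theorem eq_one_of_fix_block {g : D} {x : P} (hx : (g : Equiv.Perm P) x = x) {c : Fin r}
    {B : Finset P} (hB : B ∈ cls c) (hne : B ≠ blk h c x)
    (hgB : B.image (g : Equiv.Perm P) = B) : g = 1 := by
  by_contra hg1
  have hg1' : (g : Equiv.Perm P) ≠ 1 := fun he => hg1 (Subtype.ext he)
  have h1 := fb_eq_one h hs hμ (hD g g.2) hg1' hx c
  unfold fb at h1
  obtain ⟨C, hC⟩ := card_eq_one.1 h1
  have h2 : B ∈ (cls c).filter fun B => B.image (g : Equiv.Perm P) = B := mem_filter.2 ⟨hB, hgB⟩
  have h3 : blk h c x ∈ (cls c).filter fun B => B.image (g : Equiv.Perm P) = B :=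
    mem_filter.2 ⟨blk_mem h c x, fixed_blk h (hD g g.2) hx c⟩
  rw [hC, mem_singleton] at h2 h3
  exact hne (h2.trans h3.symm)

theorem inj_stab {x : P} {c : Fin r} {B : Finset P} (hB : B ∈ cls c) (hne : B ≠ blk h c x) :
    Function.Injective fun g : MulAction.stabilizer D x =>
      B.image ((g : D) : Equiv.Perm P) := by
  intro g g' he
  have hgx : ((g : D) : Equiv.Perm P) x = x := g.2
  have hgx' : ((g' : D) : Equiv.Perm P) x = x := g'.2
  have h1 : ((g' : D)⁻¹ * (g : D) : D) = 1 := by
    refine eq_one_of_fix_block h hs hμ D hD (x := x) ?_ hB hne ?_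
    · rw [Subgroup.coe_mul, Equiv.Perm.mul_apply, hgx, Subgroup.coe_inv, Equiv.Perm.inv_eq_iff_eq]
      exact hgx'.symm
    · have h2 : B.image ((g : D) : Equiv.Perm P) = B.image ((g' : D) : Equiv.Perm P) := he
      have h3 : B.image (((g' : D)⁻¹ * (g : D) : D) : Equiv.Perm P)
          = (B.image ((g : D) : Equiv.Perm P)).image (((g' : D)⁻¹ : D) : Equiv.Perm P) := by
        rw [image_image]
        rfl
      rw [h3, h2, image_image]
      have h4 : ((((g' : D)⁻¹ : D) : Equiv.Perm P) : P → P) ∘ (((g' : D) : Equiv.Perm P) : P → P)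
          = id := by
        funext y
        simp
      rw [h4, image_id]
  apply Subtype.ext
  exact (inv_mul_eq_one.1 h1).symm

theorem image_ne_blk {g : D} {x : P} (hx : (g : Equiv.Perm P) x = x) {c : Fin r} {B : Finset P}
    (hB : B ∈ cls c) (hne : B ≠ blk h c x) : B.image (g : Equiv.Perm P) ≠ blk h c x := by
  intro he
  have h1 := fixed_blk h (hD g g.2) hx c
  rw [← h1] at he
  exact hne (image_injective (g : Equiv.Perm P).injective he)

theorem card_stab_le (x : P) : Nat.card (MulAction.stabilizer D x) ≤ s - 1 := by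
  classical
  have hr : 0 < r := by
    by_contra h0
    have h1 : r = 0 := by omega
    have h2 := h.complete
    rw [h1] at h2
    nlinarith
  let c : Fin r := ⟨0, hr⟩
  have hcard := card_cls h hs hμ c
  obtain ⟨B, hB, hne⟩ : ∃ B ∈ cls c, B ≠ blk h c x := by
    apply exists_mem_ne
    omega
  rw [Nat.card_eq_fintype_card, ← card_univ,
    ← card_image_of_injective univ (inj_stab h hs hμ D hD (x := x) hB hne)]
  have h1 : ((cls c).erase (blk h c x)).card = s - 1 := by
    rw [card_erase_of_mem (blk_mem h c x), hcard]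
  rw [← h1]
  apply card_le_card
  intro C hC
  obtain ⟨g, _, rfl⟩ := mem_image.1 hC
  rw [mem_erase]
  exact ⟨image_ne_blk h hs hμ D hD (g := (g : D)) g.2 hB hne, hD _ (g : D).2 c B hB⟩

/-- at a centre the stabiliser is transitive on the other blocks of every class -/
theorem trans_of_centre {x : P} (hx : Nat.card (MulAction.stabilizer D x) = s - 1) {c : Fin r}
    {B C : Finset P} (hB : B ∈ cls c) (hBne : B ≠ blk h c x) (hC : C ∈ cls c)
    (hCne : C ≠ blk h c x) : ∃ g : D, (g : Equiv.Perm P) x = x ∧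
      B.image (g : Equiv.Perm P) = C := by
  classical
  have h1 : Finset.image
      (fun g : MulAction.stabilizer D x => B.image ((g : D) : Equiv.Perm P)) univ
      = (cls c).erase (blk h c x) := by
    apply eq_of_subset_of_card_le
    · intro E hE
      obtain ⟨g, _, rfl⟩ := mem_image.1 hE
      rw [mem_erase]
      exact ⟨image_ne_blk h hs hμ D hD (g := (g : D)) g.2 hB hBne, hD _ (g : D).2 c B hB⟩
    · rw [card_image_of_injective univ (inj_stab h hs hμ D hD (x := x) hB hBne), card_univ,
        ← Nat.card_eq_fintype_card, hx, card_erase_of_mem (blk_mem h c x), card_cls h hs hμ]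
  have h2 : C ∈ (cls c).erase (blk h c x) := mem_erase.2 ⟨hCne, hC⟩
  rw [← h1] at h2
  obtain ⟨g, _, hg⟩ := mem_image.1 h2
  exact ⟨g, g.2, hg⟩

theorem twoTrans_of_centres (hs3 : 3 ≤ s) {x y : P}
    (hx : Nat.card (MulAction.stabilizer D x) = s - 1)
    (hy : Nat.card (MulAction.stabilizer D y) = s - 1) {c : Fin r}
    (hxy : blk h c x ≠ blk h c y) :
    letI := actBlock D hD c
    TwoTrans D {B // B ∈ cls c} := by
  letI := actBlock D hD c
  have hsm : ∀ (g : D) (B : {B // B ∈ cls c}), (g • B).1 = B.1.image (g : Equiv.Perm P) :=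
    fun _ _ => rfl
  let bx : {B // B ∈ cls c} := ⟨blk h c x, blk_mem h c x⟩
  let by' : {B // B ∈ cls c} := ⟨blk h c y, blk_mem h c y⟩
  have hne : bx ≠ by' := fun he => hxy (congrArg Subtype.val he)
  have hX : ∀ a b : {B // B ∈ cls c}, a ≠ bx → b ≠ bx → ∃ g : D, g • bx = bx ∧ g • a = b := by
    intro a b ha hb
    obtain ⟨g, hg1, hg2⟩ := trans_of_centre h hs hμ D hD hx a.2
      (fun he => ha (Subtype.ext he)) b.2 (fun he => hb (Subtype.ext he))
    exact ⟨g, Subtype.ext (fixed_blk h (hD g g.2) hg1 c), Subtype.ext hg2⟩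
  have hY : ∀ a b : {B // B ∈ cls c}, a ≠ by' → b ≠ by' → ∃ g : D, g • a = b := by
    intro a b ha hb
    obtain ⟨g, hg1, hg2⟩ := trans_of_centre h hs hμ D hD hy a.2
      (fun he => ha (Subtype.ext he)) b.2 (fun he => hb (Subtype.ext he))
    exact ⟨g, Subtype.ext hg2⟩
  have hcard : Fintype.card {B // B ∈ cls c} = s := by
    rw [Fintype.card_coe, card_cls h hs hμ]
  -- every block can be moved to `bx`
  have hto : ∀ a : {B // B ∈ cls c}, ∃ g : D, g • a = bx := by
    intro a
    by_cases ha : a = by'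
    · subst ha
      obtain ⟨d, hd⟩ : ∃ d : {B // B ∈ cls c}, d ∉ ({bx, by'} : Finset {B // B ∈ cls c}) := by
        by_contra hall
        push Not at hall
        have h1 : ({bx, by'} : Finset {B // B ∈ cls c}) = univ := eq_univ_of_forall hall
        have h2 := card_le_two (a := bx) (b := by')
        rw [h1, card_univ, hcard] at h2
        omega
      simp only [mem_insert, mem_singleton, not_or] at hd
      obtain ⟨g, _, hg⟩ := hX by' d (Ne.symm hne) hd.1
      obtain ⟨k, hk⟩ := hY d bx hd.2 hne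
      exact ⟨k * g, by rw [mul_smul, hg, hk]⟩
    · exact hY a bx ha hne
  have hto2 : ∀ a a' : {B // B ∈ cls c}, a ≠ a' → ∃ g : D, g • a = bx ∧ g • a' = by' := by
    intro a a' haa
    obtain ⟨g, hg⟩ := hto a
    have h1 : g • a' ≠ bx := by
      intro he
      rw [← hg] at he
      exact haa (MulAction.injective g he).symm
    obtain ⟨k, hk1, hk2⟩ := hX (g • a') by' h1 (Ne.symm hne)
    exact ⟨k * g, by rw [mul_smul, hg, hk1], by rw [mul_smul, hk2]⟩
  intro a a' b b' haa hbb
  obtain ⟨g, hg1, hg2⟩ := hto2 a a' haa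
  obtain ⟨k, hk1, hk2⟩ := hto2 b b' hbb
  refine ⟨k⁻¹ * g, ?_, ?_⟩
  · rw [mul_smul, hg1, inv_smul_eq_iff, hk1]
  · rw [mul_smul, hg2, inv_smul_eq_iff, hk2]

end

end Pool.Agent.Lib.MP67e184
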