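import Pool.Agent.Lib.MP_67e184_co.Centres

/-!
# MP_67e184_co : the quotient of a complete net by the translations of a group of dilatations
-/

namespace Pool.Agent.Lib.MP67e184

open Finset

theorem pow_of_dvd {s m : ℕ} (hm : 1 ≤ m) (hdvd : ∀ p : ℕ, p.Prime → p ∣ m → p ∣ s)
    (hpp : IsPrimePow s) (hmod : s - 1 ∣ m - 1) : ∃ j, m = s ^ j := by
  obtain ⟨q, a, hq, ha, rfl⟩ := (isPrimePow_nat_iff s).1 hpp
  have hμq : m = q ^ m.primeFactorsList.length := by
    apply Nat.eq_prime_pow_of_unique_prime_dvd (by omega)
    intro d hd hdμ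
    exact (Nat.prime_dvd_prime_iff_eq hd hq).1 (hd.dvd_of_dvd_pow (hdvd d hd hdμ))
  set b := m.primeFactorsList.length with hb
  have hq2 := hq.two_le
  rw [hμq] at hmod
  have h2 := Nat.pow_sub_one_gcd_pow_sub_one q a b
  rw [Nat.gcd_eq_left hmod] at h2
  have h3 : q ^ a = q ^ Nat.gcd a b := by
    have h4 : 1 ≤ q ^ a := Nat.one_le_pow _ _ (by omega)
    have h5 : 1 ≤ q ^ Nat.gcd a b := Nat.one_le_pow _ _ (by omega)
    omega
  have h4 : a = Nat.gcd a b := Nat.pow_right_injective hq2 h3
  obtain ⟨k, hk⟩ : a ∣ b := by
    rw [h4]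
    exact Nat.gcd_dvd_right a b
  refine ⟨k, ?_⟩
  rw [hμq, hk, pow_mul]

section
variable {P : Type*} [Fintype P] [DecidableEq P] {s r μ : ℕ} {cls : Fin r → Finset (Finset P)}

theorem exists_sep (h : IsCompleteNet s r μ cls) (hs : 2 ≤ s) (hμ : 1 ≤ μ) {x y : P}
    (hne : x ≠ y) : ∃ c : Fin r, blk h c x ≠ blk h c y := by
  by_contra hall
  push Not at hall
  have h1 : nn h x y = r := by
    unfold nn
    rw [filter_true_of_mem fun c _ => (mem_blk_iff h).2 (hall c), card_univ, Fintype.card_fin]
  have h2 := nn_eq h hs hne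
  have h3 := rel_r h hs
  rw [h1] at h2
  have h4 : (2 : ℤ) ≤ s := by exact_mod_cast hs
  have h5 : (1 : ℤ) ≤ μ := by exact_mod_cast hμ
  have h6 : (s : ℤ) * μ * (s - 1) = 0 := by linear_combination h2 - h3
  have h7 : (0 : ℤ) < s * μ * (s - 1) := by
    have : (0 : ℤ) < s - 1 := by linarith
    have h8 : (0 : ℤ) < s := by linarith
    positivity
  omega

/-- the set of the elements of `D` without fixed points and the identity is a subgroup -/
theorem exists_kernel (h : IsCompleteNet s r μ cls) (hs : 3 ≤ s) (hμ : 1 ≤ μ)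
    (D : Subgroup (Equiv.Perm P)) [Fintype D] (hD : ∀ g ∈ D, IsDilatation cls g) {x y : P}
    (hx : Nat.card (MulAction.stabilizer D x) = s - 1)
    (hy : Nat.card (MulAction.stabilizer D y) = s - 1) {c : Fin r}
    (hxy : blk h c x ≠ blk h c y) :
    ∃ K : Subgroup D, ∀ g : D, g ∈ K ↔ g ∉ fixers D (orb D x) := by
  classical
  obtain ⟨hfb, _⟩ := fb_zero_or h hs hμ D hD hx hy hxy
  have hcard : Fintype.card {B // B ∈ cls c} = s := by
    rw [Fintype.card_coe, card_cls h (by omega) hμ]
  letI := actBlock D hD c
  have h2t := twoTrans_of_centres h (by omega) hμ D hD hs hx hy hxy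
  let φ := MulAction.toPermHom D {B // B ∈ cls c}
  have : Fintype φ.range := Fintype.ofFinite _
  have hQ2 : TwoTrans φ.range {B // B ∈ cls c} := by
    intro a a' b b' ha hb
    obtain ⟨g, hg1, hg2⟩ := h2t a a' b b' ha hb
    exact ⟨⟨φ g, ⟨g, rfl⟩⟩, hg1, hg2⟩
  have hall : ∀ g : D, fb cls c (g : Equiv.Perm P) = s → φ g = 1 := by
    intro g hfs
    ext1 d
    change g • d = d
    have h1 : (univ.filter fun a : {B // B ∈ cls c} => g • a = a) = univ := by
      apply eq_univ_of_card
      rw [hcard, ← hfs, ← fx_eq_fb D hD c g]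
      rfl
    have h2 : d ∈ (univ.filter fun a : {B // B ∈ cls c} => g • a = a) := by
      rw [h1]
      exact mem_univ _
    exact (mem_filter.1 h2).2
  have hone : ∀ g : D, φ g = 1 → fb cls c (g : Equiv.Perm P) = s := by
    intro g hg
    rw [← fx_eq_fb D hD c g]
    unfold fx
    rw [filter_true_of_mem, card_univ, hcard]
    intro a _
    have : φ g a = a := by rw [hg]; rfl
    exact this
  have hA1 : ∀ g : D, g ∈ fixers D (orb D x) → fb cls c (g : Equiv.Perm P) = 1 := by
    intro g hg
    obtain ⟨hg1, z, _, hz⟩ := (mem_fixers D).1 hg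
    exact fb_eq_one h (by omega) hμ (hD g g.2) (fun he => hg1 (Subtype.ext he)) hz c
  have hsharp : ∀ q : φ.range, ∀ a b : {B // B ∈ cls c}, a ≠ b → q • a = a → q • b = b →
      q = 1 := by
    rintro ⟨q, ⟨g, rfl⟩⟩ a b hab ha hb
    have ha' : g • a = a := ha
    have hb' : g • b = b := hb
    have hfx2 : 2 ≤ fb cls c (g : Equiv.Perm P) := by
      rw [← fx_eq_fb D hD c g]
      unfold fx
      have h1 : ({a, b} : Finset {B // B ∈ cls c}) ⊆ univ.filter fun a => g • a = a := by
        intro d hd
        rw [mem_filter]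
        refine ⟨mem_univ _, ?_⟩
        rcases mem_insert.1 hd with rfl | hd
        · exact ha'
        · rw [mem_singleton] at hd
          subst hd
          exact hb'
      calc 2 = ({a, b} : Finset {B // B ∈ cls c}).card := (card_pair hab).symm
        _ ≤ _ := card_le_card h1
    have hgA : g ∉ fixers D (orb D x) := by
      intro hg
      have := hA1 g hg
      omega
    have hfs : fb cls c (g : Equiv.Perm P) = s := by
      rcases hfb g hgA with h1 | h1
      · omega
      · exact h1
    exact Subtype.ext (hall g hfs)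
  obtain ⟨N, hN⟩ := kernel_of_sharp (D := φ.range) hQ2 (by omega) hsharp
  refine ⟨N.comap φ.rangeRestrict, ?_⟩
  intro g
  rw [Subgroup.mem_comap, hN]
  constructor
  · intro hg hgA
    have h1 := hA1 g hgA
    rcases hg with hg | hg
    · have h2 := hone g (congrArg Subtype.val hg)
      omega
    · rw [← fx_eq_fb D hD c g] at h1
      unfold fx at h1
      obtain ⟨a, ha⟩ := card_eq_one.1 h1
      have h2 : a ∈ (univ.filter fun a : {B // B ∈ cls c} => g • a = a) := by
        rw [ha]
        exact mem_singleton_self a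
      exact hg a (mem_filter.1 h2).2
  · intro hgA
    rcases hfb g hgA with h1 | h1
    · right
      intro a ha
      rw [← fx_eq_fb D hD c g] at h1
      unfold fx at h1
      rw [card_eq_zero, filter_eq_empty_iff] at h1
      exact h1 (mem_univ a) ha
    · left
      exact Subtype.ext (hall g h1)

/-- in a class in which the orbit of `x` lies in one block, the elements without fixed points fix
every block -/
theorem fb_of_not_sep (h : IsCompleteNet s r μ cls) (hs : 3 ≤ s) (hμ : 1 ≤ μ)
    (D : Subgroup (Equiv.Perm P)) [Fintype D] (hD : ∀ g ∈ D, IsDilatation cls g) {x : P}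
    (hx : Nat.card (MulAction.stabilizer D x) = s - 1) {c : Fin r}
    (hc : ∀ g : D, blk h c ((g : Equiv.Perm P) x) = blk h c x) :
    ∀ g : D, g ∉ fixers D (orb D x) → fb cls c (g : Equiv.Perm P) = s := by
  classical
  set A := fixers D (orb D x) with hA
  have hAcard : A.card = (orb D x).card * (s - 2) :=
    card_fixers h (by omega) hμ D hD fun z hz => by rw [stab_of_mem_orb hz, hx]
  have hDcard : Fintype.card D = (orb D x).card * (s - 1) := by
    rw [← Nat.card_eq_fintype_card, ← card_orb D x, hx]
  have hcompl : (univ \ A).card = (orb D x).card := by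
    rw [card_sdiff_of_subset (subset_univ A), card_univ, hAcard, hDcard, ← Nat.mul_sub]
    have : s - 1 - (s - 2) = 1 := by omega
    rw [this, mul_one]
  have hfixx : ∀ g : D, (blk h c x).image (g : Equiv.Perm P) = blk h c x := by
    intro g
    have h1 := eq_blk h (hD g g.2 c _ (blk_mem h c x))
      (mem_image_of_mem (g : Equiv.Perm P) (mem_blk h c x))
    rw [h1, hc g]
  -- total number of fixed blocks
  have hsum : ∑ g : D, fb cls c (g : Equiv.Perm P) = 2 * Fintype.card D := by
    unfold fb
    simp_rw [card_filter]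
    rw [sum_comm, ← add_sum_erase _ _ (blk_mem h c x)]
    have h1 : (∑ g : D, if (blk h c x).image (g : Equiv.Perm P) = blk h c x then 1 else 0)
        = Fintype.card D := by
      rw [sum_congr rfl fun g _ => if_pos (hfixx g), sum_const, card_univ, smul_eq_mul, mul_one]
    rw [h1]
    have h2 : ∀ B ∈ (cls c).erase (blk h c x),
        (∑ g : D, if B.image (g : Equiv.Perm P) = B then 1 else 0) * (s - 1)
          = Fintype.card D := by
      intro B hB
      rw [mem_erase] at hB
      rw [← card_filter]
      have h3 : Fintype.card D = ∑ C ∈ (cls c).erase (blk h c x),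
          (univ.filter fun g : D => B.image (g : Equiv.Perm P) = C).card := by
        rw [← card_univ]
        apply card_eq_sum_card_fiberwise
        intro g _
        rw [mem_coe, mem_erase]
        refine ⟨?_, hD g g.2 c B hB.2⟩
        intro he
        have h4 := hfixx g
        rw [← h4] at he
        exact hB.1 (image_injective (g : Equiv.Perm P).injective he)
      have h5 : ∀ C ∈ (cls c).erase (blk h c x),
          (univ.filter fun g : D => B.image (g : Equiv.Perm P) = C).card
            = (univ.filter fun g : D => B.image (g : Equiv.Perm P) = B).card := by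
        intro C hC
        rw [mem_erase] at hC
        obtain ⟨k, _, hk⟩ := trans_of_centre h (by omega) hμ D hD hx hB.2 hB.1 hC.2 hC.1
        refine card_bij (fun g _ => k⁻¹ * g) ?_ ?_ ?_
        · intro g hg
          simp only [mem_filter, mem_univ, true_and] at hg ⊢
          have h6 : B.image ((k⁻¹ * g : D) : Equiv.Perm P)
              = (B.image (g : Equiv.Perm P)).image ((k⁻¹ : D) : Equiv.Perm P) := by
            rw [image_image]
            rfl
          rw [h6, hg, ← hk, image_image]
          have h7 : (((k⁻¹ : D) : Equiv.Perm P) : P → P) ∘ ((k : Equiv.Perm P) : P → P)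
              = id := by
            funext y
            simp
          rw [h7, image_id]
        · intro g _ g' _ he
          exact mul_left_cancel he
        · intro g hg
          simp only [mem_filter, mem_univ, true_and] at hg
          refine ⟨k * g, ?_, by simp⟩
          simp only [mem_filter, mem_univ, true_and]
          have h6 : B.image ((k * g : D) : Equiv.Perm P)
              = (B.image (g : Equiv.Perm P)).image (k : Equiv.Perm P) := by
            rw [image_image]
            rfl
          rw [h6, hg, hk]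
      rw [h3, sum_congr rfl h5, sum_const, card_erase_of_mem (blk_mem h c x),
        card_cls h (by omega) hμ, smul_eq_mul, mul_comm]
    have h8 : (∑ B ∈ (cls c).erase (blk h c x),
        ∑ g : D, if B.image (g : Equiv.Perm P) = B then 1 else 0) = Fintype.card D := by
      have h9 : (∑ B ∈ (cls c).erase (blk h c x),
          ∑ g : D, if B.image (g : Equiv.Perm P) = B then 1 else 0) * (s - 1)
          = Fintype.card D * (s - 1) := by
        rw [sum_mul, sum_congr rfl h2, sum_const, card_erase_of_mem (blk_mem h c x),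
          card_cls h (by omega) hμ, smul_eq_mul, mul_comm]
      exact Nat.eq_of_mul_eq_mul_right (by omega) h9
    rw [h8]
    ring
  have hA1 : ∀ g ∈ A, fb cls c (g : Equiv.Perm P) = 1 := by
    intro g hg
    obtain ⟨hg1, z, _, hz⟩ := (mem_fixers D).1 hg
    exact fb_eq_one h (by omega) hμ (hD g g.2) (fun he => hg1 (Subtype.ext he)) hz c
  have hsplit : ∑ g ∈ univ \ A, fb cls c (g : Equiv.Perm P) + A.card = 2 * Fintype.card D := by
    rw [← hsum, ← sum_sdiff (subset_univ A), sum_congr (s₁ := A) rfl hA1, sum_const, smul_eq_mul,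
      mul_one]
  have hle : ∀ g ∈ univ \ A, fb cls c (g : Equiv.Perm P) ≤ s := by
    intro g _
    unfold fb
    calc _ ≤ (cls c).card := card_filter_le _ _
      _ = s := card_cls h (by omega) hμ c
  have hk : ∑ g ∈ univ \ A, fb cls c (g : Equiv.Perm P) = ∑ _g ∈ univ \ A, s := by
    rw [sum_const, hcompl, smul_eq_mul]
    obtain ⟨t, ht⟩ : ∃ t, s = t + 3 := ⟨s - 3, by omega⟩
    rw [hAcard, hDcard, ht] at hsplit
    have h6 : t + 3 - 2 = t + 1 := by omega
    have h7 : t + 3 - 1 = t + 2 := by omega
    rw [h6, h7] at hsplit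
    rw [ht]
    nlinarith
  intro g hg
  exact (sum_eq_sum_iff_of_le hle).1 hk g (mem_sdiff.2 ⟨mem_univ _, hg⟩)

end

end Pool.Agent.Lib.MP67e184
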