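import Pool.Agent.Lib.MP_67e184_co.Quot

/-!
# MP_67e184_co : the quotient net
-/

universe u

namespace Pool.Agent.Lib.MP67e184

open Finset

/-- The parameters `(s, μ)` are classical of type (a) for a prime power `s`. -/
def PowerOf (s μ : ℕ) : Prop := ∃ d, 2 ≤ d ∧ μ = s ^ (d - 2)

section
variable {P : Type*} [Fintype P] [DecidableEq P] {s r μ : ℕ} {cls : Fin r → Finset (Finset P)}

/-- the data collected so far -/
theorem kernel_data (h : IsCompleteNet s r μ cls) (hs : 3 ≤ s) (hμ : 1 ≤ μ)
    (D : Subgroup (Equiv.Perm P)) (hD : ∀ g ∈ D, IsDilatation cls g) {x : P}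
    (hx : Nat.card (MulAction.stabilizer D x) = s - 1)
    (hmove : ∃ g : D, (g : Equiv.Perm P) x ≠ x) :
    IsPrimePow s ∧ ∃ (K : Subgroup D) (S : Finset (Fin r)),
      Nat.card K = (orb D x).card ∧
      (∀ g : D, g ∈ K → ∀ z, (g : Equiv.Perm P) z = z → g = 1) ∧
      (∀ c, c ∈ S ↔ ∀ g : D, blk h c ((g : Equiv.Perm P) x) = blk h c x) ∧
      (∀ c ∈ S, ∀ B ∈ cls c, ∀ g : D, g ∈ K → B.image (g : Equiv.Perm P) = B) ∧
      (orb D x).card * (S.card * (s - 1) + 1) = s ^ 2 * μ := by
  classical
  have : Fintype D := Fintype.ofFinite _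
  obtain ⟨g₀, hg₀⟩ := hmove
  set y := (g₀ : Equiv.Perm P) x with hy0
  have hyO : y ∈ orb D x := mem_orb.2 ⟨g₀, rfl⟩
  have hy : Nat.card (MulAction.stabilizer D y) = s - 1 := by rw [stab_of_mem_orb hyO, hx]
  obtain ⟨c₀, hc₀⟩ := exists_sep h (by omega) hμ (Ne.symm hg₀)
  have hpp := primePow_of_centres h hs hμ D hD (Ne.symm hg₀) hx hy
  refine ⟨hpp, ?_⟩
  obtain ⟨K, hK⟩ := exists_kernel h hs hμ D hD hx hy hc₀
  set A := fixers D (orb D x) with hA
  have hAcard : A.card = (orb D x).card * (s - 2) :=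
    card_fixers h (by omega) hμ D hD fun z hz => by rw [stab_of_mem_orb hz, hx]
  have hDcard : Fintype.card D = (orb D x).card * (s - 1) := by
    rw [← Nat.card_eq_fintype_card, ← card_orb D x, hx]
  have h1A : (1 : D) ∈ univ \ A := by
    rw [mem_sdiff]
    exact ⟨mem_univ _, fun h1 => ((mem_fixers D).1 h1).1 rfl⟩
  have hcompl : (univ \ A).card = (orb D x).card := by
    rw [card_sdiff_of_subset (subset_univ A), card_univ, hAcard, hDcard, ← Nat.mul_sub]
    have : s - 1 - (s - 2) = 1 := by omega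
    rw [this, mul_one]
  have hKcard : Nat.card K = (orb D x).card := by
    rw [← hcompl, Nat.card_eq_fintype_card]
    apply Fintype.card_of_subtype
    intro g
    rw [mem_sdiff, ← hK g]
    exact ⟨fun hg => hg.2, fun hg => ⟨mem_univ _, hg⟩⟩
  have hnofix : ∀ g : D, g ∉ A → g ≠ 1 → ∀ z, (g : Equiv.Perm P) z ≠ z := by
    intro g hg hg1 z hz
    have h3 := (fb_zero_or h hs hμ D hD hx hy hc₀).1 g hg
    have h4 := fb_eq_one h (by omega) hμ (hD g g.2) (fun he => hg1 (Subtype.ext he)) hz c₀
    omega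
  let S : Finset (Fin r) :=
    univ.filter fun c => ∀ g : D, blk h c ((g : Equiv.Perm P) x) = blk h c x
  have hS : ∀ c, c ∈ S ↔ ∀ g : D, blk h c ((g : Equiv.Perm P) x) = blk h c x := by
    intro c
    simp [S]
  have hfbS : ∀ c ∈ S, ∀ g : D, g ∉ A → fb cls c (g : Equiv.Perm P) = s := by
    intro c hc
    exact fb_of_not_sep h hs hμ D hD hx ((hS c).1 hc)
  refine ⟨K, S, hKcard, ?_, hS, ?_, ?_⟩
  · intro g hg z hz
    by_contra hg1
    exact hnofix g ((hK g).1 hg) hg1 z hz
  · intro c hc B hB g hg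
    have h3 := hfbS c hc g ((hK g).1 hg)
    unfold fb at h3
    have h4 : ((cls c).filter fun B => B.image (g : Equiv.Perm P) = B) = cls c := by
      apply eq_of_subset_of_card_le (filter_subset _ _)
      rw [h3, card_cls h (by omega) hμ]
    rw [← h4] at hB
    exact (mem_filter.1 hB).2
  · -- the count
    have hsum1 : ∑ g ∈ univ \ A, ∑ c, fb cls c (g : Equiv.Perm P)
        = S.card * (s * (orb D x).card) + (r - S.card) * (orb D x).card := by
      rw [sum_comm, ← sum_sdiff (subset_univ S), add_comm]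
      congr 1
      · have h3 : ∀ c ∈ S, ∑ g ∈ univ \ A, fb cls c (g : Equiv.Perm P)
            = s * (orb D x).card := by
          intro c hc
          rw [sum_congr rfl fun g hg => hfbS c hc g (mem_sdiff.1 hg).2, sum_const, hcompl,
            smul_eq_mul, mul_comm]
        rw [sum_congr rfl h3, sum_const, smul_eq_mul]
      · have h3 : ∀ c ∈ univ \ S, ∑ g ∈ univ \ A, fb cls c (g : Equiv.Perm P)
            = (orb D x).card := by
          intro c hc
          have hc' : ∃ g : D, blk h c ((g : Equiv.Perm P) x) ≠ blk h c x := by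
            by_contra hall
            push Not at hall
            exact (mem_sdiff.1 hc).2 ((hS c).2 hall)
          obtain ⟨g, hg⟩ := hc'
          have hgO : (g : Equiv.Perm P) x ∈ orb D x := mem_orb.2 ⟨g, rfl⟩
          exact (fb_zero_or h hs hμ D hD hx (by rw [stab_of_mem_orb hgO, hx]) (Ne.symm hg)).2
        rw [sum_congr rfl h3, sum_const, card_sdiff_of_subset (subset_univ S), card_univ,
          Fintype.card_fin, smul_eq_mul]
    have hsumg : ∀ g ∈ (univ \ A).erase 1, ∑ c, fb cls c (g : Equiv.Perm P) + 1 = r := by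
      intro g hg
      rw [mem_erase, mem_sdiff] at hg
      have h3 := sum_fb h (by omega) hμ (g : Equiv.Perm P) (hD g g.2)
      have h4 : fp (g : Equiv.Perm P) = 0 := by
        unfold fp
        rw [card_eq_zero, filter_eq_empty_iff]
        intro z _
        exact hnofix g hg.2.2 hg.1 z
      rw [h4] at h3
      omega
    have hsum11 : ∑ c, fb cls c ((1 : D) : Equiv.Perm P) = r * s := by
      have h3 : ∀ c ∈ (univ : Finset (Fin r)), fb cls c ((1 : D) : Equiv.Perm P) = s := by
        intro c _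
        unfold fb
        rw [filter_true_of_mem, card_cls h (by omega) hμ]
        intro B _
        simp
      rw [sum_congr rfl h3, sum_const, card_univ, Fintype.card_fin, smul_eq_mul]
    have hkpos : 0 < (orb D x).card := card_pos.2 ⟨x, self_mem_orb D x⟩
    have hrS : S.card ≤ r := by
      calc S.card ≤ (univ : Finset (Fin r)).card := card_le_card (subset_univ S)
        _ = r := by rw [card_univ, Fintype.card_fin]
    have hrpos : 1 ≤ r := by
      have := c₀.2
      omega
    have hsumg' : ∑ g ∈ (univ \ A).erase 1, ∑ c, fb cls c (g : Equiv.Perm P)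
        = ((orb D x).card - 1) * (r - 1) := by
      have h6 : ∀ g ∈ (univ \ A).erase 1, ∑ c, fb cls c (g : Equiv.Perm P) = r - 1 := by
        intro g hg
        have := hsumg g hg
        omega
      rw [sum_congr rfl h6, sum_const, card_erase_of_mem h1A, hcompl, smul_eq_mul]
    rw [← add_sum_erase _ _ h1A, hsum11, hsumg'] at hsum1
    have hc := h.complete
    obtain ⟨k, hk⟩ : ∃ k, (orb D x).card = k + 1 := ⟨(orb D x).card - 1, by omega⟩
    obtain ⟨r', hr'⟩ : ∃ r', r = S.card + r' := ⟨r - S.card, by omega⟩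
    obtain ⟨t, ht⟩ : ∃ t, s = t + 1 := ⟨s - 1, by omega⟩
    obtain ⟨q, hq⟩ : ∃ q, r = q + 1 := ⟨r - 1, by omega⟩
    rw [← hc, hk]
    rw [hk] at hsum1
    have e1 : k + 1 - 1 = k := by omega
    have e2 : r - S.card = r' := by omega
    have e3 : s - 1 = t := by omega
    have e4 : r - 1 = q := by omega
    rw [e1, e2, e4] at hsum1
    rw [e3]
    rw [ht] at hsum1
    have h5 : S.card + r' = r := hr'.symm
    zify at hsum1 h5 hq ⊢
    linear_combination (-1 : ℤ) * hsum1 - ((k : ℤ) + 1) * h5 - (k : ℤ) * hq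

variable (h : IsCompleteNet s r μ cls) (K : Subgroup (Equiv.Perm P))

/-- the number of points of an invariant set is `|K|` times the number of its orbits -/
theorem card_image_orb [DecidableEq (Quotient (MulAction.orbitRel K P))]
    (hK : ∀ g ∈ K, ∀ z, g z = z → g = 1) (B : Finset P)
    (hB : ∀ g ∈ K, B.image g = B) :
    (B.image (Quotient.mk (MulAction.orbitRel K P))).card * Nat.card K = B.card := by
  classical
  have : Fintype K := Fintype.ofFinite _
  have h1 : B.card = ∑ q ∈ B.image (Quotient.mk (MulAction.orbitRel K P)),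
      (B.filter fun z => Quotient.mk (MulAction.orbitRel K P) z = q).card :=
    card_eq_sum_card_fiberwise fun z hz => mem_coe.2 (mem_image_of_mem _ (mem_coe.1 hz))
  have h2 : ∀ q ∈ B.image (Quotient.mk (MulAction.orbitRel K P)),
      (B.filter fun z => Quotient.mk (MulAction.orbitRel K P) z = q).card = Nat.card K := by
    intro q hq
    obtain ⟨w, hw, rfl⟩ := mem_image.1 hq
    rw [Nat.card_eq_fintype_card, ← card_univ,
      ← card_image_of_injective (univ : Finset K) (f := fun g : K => (g : Equiv.Perm P) w)]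
    · congr 1
      ext z
      simp only [mem_filter, mem_image, mem_univ, true_and]
      constructor
      · rintro ⟨_, hz⟩
        have h3 : z ∈ MulAction.orbit K w := Quotient.exact hz
        obtain ⟨g, hg⟩ := h3
        exact ⟨g, hg⟩
      · rintro ⟨g, rfl⟩
        refine ⟨?_, Quotient.sound ⟨g, rfl⟩⟩
        rw [← hB g g.2]
        exact mem_image_of_mem _ hw
    · intro g g' he
      have he' : (g : Equiv.Perm P) w = (g' : Equiv.Perm P) w := he
      have h3 : ((g' : Equiv.Perm P)⁻¹ * (g : Equiv.Perm P)) = 1 := by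
        apply hK _ (K.mul_mem (K.inv_mem g'.2) g.2) w
        rw [Equiv.Perm.mul_apply, he', Equiv.Perm.inv_eq_iff_eq]
      exact Subtype.ext (inv_mul_eq_one.1 h3).symm
  rw [h1, sum_congr rfl h2, sum_const, smul_eq_mul]

/-- the quotient net -/
theorem quotient_net {P : Type u} [Fintype P] [DecidableEq P] {s r μ : ℕ}
    {cls : Fin r → Finset (Finset P)} (h : IsCompleteNet s r μ cls) (hs : 2 ≤ s) (hμ : 1 ≤ μ)
    (K : Subgroup (Equiv.Perm P)) (hK : ∀ g ∈ K, ∀ z, g z = z → g = 1) (S : Finset (Fin r))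
    (hS : ∀ c ∈ S, ∀ B ∈ cls c, ∀ g ∈ K, B.image g = B)
    (hcount : Nat.card K * (S.card * (s - 1) + 1) = s ^ 2 * μ) (hS2 : 2 ≤ S.card) :
    ∃ μ', μ = Nat.card K * μ' ∧ 1 ≤ μ' ∧ ∃ (P' : Type u) (_ : Fintype P') (_ : DecidableEq P')
      (cls' : Fin S.card → Finset (Finset P')), IsCompleteNet s S.card μ' cls' := by
  classical
  have : Fintype K := Fintype.ofFinite _
  have hKpos : 0 < Nat.card K := Nat.card_pos
  have hPpos : 0 < Fintype.card P := by
    rw [h.card_points]
    positivity
  obtain ⟨p₀⟩ := Fintype.card_pos_iff.1 hPpos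
  let π : P → Quotient (MulAction.orbitRel K P) := Quotient.mk (MulAction.orbitRel K P)
  have hinter : ∀ B C : Finset P, (∀ g ∈ K, B.image g = B) → (∀ g ∈ K, C.image g = C) →
      ∀ g ∈ K, (B ∩ C).image g = B ∩ C := by
    intro B C hB hC g hg
    rw [image_inter _ _ g.injective, hB g hg, hC g hg]
  -- `|K|` divides `μ`
  obtain ⟨c, hc, d, hd, hcd⟩ := one_lt_card.1 (by omega : 1 < S.card)
  have hdiv : Nat.card K ∣ μ := by
    have h1 := card_image_orb K hK _ (hinter _ _ (hS c hc _ (blk_mem h c p₀))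
      (hS d hd _ (blk_mem h d p₀)))
    rw [h.meet c d hcd _ (blk_mem h c p₀) _ (blk_mem h d p₀)] at h1
    exact ⟨_, by rw [← h1, mul_comm]⟩
  obtain ⟨μ', hμ'⟩ := hdiv
  have hμ'pos : 1 ≤ μ' := by
    rcases Nat.eq_zero_or_pos μ' with h0 | h0
    · rw [h0, mul_zero] at hμ'
      omega
    · exact h0
  refine ⟨μ', hμ', hμ'pos, Quotient (MulAction.orbitRel K P), inferInstance,
    inferInstance, fun i => (cls (S.equivFin.symm i)).image fun B => B.image π, ?_⟩
  have hmemS : ∀ i : Fin S.card, ((S.equivFin.symm i : S) : Fin r) ∈ S := fun i =>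
    (S.equivFin.symm i).2
  -- membership in the image of an invariant set
  have hmem : ∀ (B : Finset P), (∀ g ∈ K, B.image g = B) → ∀ w, π w ∈ B.image π → w ∈ B := by
    intro B hB w hw
    obtain ⟨z, hz, hzw⟩ := mem_image.1 hw
    have h3 : w ∈ MulAction.orbit K z := Quotient.exact hzw.symm
    obtain ⟨g, rfl⟩ := h3
    rw [← hB g g.2]
    exact mem_image_of_mem _ hz
  have hK1 : ∀ a b : ℕ, a * Nat.card K = Nat.card K * b → a = b := by
    intro a b hab
    rw [mul_comm] at hab
    exact Nat.eq_of_mul_eq_mul_left hKpos hab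
  refine ⟨?_, ?_, ?_, ?_, ?_⟩
  · have h1 := card_image_orb K hK univ (fun g _ => by simp)
    rw [card_univ, h.card_points, hμ'] at h1
    have h2 : (univ : Finset P).image (Quotient.mk (MulAction.orbitRel K P)) = univ := by
      apply eq_univ_of_forall
      intro q
      obtain ⟨z, rfl⟩ := Quotient.exists_rep q
      exact mem_image_of_mem _ (mem_univ z)
    rw [h2, card_univ] at h1
    apply hK1
    rw [show (s ^ 2 * (Nat.card K * μ')) = Nat.card K * (s ^ 2 * μ') by ring] at h1
    exact h1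
  · intro i B' hB'
    obtain ⟨B, hB, rfl⟩ := mem_image.1 hB'
    have h1 := card_image_orb K hK B (hS _ (hmemS i) B hB)
    rw [h.card_block _ B hB, hμ'] at h1
    apply hK1
    rw [show s * (Nat.card K * μ') = Nat.card K * (s * μ') by ring] at h1
    exact h1
  · intro i q
    obtain ⟨w, rfl⟩ := Quotient.exists_rep q
    refine ⟨(blk h (S.equivFin.symm i) w).image π,
      ⟨mem_image_of_mem _ (blk_mem h _ w), mem_image_of_mem _ (mem_blk h _ w)⟩, ?_⟩
    rintro C' ⟨hC', hw⟩
    obtain ⟨C, hC, rfl⟩ := mem_image.1 hC'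
    have h1 := hmem C (hS _ (hmemS i) C hC) w hw
    rw [← eq_blk h hC h1]
  · intro i j hij B' hB' C' hC'
    obtain ⟨B, hB, rfl⟩ := mem_image.1 hB'
    obtain ⟨C, hC, rfl⟩ := mem_image.1 hC'
    have hne : ((S.equivFin.symm i : S) : Fin r) ≠ ((S.equivFin.symm j : S) : Fin r) := by
      intro he
      exact hij (S.equivFin.symm.injective (Subtype.ext he))
    have hBi := hS _ (hmemS i) B hB
    have hCi := hS _ (hmemS j) C hC
    have h1 : B.image π ∩ C.image π = (B ∩ C).image π := by
      ext q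
      obtain ⟨w, rfl⟩ := Quotient.exists_rep q
      constructor
      · intro hq
        rw [mem_inter] at hq
        exact mem_image_of_mem _ (mem_inter.2 ⟨hmem B hBi w hq.1, hmem C hCi w hq.2⟩)
      · intro hq
        have h2 := hmem _ (hinter B C hBi hCi) w hq
        rw [mem_inter] at h2 ⊢
        exact ⟨mem_image_of_mem _ h2.1, mem_image_of_mem _ h2.2⟩
    rw [h1]
    have h2 := card_image_orb K hK _ (hinter B C hBi hCi)
    rw [h.meet _ _ hne B hB C hC, hμ'] at h2
    exact hK1 _ _ h2
  · rw [hμ'] at hcount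
    have h1 : Nat.card K * (S.card * (s - 1) + 1) = Nat.card K * (s ^ 2 * μ') := by
      rw [hcount]
      ring
    exact Nat.eq_of_mul_eq_mul_left hKpos h1

/-- Main theorem on groups of dilatations. -/
theorem dilatation_theorem {P : Type u} [Fintype P] [DecidableEq P] {s r μ : ℕ}
    {cls : Fin r → Finset (Finset P)} (h : IsCompleteNet s r μ cls) (hs : 3 ≤ s) (hμ : 1 ≤ μ)
    (D : Subgroup (Equiv.Perm P)) (hD : ∀ g ∈ D, IsDilatation cls g) (x : P)
    (hx : Nat.card (MulAction.stabilizer D x) = s - 1) (hmove : ∃ g ∈ D, g x ≠ x) :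
    IsPrimePow s ∧ (∃ j, 1 ≤ j ∧ Nat.card (MulAction.orbit D x) = s ^ j) ∧
      (PowerOf s μ ∨ ∃ μ', μ = Nat.card (MulAction.orbit D x) * μ' ∧ 1 ≤ μ' ∧ ¬ PowerOf s μ' ∧
        ∃ (P' : Type u) (_ : Fintype P') (_ : DecidableEq P') (r' : ℕ)
          (cls' : Fin r' → Finset (Finset P')), IsCompleteNet s r' μ' cls') ∧
      ((∀ c, ∀ B ∈ cls c, ∃ g ∈ D, g x ∉ B) → (∀ y z : P, ∃ g ∈ D, g y = z) ∧ PowerOf s μ) := by
  classical
  obtain ⟨g₀, hg₀, hg₀x⟩ := hmove
  obtain ⟨hpp, K, S, hKcard, hKfree, hSmem, hSinv, hcount⟩ :=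
    kernel_data h hs hμ D hD hx ⟨⟨g₀, hg₀⟩, hg₀x⟩
  have horbcard : Nat.card (MulAction.orbit D x) = (orb D x).card := by
    have : Fintype (MulAction.orbit D x) := Fintype.ofFinite _
    rw [Nat.card_eq_fintype_card]
    apply Fintype.card_of_subtype
    intro z
    rw [mem_orb]
    rfl
  have hkpos : 0 < (orb D x).card := card_pos.2 ⟨x, self_mem_orb D x⟩
  have hk2 : 2 ≤ (orb D x).card := by
    have h1 : ({x, g₀ x} : Finset P) ⊆ orb D x := by
      intro z hz
      rcases mem_insert.1 hz with rfl | hz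
      · exact self_mem_orb D z
      · rw [mem_singleton] at hz
        rw [hz]
        exact mem_orb.2 ⟨⟨g₀, hg₀⟩, rfl⟩
    calc 2 = ({x, g₀ x} : Finset P).card := (card_pair (Ne.symm hg₀x)).symm
      _ ≤ _ := card_le_card h1
  -- primes dividing `|K|` divide `s`
  have hkdvd : ∀ p : ℕ, p.Prime → p ∣ (orb D x).card → p ∣ s := by
    intro p hp hpk
    by_contra hps
    have : Fact p.Prime := ⟨hp⟩
    rw [← hKcard] at hpk
    obtain ⟨g, hg⟩ := exists_prime_orderOf_dvd_card' p hpk
    have hgp : ((g : D) : Equiv.Perm P) ^ p ^ 1 = 1 := by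
      have h3 := pow_orderOf_eq_one g
      rw [hg] at h3
      have h4 := congrArg Subtype.val (congrArg Subtype.val h3)
      simpa using h4
    have haut : IsAut cls ((g : D) : Equiv.Perm P) := fun c B hB =>
      ⟨c, hD _ (g : D).2 c B hB⟩
    obtain ⟨z, hz⟩ := exists_fixed_point h (by omega) hμ hp hps ((g : D) : Equiv.Perm P) haut hgp
    have h5 : (g : D) = 1 := hKfree _ g.2 z hz
    have h6 : g = 1 := Subtype.ext h5
    rw [h6, orderOf_one] at hg
    exact hp.one_lt.ne hg
  -- the order of `K` is a power of `s`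
  have hmod : s - 1 ∣ (orb D x).card - 1 := by
    have hc := h.complete
    have h1 : ((s - 1 : ℕ) : ℤ) ∣ (((orb D x).card - 1 : ℕ) : ℤ) := by
      refine ⟨(r : ℤ) - (orb D x).card * S.card, ?_⟩
      have h2 : ((orb D x).card : ℤ) * (S.card * ((s - 1 : ℕ) : ℤ) + 1) = s ^ 2 * μ := by
        exact_mod_cast hcount
      have h3 : (r : ℤ) * ((s - 1 : ℕ) : ℤ) + 1 = s ^ 2 * μ := by exact_mod_cast hc
      rw [Nat.cast_sub (by omega : 1 ≤ (orb D x).card)]
      push_cast
      linear_combination h2 - h3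
    exact_mod_cast h1
  obtain ⟨j, hj⟩ := pow_of_dvd (by omega) hkdvd hpp hmod
  have hj1 : 1 ≤ j := by
    rcases Nat.eq_zero_or_pos j with h0 | h0
    · rw [h0, pow_zero] at hj
      omega
    · exact h0
  have hclass : ∀ m, (∀ p : ℕ, p.Prime → p ∣ m → p ∣ s) → m = μ → PowerOf s μ := by
    rintro m hm rfl
    exact classical_of_dvd h (by omega) hμ hm hpp
  refine ⟨hpp, ⟨j, hj1, by rw [horbcard, hj]⟩, ?_, ?_⟩
  · by_cases hS2 : 2 ≤ S.card
    · -- quotient net
      let K' : Subgroup (Equiv.Perm P) := K.map D.subtype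
      have hK'card : Nat.card K' = (orb D x).card := by
        rw [← hKcard]
        exact (Nat.card_congr (K.equivMapOfInjective D.subtype D.subtype_injective).toEquiv).symm
      have hK'free : ∀ g ∈ K', ∀ z, g z = z → g = 1 := by
        rintro g ⟨g', hg', rfl⟩ z hz
        have := hKfree g' hg' z hz
        rw [this]
        rfl
      have hK'S : ∀ c ∈ S, ∀ B ∈ cls c, ∀ g ∈ K', B.image g = B := by
        rintro c hc B hB g ⟨g', hg', rfl⟩
        exact hSinv c hc B hB g' hg'
      obtain ⟨μ', hμ', hμ'1, P', i1, i2, cls', hnet⟩ := quotient_net h (by omega) hμ K' hK'free S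
        hK'S (by rw [hK'card]; exact hcount) hS2
      rw [hK'card] at hμ'
      by_cases hcl : PowerOf s μ'
      · left
        apply hclass μ _ rfl
        intro p hp hpμ
        rw [hμ'] at hpμ
        rcases (Nat.Prime.dvd_mul hp).1 hpμ with h1 | h1
        · exact hkdvd p hp h1
        · obtain ⟨d, _, hd⟩ := hcl
          rw [hd] at h1
          exact hp.dvd_of_dvd_pow h1
      · right
        exact ⟨μ', by rw [horbcard]; exact hμ', hμ'1, hcl, P', i1, i2, S.card, cls', hnet⟩
    · left
      apply hclass μ _ rfl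
      intro p hp hpμ
      have h1 : S.card = 0 ∨ S.card = 1 := by omega
      have h2 : p ∣ (orb D x).card * (S.card * (s - 1) + 1) := by
        rw [hcount]
        exact Dvd.dvd.mul_left hpμ _
      rcases (Nat.Prime.dvd_mul hp).1 h2 with h3 | h3
      · exact hkdvd p hp h3
      · rcases h1 with h1 | h1
        · rw [h1, zero_mul, zero_add] at h3
          exact absurd (Nat.dvd_one.1 h3) hp.one_lt.ne'
        · rw [h1, one_mul, Nat.sub_add_cancel (by omega)] at h3
          exact h3
  · intro hblock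
    have hS0 : S.card = 0 := by
      rw [card_eq_zero, eq_empty_iff_forall_notMem]
      intro c hc
      obtain ⟨g, hg, hgx⟩ := hblock c _ (blk_mem h c x)
      apply hgx
      rw [mem_blk_iff h]
      exact ((hSmem c).1 hc ⟨g, hg⟩).symm
    rw [hS0, zero_mul, zero_add, mul_one] at hcount
    have horb : orb D x = univ := by
      apply eq_univ_of_card
      rw [hcount, h.card_points]
    constructor
    · intro y z
      have hy : y ∈ orb D x := by rw [horb]; exact mem_univ _
      have hz : z ∈ orb D x := by rw [horb]; exact mem_univ _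
      obtain ⟨g, hg⟩ := mem_orb.1 hy
      obtain ⟨k, hk⟩ := mem_orb.1 hz
      refine ⟨(k : Equiv.Perm P) * (g : Equiv.Perm P)⁻¹, D.mul_mem k.2 (D.inv_mem g.2), ?_⟩
      rw [Equiv.Perm.mul_apply, ← hg, ← hk]
      congr 1
      rw [Equiv.Perm.inv_eq_iff_eq]
    · apply hclass μ _ rfl
      intro p hp hpμ
      apply hkdvd p hp
      rw [hcount]
      exact Dvd.dvd.mul_left hpμ _

end

end Pool.Agent.Lib.MP67e184
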