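import Pool.Agent.Lib.MP_67e184_co.TNet

/-!
# MP_67e184_co : character sums of the blocks
-/

set_option linter.unusedSectionVars false

namespace Pool.Agent.Lib.MP67e184

open Finset
open scoped Pointwise

section
variable {A : Type*} [CommGroup A] [Fintype A] [DecidableEq A]

/-- character sum over a subgroup -/
theorem char_sum (χ : A →* ℂˣ) (K : Subgroup A) [DecidablePred (· ∈ K)] :
    (Tr K χ → ∑ a : A, (if a ∈ K then (χ a : ℂ) else 0) = Nat.card K) ∧
    (¬ Tr K χ → ∑ a : A, (if a ∈ K then (χ a : ℂ) else 0) = 0) := by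
  constructor
  · intro h
    have h1 : ∀ a : A, (if a ∈ K then (χ a : ℂ) else 0) = if a ∈ K then 1 else 0 := by
      intro a
      split_ifs with ha
      · rw [h a ha]
        rfl
      · rfl
    simp only [h1]
    rw [← Finset.sum_filter, Finset.sum_const, nsmul_eq_mul, mul_one, Nat.card_eq_fintype_card,
      Fintype.card_subtype]
  · intro h
    unfold Tr at h
    push Not at h
    obtain ⟨g, hg, hχ⟩ := h
    have h1 : ∑ a : A, (if a ∈ K then (χ a : ℂ) else 0) =
        (χ g : ℂ) * ∑ a : A, (if a ∈ K then (χ a : ℂ) else 0) := by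
      have h2 := Equiv.sum_comp (Equiv.mulLeft g) (fun a : A => if a ∈ K then (χ a : ℂ) else 0)
      refine h2.symm.trans ?_
      rw [Finset.mul_sum]
      refine Finset.sum_congr rfl fun a _ => ?_
      simp only [Equiv.coe_mulLeft, Subgroup.mul_mem_cancel_left K hg, map_mul, Units.val_mul]
      split_ifs
      · rfl
      · rw [mul_zero]
    have h2 : (1 - (χ g : ℂ)) * ∑ a : A, (if a ∈ K then (χ a : ℂ) else 0) = 0 := by
      linear_combination h1
    rcases mul_eq_zero.1 h2 with h3 | h3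
    · exfalso
      apply hχ
      apply Units.ext
      rw [Units.val_one]
      linear_combination -h3
    · exact h3

theorem char_sum_all {χ : A →* ℂˣ} (h : χ ≠ 1) : ∑ a : A, (χ a : ℂ) = 0 := by
  classical
  have h1 := (char_sum χ ⊤).2 (by
    intro h'
    apply h
    ext a
    rw [h' a (Subgroup.mem_top a)]
    rfl)
  simpa using h1

/-- character sum of a set -/
noncomputable def X (χ : A →* ℂˣ) (B : Finset A) : ℂ := ∑ b ∈ B, (χ b : ℂ)

theorem conj_char (χ : A →* ℂˣ) (a : A) : (starRingEnd ℂ) (χ a : ℂ) = ((χ a)⁻¹ : ℂˣ) := by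
  have h1 : (χ a : ℂ) ^ Nat.card A = 1 := by
    rw [← Units.val_pow_eq_pow_val, ← map_pow, pow_card_eq_one', map_one, Units.val_one]
  have h2 : ‖(χ a : ℂ)‖ = 1 := Complex.norm_eq_one_of_pow_eq_one h1 Nat.card_pos.ne'
  rw [Units.val_inv_eq_inv_val, Complex.inv_eq_conj h2]

theorem X_mul (χ : A →* ℂˣ) (B C : Finset A) :
    X χ B * (starRingEnd ℂ) (X χ C) = ∑ a : A, (χ a : ℂ) * ((B ∩ a • C).card : ℂ) := by
  have h1 : ∀ a : A, (χ a : ℂ) * ((B ∩ a • C).card : ℂ) =
      ∑ x ∈ B, if a⁻¹ * x ∈ C then (χ a : ℂ) else 0 := by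
    intro a
    rw [← Finset.filter_mem_eq_inter, Finset.card_filter, Nat.cast_sum, Finset.mul_sum]
    refine Finset.sum_congr rfl fun x _ => ?_
    simp only [TN.mem_smul_iff]
    split_ifs <;> simp
  simp only [h1]
  rw [Finset.sum_comm]
  unfold X
  rw [Finset.sum_mul]
  refine Finset.sum_congr rfl fun x _ => ?_
  rw [map_sum, Finset.mul_sum, ← Finset.sum_filter]
  symm
  refine Finset.sum_bij' (fun a _ => a⁻¹ * x) (fun y _ => x * y⁻¹) ?_ ?_ ?_ ?_ ?_
  · intro a ha
    exact (mem_filter.1 ha).2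
  · intro y hy
    rw [mem_filter]
    refine ⟨mem_univ _, ?_⟩
    have : (x * y⁻¹)⁻¹ * x = y := by group
    rw [this]
    exact hy
  · intro a _
    group
  · intro y _
    group
  · intro a _
    rw [conj_char, ← Units.val_mul, ← map_inv, ← map_mul]
    congr 2
    group

variable {s r μ : ℕ} {cls : Fin r → Finset (Finset A)}

namespace TN

/-- blocks of classes in different orbits -/
theorem X_orth (h : TN s r μ cls) {χ : A →* ℂˣ} (hχ : χ ≠ 1) {c d : Fin r} {B C : Finset A}
    (hB : B ∈ cls c) (hC : C ∈ cls d) (hno : ∀ a : A, a • C ∉ cls c) :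
    X χ B * (starRingEnd ℂ) (X χ C) = 0 := by
  rw [X_mul]
  have h1 : ∀ a : A, (χ a : ℂ) * ((B ∩ a • C).card : ℂ) = (χ a : ℂ) * μ := by
    intro a
    obtain ⟨e, he⟩ := h.inv a d C hC
    rw [h.card_meet hB he, if_neg, if_neg (hno a)]
    intro h'
    exact hno a (h' ▸ hB)
  simp only [h1]
  rw [← Finset.sum_mul, char_sum_all hχ, zero_mul]

/-- norm of the character sum of a block -/
theorem X_self (h : TN s r μ cls) {χ : A →* ℂˣ} (hχ : χ ≠ 1) (c : Fin r)
    (hX : X χ (h.blk c) ≠ 0) : Tr (h.S c) χ ∧ ¬ Tr (h.H c) χ := by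
  classical
  have hne : X χ (h.blk c) * (starRingEnd ℂ) (X χ (h.blk c)) ≠ 0 :=
    mul_ne_zero hX (fun h' => hX ((map_eq_zero _).1 h'))
  rw [X_mul] at hne
  have hB := h.blk_mem c
  have h1 : ∀ a : A, (χ a : ℂ) * ((h.blk c ∩ a • h.blk c).card : ℂ) =
      (χ a : ℂ) * μ - μ * (if a ∈ h.H c then (χ a : ℂ) else 0) +
        s * μ * (if a ∈ h.S c then (χ a : ℂ) else 0) := by
    intro a
    obtain ⟨e, he⟩ := h.inv a c _ hB
    rw [h.card_meet hB he]
    by_cases h3 : h.blk c = a • h.blk c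
    · rw [if_pos h3, if_pos (h.mem_S.2 h3.symm), if_pos ((h.mem_H hB).2 (h3 ▸ hB))]
      push_cast
      ring
    · rw [if_neg h3, if_neg (show ¬ (a ∈ h.S c) from fun h' => h3 (h.mem_S.1 h').symm)]
      by_cases h4 : a • h.blk c ∈ cls c
      · rw [if_pos h4, if_pos ((h.mem_H hB).2 h4)]
        push_cast
        ring
      · rw [if_neg h4, if_neg (fun h' => h4 ((h.mem_H hB).1 h'))]
        ring
  simp only [h1] at hne
  rw [Finset.sum_add_distrib, Finset.sum_sub_distrib, ← Finset.sum_mul, char_sum_all hχ, zero_mul,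
    ← Finset.mul_sum, ← Finset.mul_sum] at hne
  have hSH := h.S_le_H c
  by_cases hH : Tr (h.H c) χ
  · exfalso
    have hS : Tr (h.S c) χ := hH.mono hSH
    rw [(char_sum χ (h.H c)).1 hH, (char_sum χ (h.S c)).1 hS, h.card_H c] at hne
    apply hne
    push_cast
    ring
  · refine ⟨?_, hH⟩
    by_contra hS
    rw [(char_sum χ (h.H c)).2 hH, (char_sum χ (h.S c)).2 hS] at hne
    apply hne
    ring

/-- the character sum of a block does not vanish for the characters of its class -/
theorem X_ne (h : TN s r μ cls) {χ : A →* ℂˣ} (c : Fin r) (hS : Tr (h.S c) χ)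
    (hH : ¬ Tr (h.H c) χ) : X χ (h.blk c) ≠ 0 := by
  classical
  have hχ : χ ≠ 1 := ne_one_of_not_Tr hH
  intro h0
  have hne : X χ (h.blk c) * (starRingEnd ℂ) (X χ (h.blk c)) = 0 := by rw [h0, zero_mul]
  rw [X_mul] at hne
  have hB := h.blk_mem c
  have h1 : ∀ a : A, (χ a : ℂ) * ((h.blk c ∩ a • h.blk c).card : ℂ) =
      (χ a : ℂ) * μ - μ * (if a ∈ h.H c then (χ a : ℂ) else 0) +
        s * μ * (if a ∈ h.S c then (χ a : ℂ) else 0) := by
    intro a
    obtain ⟨e, he⟩ := h.inv a c _ hB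
    rw [h.card_meet hB he]
    by_cases h3 : h.blk c = a • h.blk c
    · rw [if_pos h3, if_pos (h.mem_S.2 h3.symm), if_pos ((h.mem_H hB).2 (h3 ▸ hB))]
      push_cast
      ring
    · rw [if_neg h3, if_neg (show ¬ (a ∈ h.S c) from fun h' => h3 (h.mem_S.1 h').symm)]
      by_cases h4 : a • h.blk c ∈ cls c
      · rw [if_pos h4, if_pos ((h.mem_H hB).2 h4)]
        push_cast
        ring
      · rw [if_neg h4, if_neg (fun h' => h4 ((h.mem_H hB).1 h'))]
        ring
  simp only [h1] at hne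
  rw [Finset.sum_add_distrib, Finset.sum_sub_distrib, ← Finset.sum_mul, char_sum_all hχ, zero_mul,
    ← Finset.mul_sum, ← Finset.mul_sum, (char_sum χ (h.H c)).2 hH, (char_sum χ (h.S c)).1 hS,
    mul_zero, sub_zero, zero_add] at hne
  have hs := h.hs
  have hμ := h.mu_pos
  have hs0 : (s : ℂ) ≠ 0 := by
    have : s ≠ 0 := by omega
    exact_mod_cast this
  have hμ0 : (μ : ℂ) ≠ 0 := by
    have : μ ≠ 0 := by omega
    exact_mod_cast this
  have hS0 : (Nat.card (h.S c) : ℂ) ≠ 0 := by
    exact_mod_cast (Nat.card_pos (α := h.S c)).ne'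
  exact mul_ne_zero (mul_ne_zero hs0 hμ0) hS0 hne

/-- number of the classes whose block through `1` contains `y` -/
noncomputable def lam (h : TN s r μ cls) (y : A) : ℕ := (univ.filter fun c => y ∈ h.blk c).card

theorem lam_one (h : TN s r μ cls) : h.lam 1 = r := by
  unfold lam
  rw [Finset.filter_true_of_mem (fun c _ => h.one_mem_blk c), card_univ, Fintype.card_fin]

theorem lam_eq (h : TN s r μ cls) (y : A) : h.lam y = ∑ c, if y ∈ h.blk c then 1 else 0 := by
  unfold lam
  rw [Finset.card_filter]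

theorem sum_lam (h : TN s r μ cls) : ∑ y : A, h.lam y = r * (s * μ) := by
  simp only [h.lam_eq]
  rw [Finset.sum_comm]
  have h1 : ∀ c ∈ (univ : Finset (Fin r)), ∑ y : A, (if y ∈ h.blk c then 1 else 0) = s * μ := by
    intro c _
    rw [← Finset.card_filter, Finset.filter_univ_mem]
    exact h.cardB c _ (h.blk_mem c)
  rw [Finset.sum_congr rfl h1, Finset.sum_const, card_univ, Fintype.card_fin, smul_eq_mul]

theorem sum_lam_sq (h : TN s r μ cls) :
    ∑ y : A, h.lam y ^ 2 = r * (s * μ) + r * (r - 1) * μ := by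
  have h1 : ∀ y : A, h.lam y ^ 2 =
      ∑ c, ∑ d, if y ∈ h.blk c ∩ h.blk d then 1 else 0 := by
    intro y
    rw [h.lam_eq, pow_two, Finset.sum_mul_sum]
    refine Finset.sum_congr rfl fun c _ => Finset.sum_congr rfl fun d _ => ?_
    by_cases h1 : y ∈ h.blk c <;> by_cases h2 : y ∈ h.blk d <;> simp [h1, h2]
  simp only [h1]
  rw [Finset.sum_comm]
  have h2 : ∀ c ∈ (univ : Finset (Fin r)), ∑ y : A, ∑ d, (if y ∈ h.blk c ∩ h.blk d then 1 else 0) =
      s * μ + (r - 1) * μ := by
    intro c _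
    rw [Finset.sum_comm]
    have h3 : ∀ d ∈ (univ : Finset (Fin r)), ∑ y : A, (if y ∈ h.blk c ∩ h.blk d then 1 else 0) =
        if d = c then s * μ else μ := by
      intro d _
      rw [← Finset.card_filter, Finset.filter_univ_mem]
      split_ifs with h4
      · rw [h4, inter_self]
        exact h.cardB c _ (h.blk_mem c)
      · exact h.meet c d (fun h' => h4 h'.symm) _ (h.blk_mem c) _ (h.blk_mem d)
    rw [Finset.sum_congr rfl h3, ← Finset.add_sum_erase _ _ (mem_univ c), if_pos rfl]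
    congr 1
    rw [Finset.sum_congr rfl (fun d hd => if_neg (Finset.ne_of_mem_erase hd)), Finset.sum_const,
      card_erase_of_mem (mem_univ c), card_univ, Fintype.card_fin, smul_eq_mul]
  rw [Finset.sum_congr rfl h2, Finset.sum_const, card_univ, Fintype.card_fin, smul_eq_mul]
  ring

/-- a complete net is a 2-design -/
theorem lam_const (h : TN s r μ cls) {y : A} (hy : y ≠ 1) :
    ((s : ℤ) - 1) * h.lam y = s * μ - 1 := by
  have hs := h.hs
  have hμ := h.mu_pos
  have hc := h.compl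
  have hr : 1 ≤ r := by
    rcases Nat.eq_zero_or_pos r with h0 | h0
    · rw [h0, zero_mul] at hc
      have : 4 ≤ s ^ 2 := by nlinarith
      nlinarith
    · exact h0
  have e1 : (r : ℤ) * ((s : ℤ) - 1) + 1 = s ^ 2 * μ := by
    have := congrArg (Nat.cast : ℕ → ℤ) hc
    push_cast [Nat.cast_sub (show 1 ≤ s by omega)] at this
    exact this
  have e2 : ∑ y : A, (h.lam y : ℤ) = r * (s * μ) := by
    exact_mod_cast h.sum_lam
  have e3 : ∑ y : A, (h.lam y : ℤ) ^ 2 = r * (s * μ) + r * ((r : ℤ) - 1) * μ := by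
    have := congrArg (Nat.cast : ℕ → ℤ) h.sum_lam_sq
    push_cast [Nat.cast_sub hr] at this
    exact this
  have e4 : ∑ y : A, (((s : ℤ) - 1) * h.lam y - (s * μ - 1)) ^ 2 =
      (((s : ℤ) - 1) * r - (s * μ - 1)) ^ 2 := by
    have h1 : ∀ y : A, (((s : ℤ) - 1) * h.lam y - (s * μ - 1)) ^ 2 =
        ((s : ℤ) - 1) ^ 2 * (h.lam y : ℤ) ^ 2 - 2 * ((s : ℤ) - 1) * (s * μ - 1) * h.lam y +
          (s * μ - 1) ^ 2 := by
      intro y
      ring
    simp only [h1]
    rw [Finset.sum_add_distrib, Finset.sum_sub_distrib, ← Finset.mul_sum, ← Finset.mul_sum, e2, e3,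
      Finset.sum_const, card_univ, h.cardA, nsmul_eq_mul]
    push_cast
    linear_combination (((s : ℤ) - 1) * (μ - 1) * r - (s * μ - 1) ^ 2) * e1
  have e5 : ∀ z ∈ (univ : Finset A).erase 1, (((s : ℤ) - 1) * h.lam z - (s * μ - 1)) ^ 2 = 0 := by
    rw [← Finset.add_sum_erase _ _ (mem_univ (1 : A)), h.lam_one] at e4
    have h2 : ∑ z ∈ (univ : Finset A).erase 1, (((s : ℤ) - 1) * h.lam z - (s * μ - 1)) ^ 2 = 0 := by
      linarith
    exact (Finset.sum_eq_zero_iff_of_nonneg (fun z _ => sq_nonneg _)).1 h2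
  have e6 := e5 y (mem_erase.2 ⟨hy, mem_univ y⟩)
  have e7 := pow_eq_zero_iff (two_ne_zero) |>.1 e6
  linarith

/-- every nontrivial character is nonzero on some block -/
theorem exists_X (h : TN s r μ cls) {χ : A →* ℂˣ} (hχ : χ ≠ 1) : ∃ c, X χ (h.blk c) ≠ 0 := by
  by_contra hcon
  push Not at hcon
  have h1 : ∑ c, X χ (h.blk c) = ∑ y : A, (h.lam y : ℂ) * (χ y : ℂ) := by
    unfold X
    have h2 : ∀ c ∈ (univ : Finset (Fin r)), ∑ b ∈ h.blk c, (χ b : ℂ) =
        ∑ y : A, if y ∈ h.blk c then (χ y : ℂ) else 0 := by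
      intro c _
      rw [← Finset.sum_filter, Finset.filter_univ_mem]
    rw [Finset.sum_congr rfl h2, Finset.sum_comm]
    refine Finset.sum_congr rfl fun y _ => ?_
    rw [h.lam_eq, Nat.cast_sum, Finset.sum_mul]
    refine Finset.sum_congr rfl fun c _ => ?_
    split_ifs <;> simp
  rw [Finset.sum_eq_zero (fun c _ => hcon c)] at h1
  have h2 : ∑ y : A, ((s : ℂ) - 1) * ((h.lam y : ℂ) * (χ y : ℂ)) = 0 := by
    rw [← Finset.mul_sum, ← h1, mul_zero]
  rw [← Finset.add_sum_erase _ _ (mem_univ (1 : A)), h.lam_one, map_one, Units.val_one] at h2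
  have h3 : ∀ y ∈ (univ : Finset A).erase 1, ((s : ℂ) - 1) * ((h.lam y : ℂ) * (χ y : ℂ)) =
      (s * μ - 1) * (χ y : ℂ) := by
    intro y hy
    have h4 := h.lam_const (Finset.ne_of_mem_erase hy)
    have h5 : ((s : ℂ) - 1) * (h.lam y : ℂ) = s * μ - 1 := by exact_mod_cast h4
    rw [← mul_assoc, h5]
  rw [Finset.sum_congr rfl h3, ← Finset.mul_sum] at h2
  have h6 := char_sum_all hχ
  rw [← Finset.add_sum_erase _ _ (mem_univ (1 : A)), map_one, Units.val_one] at h6
  have h7 : ∑ y ∈ (univ : Finset A).erase 1, (χ y : ℂ) = -1 := by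
    linear_combination h6
  rw [h7] at h2
  have hs := h.hs
  have hμ := h.mu_pos
  have e1 : (r : ℂ) * ((s : ℂ) - 1) + 1 = s ^ 2 * μ := by
    have := congrArg (Nat.cast : ℕ → ℂ) h.compl
    push_cast [Nat.cast_sub (show 1 ≤ s by omega)] at this
    exact this
  have h8 : (s : ℂ) * μ * (s - 1) = 0 := by
    linear_combination h2 - e1
  have hs0 : (s : ℂ) ≠ 0 := by
    have : s ≠ 0 := by omega
    exact_mod_cast this
  have hμ0 : (μ : ℂ) ≠ 0 := by
    have : μ ≠ 0 := by omega
    exact_mod_cast this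
  have hs1 : (s : ℂ) - 1 ≠ 0 := by
    have : (s : ℂ) ≠ 1 := by
      have : s ≠ 1 := by omega
      exact_mod_cast this
    exact sub_ne_zero.2 this
  exact mul_ne_zero (mul_ne_zero hs0 hμ0) hs1 h8

/-- the stabilisers form a partition structure on the characters -/
theorem part_SH (h : TN s r μ cls) : Part h.S h.H s := by
  refine ⟨h.S_le_H, h.card_H, ?_, ?_⟩
  · intro χ hχ
    obtain ⟨c, hc⟩ := h.exists_X hχ
    exact ⟨c, h.X_self hχ c hc⟩
  · intro i j χ hi1 hi2 hj1 hj2
    have hχ : χ ≠ 1 := ne_one_of_not_Tr hi2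
    have hXi := h.X_ne i hi1 hi2
    have hXj := h.X_ne j hj1 hj2
    obtain ⟨a, ha⟩ : ∃ a : A, a • h.blk j ∈ cls i := by
      by_contra hcon
      push Not at hcon
      have h1 := h.X_orth hχ (h.blk_mem i) (h.blk_mem j) hcon
      rcases mul_eq_zero.1 h1 with h2 | h2
      · exact hXi h2
      · exact hXj ((map_eq_zero _).1 h2)
    constructor
    · -- the block stabilisers
      obtain ⟨x, hx⟩ : ∃ x : A, x • h.blk i = a • h.blk j := by
        have h1 := h.card_move (h.blk_mem i) ha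
        have h2 : 0 < Nat.card (h.H i) := Nat.card_pos
        rw [← h1] at h2
        have h3 := Nat.pos_of_mul_pos_left h2
        rw [Finset.card_pos] at h3
        obtain ⟨x, hx⟩ := h3
        exact ⟨x, (mem_filter.1 hx).2⟩
      ext g
      rw [h.mem_S, h.mem_S]
      constructor
      · intro h1
        have h2 : g • (x • h.blk i) = x • h.blk i := by
          rw [smul_comm, h1]
        rw [hx, smul_comm] at h2
        exact smul_left_cancel a h2
      · intro h1
        have h2 : g • (a • h.blk j) = a • h.blk j := by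
          rw [smul_comm, h1]
        rw [← hx, smul_comm] at h2
        exact smul_left_cancel x h2
    · ext g
      rw [h.mem_H ha, h.mem_H (h.blk_mem j)]
      obtain ⟨e, he⟩ := h.inv g j _ (h.blk_mem j)
      have h1 := h.par_smul (h.blk_mem j) he ha
      rw [smul_comm g a]
      rw [← h1]
      constructor
      · rintro rfl
        exact he
      · intro h2
        exact (h.par_iff h2 he).2 (Or.inl rfl)

end TN

end

end Pool.Agent.Lib.MP67e184
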