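import Pool.Agent.Lib.MP_67e184_co.Chain

/-!
# MP_67e184_co : translation invariant complete nets on an abelian group
-/

set_option linter.unusedSectionVars false

namespace Pool.Agent.Lib.MP67e184

open Finset
open scoped Pointwise

section
variable {A : Type*} [CommGroup A] [Fintype A] [DecidableEq A]

/-- a complete `(s, μ)`-net on the abelian group `A`, invariant under translations -/
structure TN (s r μ : ℕ) (cls : Fin r → Finset (Finset A)) : Prop where
  hs : 2 ≤ s
  cardA : Fintype.card A = s ^ 2 * μ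
  cardB : ∀ c, ∀ B ∈ cls c, B.card = s * μ
  part : ∀ c (x : A), ∃! B, B ∈ cls c ∧ x ∈ B
  meet : ∀ c d, c ≠ d → ∀ B ∈ cls c, ∀ C ∈ cls d, (B ∩ C).card = μ
  compl : r * (s - 1) + 1 = s ^ 2 * μ
  inv : ∀ (a : A) c, ∀ B ∈ cls c, ∃ d, a • B ∈ cls d

variable {s r μ : ℕ} {cls : Fin r → Finset (Finset A)}

namespace TN

theorem mu_pos (h : TN s r μ cls) : 1 ≤ μ := by
  have h1 : 0 < Fintype.card A := Fintype.card_pos
  rw [h.cardA] at h1
  exact Nat.pos_of_mul_pos_left h1

theorem eq_or_disj (h : TN s r μ cls) {c : Fin r} {B C : Finset A} (hB : B ∈ cls c)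
    (hC : C ∈ cls c) : B = C ∨ Disjoint B C := by
  by_cases hd : Disjoint B C
  · exact Or.inr hd
  · left
    rw [Finset.not_disjoint_iff] at hd
    obtain ⟨x, h1, h2⟩ := hd
    exact (h.part c x).unique ⟨hB, h1⟩ ⟨hC, h2⟩

theorem par_iff (h : TN s r μ cls) {c d : Fin r} {B C : Finset A} (hB : B ∈ cls c)
    (hC : C ∈ cls d) : c = d ↔ (B = C ∨ Disjoint B C) := by
  constructor
  · rintro rfl
    exact h.eq_or_disj hB hC
  · intro h1
    by_contra hne
    have h2 := h.meet c d hne B hB C hC
    have hμ := h.mu_pos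
    have hs := h.hs
    rcases h1 with rfl | h1
    · rw [inter_self, h.cardB c B hB] at h2
      nlinarith
    · rw [disjoint_iff_inter_eq_empty.1 h1, card_empty] at h2
      omega

theorem disj_smul (a : A) (B C : Finset A) : Disjoint (a • B) (a • C) ↔ Disjoint B C := by
  rw [disjoint_iff_inter_eq_empty, disjoint_iff_inter_eq_empty, ← smul_finset_inter]
  exact smul_finset_eq_empty

theorem par_smul (h : TN s r μ cls) {c d e : Fin r} {B C : Finset A} (hB : B ∈ cls c)
    (hC : C ∈ cls d) {a : A} (hB' : a • B ∈ cls e) : c = d ↔ a • C ∈ cls e := by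
  obtain ⟨f, hf⟩ := h.inv a d C hC
  have h1 : e = f ↔ (a • B = a • C ∨ Disjoint (a • B) (a • C)) := h.par_iff hB' hf
  rw [disj_smul, smul_left_cancel_iff] at h1
  rw [h.par_iff hB hC, ← h1]
  constructor
  · rintro rfl
    exact hf
  · intro h2
    exact (h.par_iff h2 hf).2 (Or.inl rfl)

/-- the class stabiliser -/
def H (h : TN s r μ cls) (c : Fin r) : Subgroup A where
  carrier := {a | ∀ B ∈ cls c, a • B ∈ cls c}
  mul_mem' := by
    intro a b ha hb B hB
    rw [mul_smul]
    exact ha _ (hb _ hB)
  one_mem' := by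
    intro B hB
    rw [one_smul]
    exact hB
  inv_mem' := by
    intro a ha B hB
    have h1 : a⁻¹ • (a • B) ∈ cls c := by
      rw [inv_smul_smul]
      exact hB
    exact (h.par_smul (ha B hB) hB h1).1 rfl

theorem mem_H (h : TN s r μ cls) {c : Fin r} {B : Finset A} (hB : B ∈ cls c) {a : A} :
    a ∈ h.H c ↔ a • B ∈ cls c := by
  constructor
  · intro ha
    exact ha B hB
  · intro h1 C hC
    exact (h.par_smul hB hC h1).1 rfl

theorem card_meet (h : TN s r μ cls) {c d : Fin r} {B C : Finset A} (hB : B ∈ cls c)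
    (hC : C ∈ cls d) : (B ∩ C).card = if B = C then s * μ else if C ∈ cls c then 0 else μ := by
  split_ifs with h1 h2
  · rw [← h1, inter_self, h.cardB c B hB]
  · rcases h.eq_or_disj hB h2 with h3 | h3
    · exact absurd h3 h1
    · rw [disjoint_iff_inter_eq_empty.1 h3, card_empty]
  · refine h.meet c d ?_ B hB C hC
    rintro rfl
    exact h2 hC

theorem mem_smul_iff (a : A) (B : Finset A) (x : A) : x ∈ a • B ↔ a⁻¹ * x ∈ B := by
  rw [← smul_eq_mul, Finset.inv_smul_mem_iff]

theorem sum_inter (B C : Finset A) : ∑ a : A, (B ∩ a • C).card = B.card * C.card := by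
  have h1 : ∀ a : A, (B ∩ a • C).card = ∑ x ∈ B, if a⁻¹ * x ∈ C then 1 else 0 := by
    intro a
    rw [← Finset.filter_mem_eq_inter, Finset.card_filter]
    refine Finset.sum_congr rfl fun x _ => ?_
    simp only [mem_smul_iff]
  simp only [h1]
  rw [Finset.sum_comm]
  have h2 : ∀ x ∈ B, ∑ a : A, (if a⁻¹ * x ∈ C then 1 else 0) = C.card := by
    intro x _
    rw [← Finset.card_filter]
    refine Finset.card_bij' (fun a _ => a⁻¹ * x) (fun y _ => x * y⁻¹) ?_ ?_ ?_ ?_
    · intro a ha
      exact (mem_filter.1 ha).2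
    · intro y hy
      rw [mem_filter]
      refine ⟨mem_univ _, ?_⟩
      have : (x * y⁻¹)⁻¹ * x = y := by group
      rw [this]
      exact hy
    · intro a _
      group
    · intro y _
      group
  rw [Finset.sum_congr rfl h2, Finset.sum_const, smul_eq_mul]

/-- the number of translations that move a block to a parallel block -/
theorem card_move (h : TN s r μ cls) {c : Fin r} {B C : Finset A} (hB : B ∈ cls c)
    (hC : C ∈ cls c) : s * (univ.filter fun a : A => a • B = C).card = Nat.card (h.H c) := by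
  classical
  have h1 := sum_inter C B
  have h2 : ∀ a : A, (C ∩ a • B).card + μ * (if a ∈ h.H c then 1 else 0) =
      s * μ * (if a • B = C then 1 else 0) + μ := by
    intro a
    obtain ⟨d, hd⟩ := h.inv a c B hB
    rw [h.card_meet hC hd]
    by_cases h3 : C = a • B
    · rw [if_pos h3, if_pos h3.symm, if_pos ((h.mem_H hB).2 (h3 ▸ hC))]
      ring
    · rw [if_neg h3, if_neg (show ¬ (a • B = C) from fun h' => h3 h'.symm)]
      by_cases h4 : a • B ∈ cls c
      · rw [if_pos h4, if_pos ((h.mem_H hB).2 h4)]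
        ring
      · rw [if_neg h4, if_neg (fun h' => h4 ((h.mem_H hB).1 h'))]
        ring
  have h3 := Finset.sum_congr (rfl : (univ : Finset A) = univ) (fun a _ => h2 a)
  rw [Finset.sum_add_distrib, Finset.sum_add_distrib, h1, ← Finset.mul_sum, ← Finset.mul_sum,
    ← Finset.card_filter, ← Finset.card_filter, Finset.sum_const, card_univ, h.cardA,
    h.cardB c B hB, h.cardB c C hC, smul_eq_mul] at h3
  have h4 : Nat.card (h.H c) = (univ.filter fun a : A => a ∈ h.H c).card := by
    rw [Nat.card_eq_fintype_card, Fintype.card_subtype]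
  rw [h4]
  have hμ := h.mu_pos
  have h5 : μ * (s * (univ.filter fun a : A => a • B = C).card) =
      μ * (univ.filter fun a : A => a ∈ h.H c).card := by
    have h6 : s * μ * (s * μ) = s ^ 2 * μ * μ := by ring
    have h7 : s * μ * (univ.filter fun a : A => a • B = C).card =
      μ * (s * (univ.filter fun a : A => a • B = C).card) := by ring
    rw [h6, h7] at h3
    omega
  exact Nat.eq_of_mul_eq_mul_left (by omega) h5

/-- the block of the class `c` through `1` -/
noncomputable def blk (h : TN s r μ cls) (c : Fin r) : Finset A := (h.part c 1).choose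

theorem blk_mem (h : TN s r μ cls) (c : Fin r) : h.blk c ∈ cls c :=
  (h.part c 1).choose_spec.1.1

theorem one_mem_blk (h : TN s r μ cls) (c : Fin r) : (1 : A) ∈ h.blk c :=
  (h.part c 1).choose_spec.1.2

/-- the block stabiliser -/
noncomputable def S (h : TN s r μ cls) (c : Fin r) : Subgroup A := MulAction.stabilizer A (h.blk c)

theorem mem_S (h : TN s r μ cls) {c : Fin r} {a : A} : a ∈ h.S c ↔ a • h.blk c = h.blk c :=
  MulAction.mem_stabilizer_iff

theorem S_le_H (h : TN s r μ cls) (c : Fin r) : h.S c ≤ h.H c := by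
  intro a ha
  rw [h.mem_H (h.blk_mem c), h.mem_S.1 ha]
  exact h.blk_mem c

theorem card_H (h : TN s r μ cls) (c : Fin r) : Nat.card (h.H c) = s * Nat.card (h.S c) := by
  classical
  rw [← h.card_move (h.blk_mem c) (h.blk_mem c)]
  congr 1
  rw [Nat.card_eq_fintype_card, Fintype.card_subtype]
  congr 1
  ext a
  simp only [mem_filter, mem_univ, true_and]
  exact h.mem_S.symm

end TN

end

end Pool.Agent.Lib.MP67e184
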