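import Pool.Agent.Lib.MP_67e184_co.TChar
import Pool.Agent.Lib.MP_67e184_co.Bjs

/-!
# MP_67e184_co : translation invariant complete nets have classical parameters
-/

set_option linter.unusedSectionVars false

namespace Pool.Agent.Lib.MP67e184

open Finset
open scoped Pointwise

section
variable {A : Type*} [CommGroup A] [Fintype A] [DecidableEq A]

/-- a set that is a union of cosets of `S` -/
theorem card_image_mk (S : Subgroup A) [DecidableEq (A ⧸ S)] (T : Finset A)
    (hT : ∀ t ∈ T, ∀ g ∈ S, t * g ∈ T) :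
    T.card = (T.image (fun a : A => (a : A ⧸ S))).card * Nat.card S := by
  classical
  rw [Finset.card_eq_sum_card_image (fun a : A => (a : A ⧸ S)) T, Finset.card_eq_sum_ones,
    Finset.sum_mul]
  refine Finset.sum_congr rfl fun q hq => ?_
  obtain ⟨t, ht, rfl⟩ := Finset.mem_image.1 hq
  rw [one_mul, Nat.card_eq_fintype_card, Fintype.card_subtype]
  refine Finset.card_bij' (fun a _ => t⁻¹ * a) (fun g _ => t * g) ?_ ?_ ?_ ?_
  · intro a ha
    rw [mem_filter] at ha
    rw [mem_filter]
    refine ⟨mem_univ _, ?_⟩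
    exact QuotientGroup.eq.1 ha.2.symm
  · intro g hg
    rw [mem_filter] at hg
    rw [mem_filter]
    refine ⟨hT t ht g hg.2, ?_⟩
    exact (QuotientGroup.eq.2 (by simpa using hg.2)).symm
  · intro a _
    group
  · intro g _
    group

variable {s r μ : ℕ} {cls : Fin r → Finset (Finset A)}

namespace TN

theorem blk_stable (h : TN s r μ cls) (c : Fin r) : ∀ t ∈ h.blk c, ∀ g ∈ h.S c, t * g ∈ h.blk c := by
  intro t ht g hg
  rw [h.mem_S] at hg
  rw [← hg, mem_smul_iff]
  have : g⁻¹ * (t * g) = t := by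
    rw [mul_comm t g]
    group
  rw [this]
  exact ht

/-- a class whose block stabiliser has order `μ` gives an affine plane of order `s` -/
theorem isPrimePow_of_card (h : TN s r μ cls) (c : Fin r) (hS : Nat.card (h.S c) = μ) :
    IsPrimePow s := by
  classical
  let _ : Fintype (A ⧸ h.S c) := Fintype.ofFinite _
  have hμ := h.mu_pos
  have hB := h.blk_mem c
  have hstab := h.blk_stable c
  have key : SRDS ((h.H c).map (QuotientGroup.mk' (h.S c)))
      ((h.blk c).image (fun a : A => (a : A ⧸ h.S c))) s := by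
    have hq : ∀ a : A, cq ((h.blk c).image (fun a : A => (a : A ⧸ h.S c))) (a : A ⧸ h.S c) * μ =
        (h.blk c ∩ a • h.blk c).card := by
      intro a
      rw [card_image_mk (h.S c) (h.blk c ∩ a • h.blk c), hS]
      · congr 1
        unfold cq
        refine Finset.card_bij' (fun z _ => z.1) (fun x _ => (x, (a : A ⧸ h.S c)⁻¹ * x)) ?_ ?_ ?_ ?_
        · rintro ⟨x, y⟩ hz
          simp only [mem_filter, mem_product] at hz
          obtain ⟨⟨hx, hy⟩, hxy⟩ := hz
          obtain ⟨b, hb, rfl⟩ := Finset.mem_image.1 hx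
          obtain ⟨b', hb', rfl⟩ := Finset.mem_image.1 hy
          refine Finset.mem_image.2 ⟨b, mem_inter.2 ⟨hb, ?_⟩, rfl⟩
          rw [mem_smul_iff]
          have h1 : ((b' : A) : A ⧸ h.S c) = ((a⁻¹ * b : A) : A ⧸ h.S c) := by
            rw [QuotientGroup.mk_mul, QuotientGroup.mk_inv, ← hxy]
            group
          have h2 := QuotientGroup.eq.1 h1
          have h3 := hstab b' hb' _ h2
          rwa [mul_inv_cancel_left] at h3
        · intro x hx
          obtain ⟨b, hb, rfl⟩ := Finset.mem_image.1 hx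
          rw [mem_inter, mem_smul_iff] at hb
          simp only [mem_filter, mem_product]
          refine ⟨⟨Finset.mem_image.2 ⟨b, hb.1, rfl⟩, Finset.mem_image.2 ⟨a⁻¹ * b, hb.2, ?_⟩⟩, ?_⟩
          · rw [QuotientGroup.mk_mul, QuotientGroup.mk_inv]
          · group
        · rintro ⟨x, y⟩ hz
          simp only [mem_filter, mem_product] at hz
          obtain ⟨-, hxy⟩ := hz
          simp only [Prod.mk.injEq, true_and]
          rw [← hxy]
          group
        · intro x _
          rfl
      · intro t ht g hg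
        rw [mem_inter, mem_smul_iff] at ht
        rw [mem_inter, mem_smul_iff]
        refine ⟨hstab t ht.1 g hg, ?_⟩
        rw [← mul_assoc]
        exact hstab _ ht.2 g hg
    constructor
    · have h1 := card_image_mk (h.S c) (univ : Finset A) (fun _ _ _ _ => mem_univ _)
      rw [Finset.image_univ_of_surjective (QuotientGroup.mk_surjective), card_univ, card_univ,
        h.cardA, hS] at h1
      exact (Nat.eq_of_mul_eq_mul_right (by omega) h1).symm
    · have h1 := card_image_mk (h.S c) (univ.filter fun a : A => a ∈ h.H c) (by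
        intro t ht g hg
        rw [mem_filter] at ht ⊢
        exact ⟨mem_univ _, mul_mem ht.2 (h.S_le_H c hg)⟩)
      have h2 : (univ.filter fun a : A => a ∈ h.H c).card = Nat.card (h.H c) := by
        rw [Nat.card_eq_fintype_card, Fintype.card_subtype]
      have h3 : Nat.card ((h.H c).map (QuotientGroup.mk' (h.S c))) =
          ((univ.filter fun a : A => a ∈ h.H c).image (fun a : A => (a : A ⧸ h.S c))).card := by
        rw [Nat.card_eq_fintype_card, Fintype.card_subtype]
        congr 1
        ext q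
        simp only [mem_filter, mem_univ, true_and, Subgroup.mem_map, QuotientGroup.mk'_apply,
          mem_image]
      rw [h2, h.card_H c, ← h3, hS] at h1
      exact (Nat.eq_of_mul_eq_mul_right (by omega) h1).symm
    · have h1 := card_image_mk (h.S c) (h.blk c) hstab
      rw [h.cardB c _ hB, hS] at h1
      exact (Nat.eq_of_mul_eq_mul_right (by omega) h1).symm
    · intro q hqN hq1
      obtain ⟨a, ha, rfl⟩ := hqN
      have h1 := hq a
      rw [h.card_meet hB ((h.mem_H hB).1 ha)] at h1
      rw [if_neg, if_pos ((h.mem_H hB).1 ha)] at h1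
      · rcases Nat.mul_eq_zero.1 h1 with h2 | h2
        · exact h2
        · omega
      · intro h2
        apply hq1
        rw [QuotientGroup.mk'_apply, QuotientGroup.eq_one_iff, h.mem_S]
        exact h2.symm
    · intro q
      induction q using QuotientGroup.induction_on with
      | H a =>
        intro hqN
        have h1 := hq a
        have ha : a • h.blk c ∉ cls c := by
          intro h2
          apply hqN
          exact ⟨a, (h.mem_H hB).2 h2, rfl⟩
        obtain ⟨d, hd⟩ := h.inv a c _ hB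
        rw [h.card_meet hB hd, if_neg, if_neg ha] at h1
        · exact Nat.eq_of_mul_eq_mul_right (show 0 < μ by omega) (by rw [h1, one_mul])
        · intro h2
          exact ha (h2 ▸ hB)
  exact key.isPrimePow h.hs

/-- `s` is a prime power -/
theorem isPrimePow (h : TN s r μ cls) : IsPrimePow s := by
  by_contra hcon
  have hs := h.hs
  have hN : NPP s := by
    intro l
    by_contra hl
    push Not at hl
    apply hcon
    rw [isPrimePow_iff_unique_prime_dvd]
    obtain ⟨p, hp, hps⟩ := Nat.exists_prime_and_dvd (show s ≠ 1 by omega)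
    refine ⟨p, ⟨hp, hps⟩, ?_⟩
    rintro q ⟨hq, hqs⟩
    rw [hl q hq hqs, hl p hp hps]
  obtain ⟨c, hc, -⟩ := h.part_SH.exists_plane hN hs h.mu_pos (μ := μ)
    (by rw [Nat.card_eq_fintype_card, h.cardA])
  exact hcon (h.isPrimePow_of_card c hc)

/-- the parameters are classical -/
theorem classical (h : TN s r μ cls) : IsPrimePow s ∧ ∃ d, 2 ≤ d ∧ μ = s ^ (d - 2) := by
  have hpp := h.isPrimePow
  refine ⟨hpp, ?_⟩
  have hs := h.hs
  have hμ := h.mu_pos
  obtain ⟨q, a, hq, ha, rfl⟩ := (isPrimePow_nat_iff _).1 hpp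
  -- `μ` is a power of `q`
  have h1 : ∀ {p : ℕ}, p.Prime → p ∣ μ → p = q := by
    intro p hp hpm
    have h2 : p ∣ q ^ a := h.part_SH.prime_dvd hp (by
      rw [Nat.card_eq_fintype_card, h.cardA]
      exact hpm.mul_left _)
    exact (Nat.prime_dvd_prime_iff_eq hp hq).1 (hp.dvd_of_dvd_pow h2)
  have h2 := Nat.eq_prime_pow_of_unique_prime_dvd (show μ ≠ 0 by omega) h1
  obtain ⟨m, hm⟩ : ∃ m, μ = q ^ m := ⟨_, h2⟩
  -- divisibility
  have h3 : q ^ a - 1 ∣ q ^ m - 1 := by
    have hc := h.compl
    have h4 : r * (q ^ a - 1) = (q ^ a) ^ 2 * μ - 1 := by omega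
    have h5 : (q ^ a) ^ 2 * μ - 1 = q ^ (2 * a + m) - 1 := by
      rw [hm, ← pow_mul, ← pow_add, mul_comm a 2]
    have h6 : q ^ a - 1 ∣ q ^ (2 * a + m) - 1 := ⟨r, by rw [← h5, ← h4, mul_comm]⟩
    have h7 : q ^ (2 * a + m) - 1 = (q ^ (2 * a) - 1) * q ^ m + (q ^ m - 1) := by
      have h8 : 1 ≤ q ^ m := Nat.one_le_pow _ _ hq.pos
      have h9 : 1 ≤ q ^ (2 * a) := Nat.one_le_pow _ _ hq.pos
      rw [Nat.sub_mul, one_mul, pow_add]
      have h10 : q ^ m ≤ q ^ (2 * a) * q ^ m := Nat.le_mul_of_pos_left _ (by omega)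
      omega
    have h8 : q ^ a - 1 ∣ (q ^ (2 * a) - 1) * q ^ m := by
      refine Dvd.dvd.mul_right ?_ _
      exact Nat.pow_sub_one_dvd_pow_sub_one q (Dvd.intro_left 2 rfl)
    rw [h7] at h6
    exact (Nat.dvd_add_right h8).1 h6
  have h4 : a ∣ m := by
    have h5 := Nat.pow_sub_one_gcd_pow_sub_one q a m
    rw [Nat.gcd_eq_left h3] at h5
    have h6 : q ^ a = q ^ a.gcd m := by
      have h7 : 1 ≤ q ^ a := Nat.one_le_pow _ _ hq.pos
      have h8 : 1 ≤ q ^ a.gcd m := Nat.one_le_pow _ _ hq.pos
      omega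
    have h7 := Nat.pow_right_injective hq.two_le h6
    rw [h7]
    exact Nat.gcd_dvd_right a m
  obtain ⟨k, rfl⟩ := h4
  refine ⟨k + 2, by omega, ?_⟩
  rw [hm, Nat.add_sub_cancel, pow_mul]

end TN

end

end Pool.Agent.Lib.MP67e184
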