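import Pool.Agent.Lib.MP_67e184_co.FixedPoint

/-!
# MP_67e184_co : point-transitive automorphism groups of complete nets
-/

namespace Pool.Agent.Lib.MP67e184

open Finset

/-- a nontrivial normal subgroup of a nilpotent group meets the centre nontrivially -/
theorem exists_mem_center_of_normal {G : Type*} [Group G] [hn : Group.IsNilpotent G]
    (N : Subgroup G) [N.Normal] (hN : N ≠ ⊥) : ∃ z ∈ N, z ∈ Subgroup.center G ∧ z ≠ 1 := by
  classical
  obtain ⟨m, hm⟩ := hn.nilpotent
  have hex : ∃ k, N ⊓ Subgroup.upperCentralSeries G k ≠ ⊥ := ⟨m, by rwa [hm, inf_top_eq]⟩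
  have hk := Nat.find_spec hex
  have hmin := fun j => Nat.find_min hex (m := j)
  set k := Nat.find hex with hkdef
  cases hk0 : k with
  | zero =>
    rw [hk0] at hk
    simp at hk
  | succ j =>
    rw [hk0] at hk
    have hj : N ⊓ Subgroup.upperCentralSeries G j = ⊥ := by
      by_contra h
      exact hmin j (by omega) h
    obtain ⟨⟨z, hz⟩, hz0⟩ := Subgroup.ne_bot_iff_exists_ne_one.1 hk
    have hz1 : z ≠ 1 := fun h => hz0 (Subtype.ext h)
    obtain ⟨hzN, hzU⟩ := Subgroup.mem_inf.1 hz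
    refine ⟨z, hzN, ?_, hz1⟩
    rw [Subgroup.mem_center_iff]
    intro g
    have h1 := (Subgroup.mem_upperCentralSeries_succ_iff).1 hzU g
    have h2 : z * g * z⁻¹ * g⁻¹ ∈ N := by
      have h3 : g * z⁻¹ * g⁻¹ ∈ N := Subgroup.Normal.conj_mem ‹N.Normal› _ (N.inv_mem hzN) g
      have h4 := N.mul_mem hzN h3
      simpa [mul_assoc] using h4
    have h5 : z * g * z⁻¹ * g⁻¹ ∈ N ⊓ Subgroup.upperCentralSeries G j := Subgroup.mem_inf.2 ⟨h2, h1⟩
    rw [hj, Subgroup.mem_bot] at h5
    have h6 : z * g = g * z := by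
      have h7 := mul_inv_eq_one.1 h5
      exact mul_inv_eq_iff_eq_mul.1 h7
    exact h6.symm

section
variable {P : Type*} [Fintype P] [DecidableEq P] {s r μ : ℕ} {cls : Fin r → Finset (Finset P)}

omit [DecidableEq P] in
theorem card_transitive (G : Subgroup (Equiv.Perm P)) (htr : ∀ x y : P, ∃ g ∈ G, g x = y)
    (x : P) : Nat.card G = Fintype.card P * Nat.card (MulAction.stabilizer G x) := by
  have h2 : MulAction.orbit G x = Set.univ := by
    apply Set.eq_univ_of_forall
    intro y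
    obtain ⟨g, hg, hgx⟩ := htr x y
    exact ⟨⟨g, hg⟩, hgx⟩
  rw [← Nat.card_congr (MulAction.orbitProdStabilizerEquivGroup G x), Nat.card_prod, h2,
    Nat.card_univ, Nat.card_eq_fintype_card]

/-- a point-transitive group of automorphisms without a fixed-point-free element of `p`-power
order -/
theorem dvd_of_transitive (h : IsCompleteNet s r μ cls) (hs : 2 ≤ s) (hμ : 1 ≤ μ)
    (G : Subgroup (Equiv.Perm P)) (haut : ∀ g ∈ G, IsAut cls g)
    (htr : ∀ x y : P, ∃ g ∈ G, g x = y) {p : ℕ} (hp : p.Prime) (hpμ : p ∣ μ)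
    (hG : Group.IsNilpotent G ∨ (∀ x : P, ¬ p ∣ Nat.card (MulAction.stabilizer G x)) ∨
      ∀ S : Sylow p G, IsCyclic S) : p ∣ s := by
  by_contra hps
  have : Fact p.Prime := ⟨hp⟩
  have hP : 0 < Fintype.card P := by
    rw [h.card_points]
    positivity
  obtain ⟨x₀⟩ := Fintype.card_pos_iff.1 hP
  have hcard := card_transitive G htr x₀
  have hpP : p ∣ Fintype.card P := by
    rw [h.card_points]
    exact Dvd.dvd.mul_left hpμ _
  have hpG : p ∣ Nat.card G := by
    rw [hcard]
    exact Dvd.dvd.mul_right hpP _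
  rcases hG with hn | hc | hcyc
  · -- nilpotent: a central element of `p`-power order has no fixed point
    obtain ⟨S⟩ : Nonempty (Sylow p G) := inferInstance
    have hSn : (S : Subgroup G).Normal := by
      have := ((Group.isNilpotent_of_finite_tfae (G := G)).out 0 3).1 hn
      exact this p ⟨hp⟩ S
    have hSb : (S : Subgroup G) ≠ ⊥ := S.ne_bot_of_dvd_card hpG
    obtain ⟨z, hzS, hzc, hz1⟩ := exists_mem_center_of_normal (S : Subgroup G) hSb
    obtain ⟨n, hn'⟩ := S.isPGroup' ⟨z, hzS⟩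
    have hzp : (z : Equiv.Perm P) ^ p ^ n = 1 := by
      have h1 := congrArg Subtype.val hn'
      have h2 := congrArg Subtype.val h1
      simpa using h2
    obtain ⟨x, hx⟩ := exists_fixed_point h hs hμ hp hps (z : Equiv.Perm P) (haut _ z.2) hzp
    apply hz1
    apply Subtype.ext
    ext y
    obtain ⟨k, hk, rfl⟩ := htr x y
    have h3 := congrArg Subtype.val ((Subgroup.mem_center_iff.1 hzc) ⟨k, hk⟩)
    have h4 : k * (z : Equiv.Perm P) = (z : Equiv.Perm P) * k := h3
    have h5 := congrArg (fun e : Equiv.Perm P => e x) h4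
    simp only [Equiv.Perm.mul_apply] at h5
    rw [← h5, hx]
    rfl
  · -- stabilisers of order prime to `p`
    obtain ⟨g, hg⟩ := exists_prime_orderOf_dvd_card' p hpG
    have hgp : (g : Equiv.Perm P) ^ p ^ 1 = 1 := by
      have h1 := pow_orderOf_eq_one g
      rw [hg] at h1
      have h2 := congrArg Subtype.val h1
      simpa using h2
    obtain ⟨x, hx⟩ := exists_fixed_point h hs hμ hp hps (g : Equiv.Perm P) (haut _ g.2) hgp
    apply hc x
    have hgs : g ∈ MulAction.stabilizer G x := hx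
    have h3 : orderOf (⟨g, hgs⟩ : MulAction.stabilizer G x) = p := by
      rw [← hg]
      exact Subgroup.orderOf_mk g hgs
    rw [← h3]
    exact orderOf_dvd_natCard _
  · -- cyclic Sylow subgroups
    obtain ⟨S⟩ : Nonempty (Sylow p G) := inferInstance
    obtain ⟨g, hg⟩ := (hcyc S).exists_generator
    obtain ⟨n, hn'⟩ := S.isPGroup' g
    have hgp : ((g : G) : Equiv.Perm P) ^ p ^ n = 1 := by
      have h1 := congrArg Subtype.val hn'
      have h2 := congrArg Subtype.val h1
      simpa using h2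
    obtain ⟨x, hx⟩ := exists_fixed_point h hs hμ hp hps ((g : G) : Equiv.Perm P)
      (haut _ (g : G).2) hgp
    have hSx : (S : Subgroup G) ≤ MulAction.stabilizer G x := by
      intro k hk
      obtain ⟨j, hj⟩ := Subgroup.mem_zpowers_iff.1 (hg ⟨k, hk⟩)
      have h3 : k = (g : G) ^ j := by
        have := congrArg Subtype.val hj
        simpa using this.symm
      rw [h3]
      exact Subgroup.zpow_mem _ (show (g : G) ∈ MulAction.stabilizer G x from hx) j
    have h4 : Nat.card S ∣ Nat.card (MulAction.stabilizer G x) := Subgroup.card_dvd_of_le hSx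
    have h5 := card_transitive G htr x
    have h6 : p * Nat.card S ∣ Nat.card G := by
      rw [h5]
      exact mul_dvd_mul hpP h4
    rw [S.card_eq_multiplicity] at h6
    have h7 : p ^ ((Nat.card G).factorization p + 1) ∣ Nat.card G := by
      rw [pow_succ']
      exact h6
    exact Nat.pow_succ_factorization_not_dvd (Nat.card_pos.ne') hp h7

theorem classical_of_dvd (h : IsCompleteNet s r μ cls) (hs : 2 ≤ s) (hμ : 1 ≤ μ)
    (hdvd : ∀ p : ℕ, p.Prime → p ∣ μ → p ∣ s) (hpp : IsPrimePow s) :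
    ∃ d, 2 ≤ d ∧ μ = s ^ (d - 2) := by
  obtain ⟨q, a, hq, ha, rfl⟩ := (isPrimePow_nat_iff s).1 hpp
  have hμq : μ = q ^ μ.primeFactorsList.length := by
    apply Nat.eq_prime_pow_of_unique_prime_dvd (by omega)
    intro d hd hdμ
    exact (Nat.prime_dvd_prime_iff_eq hd hq).1 (hd.dvd_of_dvd_pow (hdvd d hd hdμ))
  set b := μ.primeFactorsList.length with hb
  have hq2 := hq.two_le
  have h1 : q ^ a - 1 ∣ μ - 1 := by
    have hc := h.complete
    have hc' : ((r * (q ^ a - 1) + 1 : ℕ) : ℤ) = (((q ^ a) ^ 2 * μ : ℕ) : ℤ) := by rw [hc]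
    have hone : 1 ≤ q ^ a := Nat.one_le_pow _ _ (by omega)
    push_cast [Nat.cast_sub hone] at hc'
    have h2 : ((q : ℤ) ^ a - 1) ∣ (μ : ℤ) - 1 := by
      refine ⟨r - ((q : ℤ) ^ a + 1) * μ, ?_⟩
      linear_combination (-1 : ℤ) * hc'
    have h3 : (((q ^ a - 1 : ℕ) : ℤ)) ∣ ((μ - 1 : ℕ) : ℤ) := by
      rw [Nat.cast_sub hone, Nat.cast_sub hμ]
      push_cast
      exact h2
    exact_mod_cast h3
  rw [hμq] at h1
  have h2 := Nat.pow_sub_one_gcd_pow_sub_one q a b
  rw [Nat.gcd_eq_left h1] at h2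
  have h3 : q ^ a = q ^ Nat.gcd a b := by
    have h4 : 1 ≤ q ^ a := Nat.one_le_pow _ _ (by omega)
    have h5 : 1 ≤ q ^ Nat.gcd a b := Nat.one_le_pow _ _ (by omega)
    omega
  have h4 : a = Nat.gcd a b := Nat.pow_right_injective hq2 h3
  obtain ⟨k, hk⟩ : a ∣ b := by
    rw [h4]
    exact Nat.gcd_dvd_right a b
  refine ⟨k + 2, by omega, ?_⟩
  rw [hμq, hk, Nat.add_sub_cancel, pow_mul]

end

end Pool.Agent.Lib.MP67e184
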