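import Pool.Agent.Lib.MP_67e184_co.TPlane

/-!
# MP_67e184_co : complete nets and their automorphisms
-/

namespace Pool.Agent.Lib.MP67e184

open Finset
open scoped Pointwise

/-- A complete `(s, μ)`-net with point set `P`: `cls c` is the set of the blocks of the parallel
class `c`, and `r` is the number of parallel classes. -/
structure IsCompleteNet (s r μ : ℕ) {P : Type*} [Fintype P] [DecidableEq P]
    (cls : Fin r → Finset (Finset P)) : Prop where
  /-- there are `s² μ` points -/
  card_points : Fintype.card P = s ^ 2 * μ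
  /-- every block has `s μ` points -/
  card_block : ∀ c, ∀ B ∈ cls c, B.card = s * μ
  /-- every parallel class is a partition of the point set -/
  parallel : ∀ c (x : P), ∃! B, B ∈ cls c ∧ x ∈ B
  /-- blocks of different classes meet in `μ` points -/
  meet : ∀ c d, c ≠ d → ∀ B ∈ cls c, ∀ C ∈ cls d, (B ∩ C).card = μ
  /-- there are `(s² μ - 1) / (s - 1)` classes -/
  complete : r * (s - 1) + 1 = s ^ 2 * μ

/-- An automorphism: a permutation of the points that maps every block onto a block. -/
def IsAut {r : ℕ} {P : Type*} [DecidableEq P] (cls : Fin r → Finset (Finset P))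
    (g : Equiv.Perm P) : Prop :=
  ∀ c, ∀ B ∈ cls c, ∃ d, B.image g ∈ cls d

theorem classical_of_abelian {P : Type*} [Fintype P] [DecidableEq P] {s r μ : ℕ} (hs : 2 ≤ s)
    (hμ : 1 ≤ μ) (cls : Fin r → Finset (Finset P)) (h : IsCompleteNet s r μ cls)
    (G : Subgroup (Equiv.Perm P)) (haut : ∀ g ∈ G, IsAut cls g)
    (hab : ∀ g ∈ G, ∀ k ∈ G, g * k = k * g) (htr : ∀ x y : P, ∃ g ∈ G, g x = y) :
    IsPrimePow s ∧ ∃ d, 2 ≤ d ∧ μ = s ^ (d - 2) := by
  classical
  have hP : 0 < Fintype.card P := by
    rw [h.card_points]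
    positivity
  obtain ⟨x₀⟩ := Fintype.card_pos_iff.1 hP
  let _ : CommGroup G :=
    { (inferInstance : Group G) with
      mul_comm := fun a b => Subtype.ext (hab a a.2 b b.2) }
  let φ : G → P := fun a => (a : Equiv.Perm P) x₀
  have hinj : Function.Injective φ := by
    intro a b hab'
    apply Subtype.ext
    ext y
    obtain ⟨k, hk, rfl⟩ := htr x₀ y
    have h1 : (a : Equiv.Perm P) (k x₀) = k ((a : Equiv.Perm P) x₀) := by
      rw [← Equiv.Perm.mul_apply, hab a a.2 k hk, Equiv.Perm.mul_apply]
    have h2 : (b : Equiv.Perm P) (k x₀) = k ((b : Equiv.Perm P) x₀) := by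
      rw [← Equiv.Perm.mul_apply, hab b b.2 k hk, Equiv.Perm.mul_apply]
    rw [h1, h2]
    exact congrArg k hab'
  have hsurj : Function.Surjective φ := by
    intro y
    obtain ⟨g, hg, h1⟩ := htr x₀ y
    exact ⟨⟨g, hg⟩, h1⟩
  let e : G ≃ P := Equiv.ofBijective φ ⟨hinj, hsurj⟩
  have he : ∀ (a : G) (y : P), e.symm ((a : Equiv.Perm P) y) = a * e.symm y := by
    intro a y
    rw [Equiv.symm_apply_eq]
    change (a : Equiv.Perm P) y = ((a * e.symm y : G) : Equiv.Perm P) x₀
    rw [Subgroup.coe_mul, Equiv.Perm.mul_apply]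
    congr 1
    exact (e.apply_symm_apply y).symm
  have hTN : TN s r μ (fun c => (cls c).image fun B => B.image e.symm) := by
    refine ⟨hs, ?_, ?_, ?_, ?_, h.complete, ?_⟩
    · rw [← h.card_points]
      exact Fintype.card_congr e
    · intro c B' hB'
      obtain ⟨B, hB, rfl⟩ := Finset.mem_image.1 hB'
      rw [Finset.card_image_of_injective _ e.symm.injective, h.card_block c B hB]
    · intro c a
      obtain ⟨B, ⟨hB1, hB2⟩, hB3⟩ := h.parallel c (e a)
      refine ⟨B.image e.symm, ⟨Finset.mem_image_of_mem _ hB1, ?_⟩, ?_⟩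
      · exact Finset.mem_image.2 ⟨e a, hB2, e.symm_apply_apply a⟩
      · rintro C' ⟨hC', ha⟩
        obtain ⟨C, hC, rfl⟩ := Finset.mem_image.1 hC'
        obtain ⟨y, hy, hya⟩ := Finset.mem_image.1 ha
        have h1 : e a ∈ C := by
          rw [← hya, e.apply_symm_apply]
          exact hy
        rw [hB3 C ⟨hC, h1⟩]
    · intro c d hcd B' hB' C' hC'
      obtain ⟨B, hB, rfl⟩ := Finset.mem_image.1 hB'
      obtain ⟨C, hC, rfl⟩ := Finset.mem_image.1 hC'
      rw [← Finset.image_inter _ _ e.symm.injective,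
        Finset.card_image_of_injective _ e.symm.injective, h.meet c d hcd B hB C hC]
    · intro a c B' hB'
      obtain ⟨B, hB, rfl⟩ := Finset.mem_image.1 hB'
      obtain ⟨d, hd⟩ := haut a a.2 c B hB
      refine ⟨d, Finset.mem_image.2 ⟨_, hd, ?_⟩⟩
      rw [Finset.image_image]
      change _ = (B.image e.symm).image (a • ·)
      rw [Finset.image_image]
      refine Finset.image_congr fun y _ => ?_
      exact he a y
  exact hTN.classical

end Pool.Agent.Lib.MP67e184
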